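import Pool.Agent.Work.MP_501976_gc.Interface

/-!
# MP_501976_ag, THEOREM GC: block COR
-/

set_option autoImplicit false

universe u v

open Polynomial

namespace GC1

theorem COR_wpos {N r s : ℕ} {δ n κ : Fin (s + 1) → ℕ} {d₁ d₂ : ℕ}
    (t : SS N r s δ n κ d₁ d₂) : 0 < wS t := by
  rcases t with ⟨i, l⟩ | ⟨b, l⟩ | ⟨b, l⟩ | ⟨b, l⟩ | l | l <;> exact Nat.succ_pos _

theorem COR_map {K₀ F F₁ : Type u} [Field K₀] [Field F] [Field F₁] [Algebra K₀ F]
    [Algebra K₀ F₁] [Algebra F F₁] [IsScalarTower K₀ F F₁] {N : ℕ} (f : Fin (N + 1) → F[X])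
    (G : MvPolynomial (Fin (N + 1)) K₀) :
    MvPolynomial.aeval (fun i => (f i).map (algebraMap F F₁))
        (MvPolynomial.map (algebraMap K₀ F₁) G) =
      (MvPolynomial.aeval f (MvPolynomial.map (algebraMap K₀ F) G)).map (algebraMap F F₁) := by
  rw [MP501976.aeval_map, MvPolynomial.map_map, ← IsScalarTower.algebraMap_eq]

theorem COR_indep {K₀ F F₁ : Type u} [Field K₀] [Field F] [Field F₁] [Algebra K₀ F]
    [Algebra K₀ F₁] [Algebra F F₁] [IsScalarTower K₀ F F₁] {N r s : ℕ}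
    {δ n κ : Fin (s + 1) → ℕ} {d₁ d₂ : ℕ} (f : Fin (N + 1) → F[X])
    (hdeg : ∀ i, (f i).natDegree ≤ r + 1)
    (h0 : ∀ i, (f i).coeff 0 = algebraMap K₀ F (e1 K₀ N i)) (ξ : TT s κ d₁ d₂ → F₁)
    (v : SS N r s δ n κ d₁ d₂ → F₁)
    (hv1 : ∀ i l, v (Sum.inl (i, l)) = algebraMap F F₁ ((f i).coeff ((l : ℕ) + 1)))
    (hv4 : ∀ t, v (Sum.inr (Sum.inr (Sum.inr t))) = ξ t) (M m : ℕ) (hm : m ≤ M)
    (hI : Indep K₀ (algebraMap F F₁ '' coefs f ∪ Set.range ξ) M) :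
    Indep K₀ (Set.range v) m := by
  obtain ⟨a, ha, hai⟩ := hI
  refine ⟨fun i => a (Fin.castLE hm i), ?_, hai.comp _ (Fin.castLE_injective hm)⟩
  intro i
  have htr : Transcendental K₀ (a (Fin.castLE hm i)) := hai.transcendental _
  rcases ha (Fin.castLE hm i) with ⟨z, ⟨j, l, rfl⟩, hz⟩ | ⟨t, ht⟩
  · rcases l with _ | l
    · exfalso
      apply htr
      rw [← hz, h0 j, ← IsScalarTower.algebraMap_apply]
      exact isAlgebraic_algebraMap _
    · by_cases hl : l < r + 1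
      · refine ⟨Sum.inl (j, ⟨l, hl⟩), ?_⟩
        rw [hv1]
        exact hz
      · exfalso
        apply htr
        rw [← hz, Polynomial.coeff_eq_zero_of_natDegree_lt
          (lt_of_le_of_lt (hdeg j) (by omega)), map_zero]
        exact isAlgebraic_zero
  · exact ⟨Sum.inr (Sum.inr (Sum.inr t)), by rw [hv4]; exact ht⟩

theorem p_COR (hMOB : Stmt_MOB.{u}) (hSHP : Stmt_SHP.{u}) (hSLI : Stmt_SLI.{u})
    (hGRD : Stmt_GRD.{u}) (hTRD : Stmt_TRD.{u}) (hVAD : Stmt_VAD.{u}) (hEQH : Stmt_EQH.{u})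
    (hRES : Stmt_RES.{u}) : Stmt_COR.{u} := by
  intro K₀ _ _ N c H d hd r hNo F _ _ f hf hnt c' hind s D p hDp hD0 δ n κ E μ d₁ d₂ hE hμ hδ hp
    S β hShp hcount
  obtain ⟨a, hf', hnt', hlin, hind'⟩ := hSLI K₀ F N c H d hd r c' f hf hnt hind
  have hShp' : Shp D (e1 K₀ N) E δ n (fun i => mob a (r + 1) (f i))
      (fun b => mob a (δ b) (S b)) (fun b => mob a (n b) (β b)) := by
    intro b
    obtain ⟨h1, h2, h3, h4, h5⟩ := hShp b
    refine ⟨(hMOB F a (δ b) (S b) h1).1, (hMOB F a (n b) (β b) h2).1, ?_, ?_, ?_⟩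
    · rw [(hMOB F a (δ b) (S b) h1).2.1, h3]
    · rw [(hMOB F a (n b) (β b) h2).2.1, h4]
    · exact hSHP F (N + 1) (p b) (r + 1) (δ b) (E b) (n b)
        (MvPolynomial.map (algebraMap K₀ F) (D b)) f (S b) (β b) _ a
        ((hDp b).map (algebraMap K₀ F)) hf.1 h1 h2 (hp b) h5
  obtain ⟨F₁, _, _, _, _, ξ, hI⟩ := hTRD K₀ F (TT s κ d₁ d₂)
    (coefs fun i => mob a (r + 1) (f i)) c' hind'
  let v : SS N r s δ n κ d₁ d₂ → F₁ := Sum.elim
    (fun z => algebraMap F F₁ ((mob a (r + 1) (f z.1)).coeff ((z.2 : ℕ) + 1)))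
    (Sum.elim (fun z => algebraMap F F₁ ((mob a (δ z.1) (S z.1)).coeff ((z.2 : ℕ) + 1)))
      (Sum.elim (fun z => algebraMap F F₁ ((mob a (n z.1) (β z.1)).coeff ((z.2 : ℕ) + 1))) ξ))
  have hcard : Fintype.card (TT s κ d₁ d₂) = ∑ b, κ b + (d₁ + d₂) := by
    simp only [Fintype.card_sum, Fintype.card_sigma, Fintype.card_fin]
  have hcardι : Fintype.card (Σ b : Fin (s + 1), Fin (nn κ E μ d₁ d₂ b)) =
      ∑ b, nn κ E μ d₁ d₂ b := by
    simp only [Fintype.card_sigma, Fintype.card_fin]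
  have hIv : Indep K₀ (Set.range v)
      (Fintype.card (Σ b : Fin (s + 1), Fin (nn κ E μ d₁ d₂ b)) + 1) := by
    refine COR_indep (fun i => mob a (r + 1) (f i)) hf'.1 hf'.2.1 ξ v (fun i l => rfl)
      (fun t => rfl) _ _ ?_ hI
    rw [hcard, hcardι]
    omega
  obtain ⟨q, hq, hG, hEQ, hX⟩ := hGRD K₀ F₁ (SS N r s δ n κ d₁ d₂)
    (Σ b : Fin (s + 1), Fin (nn κ E μ d₁ d₂ b)) wS COR_wpos v (EQ K₀ N r δ n κ E μ d₁ d₂)
    (fun x => (x.2 : ℕ) + 1) (fun x => hEQH K₀ N r s δ n κ E μ d₁ d₂ x)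
    (fun x => Nat.succ_pos _) hIv
  obtain ⟨F', _, _, _, _, _, O, lam, hlam, hO, hqO⟩ := hVAD K₀ F₁ (SS N r s δ n κ d₁ d₂) wS v q
    hq hG
  have hinj := (algebraMap F F₁).injective
  refine hRES K₀ F₁ N c H d hd r hNo
    (fun i => (mob a (r + 1) (f i)).map (algebraMap F F₁)) ⟨?_, ?_, ?_⟩ ?_ ?_ s D δ n κ E μ d₁ d₂
    (fun b => (mob a (δ b) (S b)).map (algebraMap F F₁))
    (fun b => (mob a (n b) (β b)).map (algebraMap F F₁)) ?_ hδ hE hμ hD0 v ?_ ?_ ?_ q hq hEQ hX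
    F' O lam hlam hO hqO
  · intro i
    exact Polynomial.natDegree_map_le.trans (hf'.1 i)
  · intro i
    have h := hf'.2.1 i
    simp only at h
    rw [Polynomial.coeff_map, h, ← IsScalarTower.algebraMap_apply]
  · intro j
    rw [COR_map (fun i => mob a (r + 1) (f i)), hf'.2.2 j, Polynomial.map_zero]
  · intro ht
    apply hnt'
    intro i
    apply Polynomial.map_injective (algebraMap F F₁) hinj
    have := ht i
    simp only at this
    rw [Polynomial.map_mul, Polynomial.map_mul, Polynomial.map_C, Polynomial.map_C,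
      ← IsScalarTower.algebraMap_apply, ← IsScalarTower.algebraMap_apply]
    exact this
  · rw [Polynomial.coeff_map, hlin, map_zero]
  · intro b
    obtain ⟨h1, h2, h3, h4, h5⟩ := hShp' b
    refine ⟨Polynomial.natDegree_map_le.trans h1, Polynomial.natDegree_map_le.trans h2, ?_, ?_, ?_⟩
    · simp only at h3 ⊢
      rw [Polynomial.coeff_map, h3, map_one]
    · simp only at h4 ⊢
      rw [Polynomial.coeff_map, h4, map_one]
    · rw [COR_map (fun i => mob a (r + 1) (f i)), h5, Polynomial.map_mul, Polynomial.map_C,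
        Polynomial.map_mul, Polynomial.map_pow, ← IsScalarTower.algebraMap_apply]
  · intro i l
    rw [Polynomial.coeff_map]
    rfl
  · intro b l
    rw [Polynomial.coeff_map]
    rfl
  · intro b l
    rw [Polynomial.coeff_map]
    rfl

end GC1
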