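import Pool.Agent.Work.MP_501976_gc.Interface

universe u

open Polynomial

namespace GC1

/-- Isobaric polynomials. -/
def EQH_iso {K₀ : Type u} [Field K₀] {σ : Type} (w : σ → ℕ) (P : (MvPolynomial σ K₀)[X]) : Prop :=
  ∀ l, (P.coeff l).IsWeightedHomogeneous w l

theorem EQH_one {K₀ : Type u} [Field K₀] {σ : Type} (w : σ → ℕ) :
    EQH_iso w (1 : (MvPolynomial σ K₀)[X]) := by
  intro l
  rw [coeff_one]
  split_ifs with h
  · subst h
    exact MvPolynomial.isWeightedHomogeneous_one K₀ w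
  · exact MvPolynomial.isWeightedHomogeneous_zero K₀ w l

theorem EQH_mul {K₀ : Type u} [Field K₀] {σ : Type} {w : σ → ℕ} {P Q : (MvPolynomial σ K₀)[X]}
    (hP : EQH_iso w P) (hQ : EQH_iso w Q) : EQH_iso w (P * Q) := by
  intro l
  rw [coeff_mul]
  refine MvPolynomial.IsWeightedHomogeneous.sum _ _ _ fun a ha => ?_
  rw [Finset.HasAntidiagonal.mem_antidiagonal] at ha
  rw [← ha]
  exact (hP a.1).mul (hQ a.2)

theorem EQH_pow {K₀ : Type u} [Field K₀] {σ : Type} {w : σ → ℕ} {P : (MvPolynomial σ K₀)[X]}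
    (hP : EQH_iso w P) (n : ℕ) : EQH_iso w (P ^ n) := by
  induction n with
  | zero => rw [pow_zero]; exact EQH_one w
  | succ n ih => rw [pow_succ]; exact EQH_mul ih hP

theorem EQH_sub {K₀ : Type u} [Field K₀] {σ : Type} {w : σ → ℕ} {P Q : (MvPolynomial σ K₀)[X]}
    (hP : EQH_iso w P) (hQ : EQH_iso w Q) : EQH_iso w (P - Q) := by
  intro l
  rw [coeff_sub]
  exact (MvPolynomial.weightedHomogeneousSubmodule K₀ w l).sub_mem (hP l) (hQ l)

theorem EQH_ser {K₀ : Type u} [Field K₀] {σ : Type} {w : σ → ℕ} {n : ℕ} (t : Fin n → σ)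
    (ht : ∀ l, w (t l) = (l : ℕ) + 1) :
    EQH_iso w (MP501976.ser 1 fun l : Fin n => (MvPolynomial.X (t l) : MvPolynomial σ K₀)) := by
  intro l
  rcases l with _ | l
  · rw [MP501976.ser_coeff_zero]
    exact MvPolynomial.isWeightedHomogeneous_one K₀ w
  · by_cases hl : l < n
    · have := MP501976.ser_coeff_succ (1 : MvPolynomial σ K₀)
        (fun l : Fin n => (MvPolynomial.X (t l) : MvPolynomial σ K₀)) ⟨l, hl⟩
      rw [show l + 1 = ((⟨l, hl⟩ : Fin n) : ℕ) + 1 from rfl, this]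
      rw [← ht ⟨l, hl⟩]
      exact MvPolynomial.isWeightedHomogeneous_X K₀ w (t ⟨l, hl⟩)
    · rw [coeff_eq_zero_of_natDegree_lt
        (lt_of_le_of_lt (MP501976.ser_natDegree_le _ _) (by omega))]
      exact MvPolynomial.isWeightedHomogeneous_zero K₀ w _

theorem p_EQH : Stmt_EQH.{u} := by
  intro K₀ _ N r s δ n κ E μ d₁ d₂ a
  have hS := EQH_ser (K₀ := K₀) (w := (wS : SS N r s δ n κ d₁ d₂ → ℕ))
    (fun l : Fin (δ a.1) => Sum.inr (Sum.inl ⟨a.1, l⟩)) (fun l => rfl)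
  have hG := EQH_ser (K₀ := K₀) (w := (wS : SS N r s δ n κ d₁ d₂ → ℕ))
    (fun l : Fin (κ a.1) => Sum.inr (Sum.inr (Sum.inr (Sum.inl ⟨a.1, l⟩)))) (fun l => rfl)
  have h1 := EQH_ser (K₀ := K₀) (w := (wS : SS N r s δ n κ d₁ d₂ → ℕ))
    (fun l : Fin d₁ => Sum.inr (Sum.inr (Sum.inr (Sum.inr (Sum.inl l))))) (fun l => rfl)
  have h2 := EQH_ser (K₀ := K₀) (w := (wS : SS N r s δ n κ d₁ d₂ → ℕ))
    (fun l : Fin d₂ => Sum.inr (Sum.inr (Sum.inr (Sum.inr (Sum.inr l))))) (fun l => rfl)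
  refine EQH_sub hS (EQH_mul (EQH_pow hG _) ?_) ((a.2 : ℕ) + 1)
  split_ifs
  · exact EQH_pow (EQH_mul h1 (EQH_pow h2 2)) μ
  · exact EQH_one _

end GC1
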