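import Pool.Agent.Work.MP_501976_gc.Interface

/-!
# Block EQR: reading the equations
-/

set_option autoImplicit false

universe u v

open Polynomial

namespace GC1

section

variable {N r s : ℕ} {δ n κ : Fin (s + 1) → ℕ} {d₁ d₂ : ℕ}

theorem EQR_cS {A B : Type u} [CommRing A] [CommRing B] (f : A →+* B)
    (y : SS N r s δ n κ d₁ d₂ → A) (b : Fin (s + 1)) : (cS y b).map f = cS (fun t => f (y t)) b := by
  simp only [cS, MP501976.ser_map, map_one]

theorem EQR_fac {A B : Type u} [CommRing A] [CommRing B] (f : A →+* B) (E : Fin (s + 1) → ℕ) (μ : ℕ)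
    (y : SS N r s δ n κ d₁ d₂ → A) (b : Fin (s + 1)) :
    (fac E μ y b).map f = fac E μ (fun t => f (y t)) b := by
  unfold fac
  split_ifs with hb
  · simp only [cG, cH₁, cH₂, Polynomial.map_mul, Polynomial.map_pow, MP501976.ser_map, map_one]
  · simp only [cG, Polynomial.map_mul, Polynomial.map_pow, MP501976.ser_map, map_one,
      Polynomial.map_one]

theorem EQR_zero {A : Type u} [CommRing A] (E : Fin (s + 1) → ℕ) (μ : ℕ)
    (y : SS N r s δ n κ d₁ d₂ → A) (b : Fin (s + 1)) : (fac E μ y b).coeff 0 = 1 := by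
  have h : ∀ (m : ℕ) (u : Fin m → A), (MP501976.ser 1 u).eval 0 = 1 := by
    intro m u
    rw [← coeff_zero_eq_eval_zero, MP501976.ser_coeff_zero]
  rw [coeff_zero_eq_eval_zero]
  unfold fac
  split_ifs with hb
  · simp only [cG, cH₁, cH₂, eval_mul, eval_pow, h, one_pow, mul_one]
  · simp only [cG, eval_pow, h, one_pow, mul_one]

theorem EQR_deg {A : Type u} [CommRing A] (E : Fin (s + 1) → ℕ) (μ : ℕ)
    (y : SS N r s δ n κ d₁ d₂ → A) (b : Fin (s + 1)) :
    (fac E μ y b).natDegree ≤ nn κ E μ d₁ d₂ b := by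
  have hG : (cG y b ^ E b).natDegree ≤ E b * κ b :=
    natDegree_pow_le.trans (Nat.mul_le_mul_left _ (MP501976.ser_natDegree_le _ _))
  unfold fac nn
  refine natDegree_mul_le.trans (Nat.add_le_add hG ?_)
  split_ifs with hb
  · refine natDegree_pow_le.trans ?_
    have h1 : (cH₁ y).natDegree ≤ d₁ := MP501976.ser_natDegree_le _ _
    have h2 : (cH₂ y ^ 2).natDegree ≤ 2 * d₂ :=
      natDegree_pow_le.trans (Nat.mul_le_mul_left _ (MP501976.ser_natDegree_le _ _))
    have h3 : (cH₁ y * cH₂ y ^ 2).natDegree ≤ d₁ + 2 * d₂ :=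
      natDegree_mul_le.trans (Nat.add_le_add h1 h2)
    calc μ * (cH₁ y * cH₂ y ^ 2).natDegree ≤ μ * (d₁ + 2 * d₂) := Nat.mul_le_mul_left _ h3
      _ = μ * d₁ + 2 * (μ * d₂) := by ring
  · rw [natDegree_one]

end

theorem p_EQR : Stmt_EQR.{u} := by
  intro K₀ A _ _ _ N r s δ n κ E μ d₁ d₂ hδ y hy b
  have hf : ∀ l : Fin (nn κ E μ d₁ d₂ b), (cS y b - fac E μ y b).coeff ((l : ℕ) + 1) = 0 := by
    intro l
    have h1 := hy ⟨b, l⟩
    let φ : MvPolynomial (SS N r s δ n κ d₁ d₂) K₀ →+* A := (MvPolynomial.aeval y).toRingHom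
    have hφ : (fun t => φ (MvPolynomial.X t)) = y := by
      funext t
      exact MvPolynomial.aeval_X y t
    have h2 := EQR_cS φ (fun t => (MvPolynomial.X t : MvPolynomial (SS N r s δ n κ d₁ d₂) K₀)) b
    have h3 := EQR_fac φ E μ (fun t => (MvPolynomial.X t : MvPolynomial (SS N r s δ n κ d₁ d₂) K₀)) b
    rw [hφ] at h2 h3
    rw [← h2, ← h3, ← Polynomial.map_sub, coeff_map]
    exact h1
  have h0 : (cS y b).coeff 0 = 1 := MP501976.ser_coeff_zero _ _
  have hd : (cS y b).natDegree ≤ nn κ E μ d₁ d₂ b := (MP501976.ser_natDegree_le _ _).trans (hδ b)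
  ext k
  rcases Nat.eq_zero_or_pos k with hk | hk
  · rw [hk, h0, EQR_zero]
  · obtain ⟨l, rfl⟩ := Nat.exists_eq_add_of_le' hk
    by_cases hl : l < nn κ E μ d₁ d₂ b
    · have h4 := hf ⟨l, hl⟩
      rw [coeff_sub, sub_eq_zero] at h4
      exact h4
    · rw [coeff_eq_zero_of_natDegree_lt, coeff_eq_zero_of_natDegree_lt]
      · have := EQR_deg E μ y b
        omega
      · omega

end GC1
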