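import Mathlib
import Pool.Agent.Work.MP_501976_ix.Assembly

/-!
# Covers of arbitrary projective varieties (MP_501976_ag, THEOREM GC, helper27)

Curves: a rational curve of degree at most `e` through the point `p` is a tuple of polynomials
`f i` of degree at most `e` with `f i (0) = p i`.  Along the given curve the branch polynomials
are `D b = S b * β b ^ e b`, only the degree of `S b` counts.  Blocks: every `Stmt_X` is one block, the file
`B_X.lean` proves `p_X : Stmt_A → .. → Stmt_X`.  Namespace `GC1`.  The library of THEOREM IX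
(`IX1.p_NRM`, `IX1.p_RDU`, `IX1.p_NCO`, `MP501976.*`) is proved and imported.
-/

universe u v

open Polynomial

namespace GC1

/-- `f` is a curve of degree at most `e` through `p` on which the `H j` vanish. -/
def IsCurve {K₀ F : Type u} [Field K₀] [Field F] [Algebra K₀ F] {N c : ℕ}
    (H : Fin c → MvPolynomial (Fin (N + 1)) K₀) (p : Fin (N + 1) → K₀) (e : ℕ)
    (f : Fin (N + 1) → F[X]) : Prop :=
  (∀ i, (f i).natDegree ≤ e) ∧ (∀ i, (f i).coeff 0 = algebraMap K₀ F (p i)) ∧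
    ∀ j, MvPolynomial.aeval f (MvPolynomial.map (algebraMap K₀ F) (H j)) = 0

/-- `f` is constant up to scaling: `f i / f 0 = p i / p 0`. -/
def Triv {K₀ F : Type u} [Field K₀] [Field F] [Algebra K₀ F] {N : ℕ}
    (p : Fin (N + 1) → K₀) (f : Fin (N + 1) → F[X]) : Prop :=
  ∀ i, C (algebraMap K₀ F (p 0)) * f i = C (algebraMap K₀ F (p i)) * f 0

/-- There are no curves of degree at most `r` through `p`, over any extension field. -/
def NoCurves {K₀ : Type u} [Field K₀] {N c : ℕ} (H : Fin c → MvPolynomial (Fin (N + 1)) K₀)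
    (p : Fin (N + 1) → K₀) (r : ℕ) : Prop :=
  ∀ (F : Type u) [Field F] [Algebra K₀ F] (f : Fin (N + 1) → F[X]), IsCurve H p r f → Triv p f

/-- The coefficients of a curve. -/
def coefs {F : Type u} [Field F] {N : ℕ} (f : Fin (N + 1) → F[X]) : Set F :=
  {a | ∃ i l, a = (f i).coeff l}

/-- `S` contains `c` elements which are algebraically independent over `K₀`. -/
def Indep (K₀ : Type u) {F : Type u} [Field K₀] [Field F] [Algebra K₀ F] (S : Set F) (c : ℕ) :
    Prop :=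
  ∃ a : Fin c → F, (∀ i, a i ∈ S) ∧ AlgebraicIndependent K₀ a

/-- The point `(1, 0, .., 0)`. -/
def e1 (K₀ : Type u) [Field K₀] (N : ℕ) : Fin (N + 1) → K₀ := Pi.single 0 1

/-! ### Transformations of curves -/

/-- `(1 + a X) ^ e * f (X / (1 + a X))`. -/
noncomputable def mob {F : Type u} [Field F] (a : F) (e : ℕ) (f : F[X]) : F[X] :=
  ∑ l ∈ Finset.range (e + 1), C (f.coeff l) * X ^ l * (1 + C a * X) ^ (e - l)

/-- MOB. Elementary facts on `mob`.
Proof: degrees termwise; at `X = 0` only `l = 0` contributes; the coefficient of `X` comes from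
`l = 0, 1`; for the last two work in `M = FractionRing F[X]`, `x` the image of `X`, where the
image of `mob a e f` is `(1 + a x) ^ e * aeval (x / (1 + a x)) f` (`natDegree f ≤ e`); and
`1 + a * (x / (1 - a x)) = 1 / (1 - a x)`. -/
def Stmt_MOB : Prop :=
  ∀ (F : Type u) [Field F] (a : F) (e : ℕ) (f : F[X]), f.natDegree ≤ e →
    (mob a e f).natDegree ≤ e ∧ (mob a e f).coeff 0 = f.coeff 0 ∧
    (mob a e f).coeff 1 = f.coeff 1 + e * a * f.coeff 0 ∧ mob (-a) e (mob a e f) = f ∧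
    ∀ (e' : ℕ) (g : F[X]), g.natDegree ≤ e' → mob a (e + e') (f * g) = mob a e f * mob a e' g

/-- MOH. Homogeneous polynomials and `mob`.
Proof: in `M = FractionRing F[X]`, `x` the image of `X`, `τ = x / (1 + a x)`: the image of
`mob a e (f i)` is `(1 + a x) ^ e * aeval τ (f i)`; by `IX1.p_HOM` (weights one, `lam =
(1 + a x) ^ e`) the image of the left side is `((1 + a x) ^ e) ^ d * aeval τ (aeval f H)`, and
`aeval f H` has degree at most `d * e` (`MP501976.aeval_natDegree_le_weighted`, or termwise). -/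
def Stmt_MOH : Prop :=
  ∀ (F : Type u) [Field F] (N d e : ℕ) (H : MvPolynomial (Fin N) F) (f : Fin N → F[X]) (a : F),
    H.IsHomogeneous d → (∀ i, (f i).natDegree ≤ e) →
    MvPolynomial.aeval (fun i => mob a e (f i)) H = mob a (d * e) (MvPolynomial.aeval f H)

/-- SHP (uses MOB, MOH). The shape of a branch polynomial along the transformed curve.
Proof: MOH gives `mob a (p * e) (C κ * (S * β ^ q))`; `p * e = δ + q * n`; MOB for the product
(`mob a (q * n) (β ^ q) = mob a n β ^ q` by induction on `q`; constants: the definition). -/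
def Stmt_SHP : Prop :=
  ∀ (F : Type u) [Field F] (N p e δ q n : ℕ) (D : MvPolynomial (Fin N) F) (f : Fin N → F[X])
    (S β : F[X]) (κ a : F), D.IsHomogeneous p → (∀ i, (f i).natDegree ≤ e) →
    S.natDegree ≤ δ → β.natDegree ≤ n → p * e = δ + q * n →
    MvPolynomial.aeval f D = C κ * (S * β ^ q) →
    MvPolynomial.aeval (fun i => mob a e (f i)) D = C κ * (mob a δ S * mob a n β ^ q)

/-- IDP. Exchange of algebraically independent elements.
Proof: first part: `K₀(T)` has a transcendence basis contained in `T`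
(`exists_isTranscendenceBasis_subset` or similar), of cardinality at least `c` because the `c`
independent elements of `S` lie in `K₀(T)` (`AlgebraicIndependent.cardinalMk_le_trdeg` or
similar; the case of an infinite basis is trivial); take `c` of its elements.  Second part: the
family of `c + 1` elements is injective, so at most one of them is equal to `b`; remove it, or
any one. -/
def Stmt_IDP : Prop :=
  ∀ (K₀ F : Type u) [Field K₀] [Field F] [Algebra K₀ F],
    (∀ (S T : Set F), (∀ z ∈ S, z ∈ IntermediateField.adjoin K₀ T) → ∀ c, Indep K₀ S c →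
      Indep K₀ T c) ∧
    ∀ (T : Set F) (b : F) (c : ℕ), Indep K₀ (insert b T) (c + 1) → Indep K₀ T c

/-- SLI (uses MOB, MOH, IDP). Normalisation of the linear coefficient of `f 0`.
Proof: `f 0 = 1 + a₁ X + ..`; put `a = - a₁ / (r + 1)`, `f' i = mob a (r + 1) (f i)`.  It is a
curve (MOB, MOH; `mob a _ 0 = 0`), not trivial since `f i = mob (-a) (r + 1) (f' i)`, and
`(f' 0).coeff 1 = 0`.  The coefficients of `f` are polynomials in those of `f'` and `a`; so by
IDP `Indep K₀ (insert a (coefs f')) (c' + 1)` and `Indep K₀ (coefs f') c'`. -/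
def Stmt_SLI : Prop :=
  ∀ (K₀ F : Type u) [Field K₀] [CharZero K₀] [Field F] [Algebra K₀ F] (N c : ℕ)
    (H : Fin c → MvPolynomial (Fin (N + 1)) K₀) (d : Fin c → ℕ),
    (∀ j, (H j).IsHomogeneous (d j)) → ∀ (r c' : ℕ) (f : Fin (N + 1) → F[X]),
    IsCurve H (e1 K₀ N) (r + 1) f → ¬ Triv (e1 K₀ N) f → Indep K₀ (coefs f) (c' + 1) →
    ∃ a : F, IsCurve H (e1 K₀ N) (r + 1) (fun i => mob a (r + 1) (f i)) ∧
      ¬ Triv (e1 K₀ N) (fun i => mob a (r + 1) (f i)) ∧
      (mob a (r + 1) (f 0)).coeff 1 = 0 ∧ Indep K₀ (coefs fun i => mob a (r + 1) (f i)) c'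

/-- REF. Reversed polynomials satisfy the same homogeneous equations.
Proof: in `M = FractionRing F[X]` the image of `C b * (G i).reflect m` is
`b * x ^ m * aeval x⁻¹ (G i)` (`natDegree ≤ m`); `IX1.p_HOM` with `lam = b * x ^ m`, weights
one. -/
def Stmt_REF : Prop :=
  ∀ (F : Type u) [Field F] (N d m : ℕ) (H : MvPolynomial (Fin N) F) (G : Fin N → F[X]) (b : F),
    H.IsHomogeneous d → (∀ i, (G i).natDegree ≤ m) → MvPolynomial.aeval G H = 0 →
    MvPolynomial.aeval (fun i => C b * (G i).reflect m) H = 0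

/-! ### Minimal curves do not split -/

/-- ZIN (uses REF). The zoom induction.  `φ` are the expansions of a curve at a zero of `φ 0`
whose reduction has multiplicity `m` there, the other coordinates being zero modulo the maximal
ideal; the curve is not in the hyperplane `{x i = 0, i ≠ 0}` at the centre.
Proof: strong induction on `m`, all `φ`.  By `IX1.p_NRM` for the family
`a (i, l) = (φ i).coeff l`, `i : Fin (N + 1)`, `l < m`, weights `m - l` (not all zero because some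
`(φ i).coeff 0 ≠ 0`) there is `δ ≠ 0` with all `(φ i).coeff l / δ ^ (m - l)` in `O`, one of them
a unit.  All these coefficients are in the maximal ideal, so `δ` is.  Put
`φ' i = C (δ ^ m)⁻¹ * (φ i).comp (C δ * X)`: the coefficient of `X ^ l` is
`(φ i).coeff l / δ ^ (m - l)` for `l < m` and `(φ i).coeff l * δ ^ (l - m)` for `l ≥ m`; all in
`O`; for `l > m`, and for `i ≠ 0`, `l = m`, in the maximal ideal; the equations still hold
(homogeneity).  (a) If for some `i ≠ 0`, `l < m` it is a unit: let `G i` be the reductions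
(`IX1.p_RDU`), `natDegree (G 0) ≤ m` with coefficient `b ≠ 0` at `X ^ m`, `(G i).coeff l = 0` for
`i ≠ 0`, `l ≥ m`, not all `G i`, `i ≠ 0`, zero; `g i = C b⁻¹ * (G i).reflect m` (REF).
(b) Otherwise all `(φ' i).coeff l`, `i ≠ 0`, are in the maximal ideal and the unit occurs for
`i = 0`; let `m'` be the least `l` with `(φ' 0).coeff l` a unit: `1 ≤ m' < m` because
`(φ 0).coeff 0 = 0`.  Induction hypothesis for `φ'`. -/
def Stmt_ZIN : Prop :=
  ∀ (F : Type u) [Field F] [IsAlgClosed F] (O : ValuationSubring F) (N c : ℕ)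
    (H : Fin c → MvPolynomial (Fin (N + 1)) O) (d : Fin c → ℕ),
    (∀ j, (H j).IsHomogeneous (d j)) → ∀ (m : ℕ) (φ : Fin (N + 1) → F[X]),
    (∀ i l, (φ i).coeff l ∈ O) → (φ 0).coeff 0 = 0 →
    (∀ l < m, (φ 0).coeff l ∈ O.nonunits) → (φ 0).coeff m ∉ O.nonunits →
    (∀ i, i ≠ 0 → ∀ l, (φ i).coeff l ∈ O.nonunits) → (∃ i, i ≠ 0 ∧ (φ i).coeff 0 ≠ 0) →
    (∀ j, MvPolynomial.aeval φ (MvPolynomial.map (algebraMap O F) (H j)) = 0) →
    ∃ g : Fin (N + 1) → (IsLocalRing.ResidueField O)[X], (∀ i, (g i).natDegree ≤ m) ∧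
      (g 0).coeff 0 = 1 ∧ (∀ i, i ≠ 0 → (g i).coeff 0 = 0) ∧ (∃ i, i ≠ 0 ∧ g i ≠ 0) ∧
      ∀ j, MvPolynomial.aeval g (MvPolynomial.map (IsLocalRing.residue O) (H j)) = 0

/-- ROO. The centre: a zero `ρ` in `O` of `f 0`, and the multiplicity.
Proof: `f₀ = ∏ (1 - X / ρ)` over the roots (`F` algebraically closed, `f₀.coeff 0 = 1`); if no
root were in `O`, all `ρ⁻¹` would be in the maximal ideal and so would all coefficients of degree
`≥ 1`.  Let `ρ ∈ O` be a root, `φ = f₀.comp (X + C ρ)` (Taylor expansion, coefficients in `O`),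
`φ.coeff 0 = 0`.  The reduction of `φ` is the Taylor expansion of the reduction `g` of `f₀`,
which is not zero; let `m` be the least `l` with `φ.coeff l` a unit; `m ≥ 1` and `m ≤ r + 1` by
degree.  If `m = r + 1` then `g = b (X - ρ') ^ (r + 1)`, `g.coeff 0 = 1` gives `b, ρ' ≠ 0`, and
`g.coeff 1 = (r + 1) b (-ρ') ^ r = 0` contradicts characteristic zero. -/
def Stmt_ROO : Prop :=
  ∀ (F : Type u) [Field F] [IsAlgClosed F] (O : ValuationSubring F)
    [CharZero (IsLocalRing.ResidueField O)] (r : ℕ) (f₀ : F[X]), f₀.natDegree ≤ r + 1 →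
    f₀.coeff 0 = 1 → f₀.coeff 1 = 0 → (∀ l, f₀.coeff l ∈ O) →
    (∃ l, 0 < l ∧ f₀.coeff l ∉ O.nonunits) →
    ∃ ρ ∈ O, f₀.eval ρ = 0 ∧ ∃ m ≤ r, (f₀.comp (X + C ρ)).coeff m ∉ O.nonunits ∧
      ∀ l < m, (f₀.comp (X + C ρ)).coeff l ∈ O.nonunits

/-- UNS (uses ZIN, ROO). A nontrivial curve of minimal degree `r + 1` through `(1, 0, .., 0)`
does not specialise to a nonconstant trivial curve.
Proof: ROO for `f 0`: `ρ`, `m ≤ r`.  `φ i = (f i).comp (X + C ρ)`: coefficients in `O`, for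
`i ≠ 0` in the maximal ideal, same equations.  If `(φ i).coeff 0 = (f i).eval ρ ≠ 0` for some
`i ≠ 0`: ZIN (for the `H j` mapped to `O` through `hK`) gives a curve of degree `≤ m ≤ r` over the
residue field (an extension of `K₀`), not trivial, against `NoCurves`.  Otherwise all
`(f i).eval ρ = 0`; `ρ ≠ 0` and `f i = (1 - C ρ⁻¹ * X) * h i` with `h i` of degree `≤ r` (degree
of `f i` is at most `r + 1`), `h i (0) = f i (0)`; the equations hold for `h` (homogeneity:
`0 = (1 - C ρ⁻¹ * X) ^ d * aeval h`, `IX1.p_HOM`), `h` is not trivial: against `NoCurves`. -/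
def Stmt_UNS : Prop :=
  ∀ (K₀ F : Type u) [Field K₀] [CharZero K₀] [Field F] [IsAlgClosed F] [Algebra K₀ F]
    (O : ValuationSubring F), (∀ a : K₀, algebraMap K₀ F a ∈ O) → ∀ (N c : ℕ)
    (H : Fin c → MvPolynomial (Fin (N + 1)) K₀) (d : Fin c → ℕ),
    (∀ j, (H j).IsHomogeneous (d j)) → ∀ r : ℕ, NoCurves H (e1 K₀ N) r →
    ∀ f : Fin (N + 1) → F[X], IsCurve H (e1 K₀ N) (r + 1) f → ¬ Triv (e1 K₀ N) f →
    (f 0).coeff 1 = 0 → (∀ i l, (f i).coeff l ∈ O) →
    (∀ i, i ≠ 0 → ∀ l, (f i).coeff l ∈ O.nonunits) →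
    (∃ l, 0 < l ∧ (f 0).coeff l ∉ O.nonunits) → False

/-! ### The graded lemma -/

/-- GR1. Let `P` be an ideal of the polynomial ring with positive weights which contains the
homogeneous components of its elements, `E j` homogeneous of positive degree, and suppose that
all variables are in the radical of `P + (E)`.  Then the quotient by `P` is integral over the
subalgebra generated by the `E j`.
Proof: choose `M > 0` with `X τ ^ M ∈ P ⊔ span (range E)` for all `τ`.  Let `A` be the image of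
`aeval E` (subalgebra generated by the `E j`) and `W` the set of `b` which are, modulo `P`,
`A`-linear combinations of the monomials with all exponents `< M`.  Every monomial `b` is in `W`
by strong induction on its weight: if some exponent is `≥ M` write `b = X τ ^ M * b'` and
`X τ ^ M = ρ + ∑ g j * E j`; taking the homogeneous components of weight `M * wt τ` one may take
`ρ ∈ P` and `g j` homogeneous of weight `M * wt τ - n j` (or zero); so
`b = ρ b' + ∑ (g j b') E j` and the weights of the monomials of `g j b'` are smaller.  So the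
quotient is a finitely generated `A`-module, hence integral (`Algebra.IsIntegral.of_finite`). -/
def Stmt_GR1 : Prop :=
  ∀ (K : Type u) [Field K] (σ ι : Type) [Fintype σ] [Fintype ι] (wt : σ → ℕ),
    (∀ τ, 0 < wt τ) → ∀ (P : Ideal (MvPolynomial σ K)),
    (∀ b ∈ P, ∀ n, MvPolynomial.weightedHomogeneousComponent wt n b ∈ P) →
    ∀ (E : ι → MvPolynomial σ K) (n : ι → ℕ), (∀ j, (E j).IsWeightedHomogeneous wt (n j)) →
    (∀ j, 0 < n j) →
    (∀ τ, (MvPolynomial.X τ : MvPolynomial σ K) ∈ (P ⊔ Ideal.span (Set.range E)).radical) →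
    ∀ b : MvPolynomial σ K ⧸ P,
      IsIntegral (Algebra.adjoin K (Set.range fun j => Ideal.Quotient.mk P (E j))) b

/-- GRD (uses GR1). Let `v` be a point in an extension field `F` whose coordinates contain
`card ι + 1` algebraically independent elements, `E j` (`j : ι`) homogeneous of positive degree
for the positive weights `wt`.  Then there is a prime `q` which contains the `E j` and all
polynomials which vanish at `(v τ * X ^ wt τ)`, but not all variables.
Proof: `P` = kernel of `aeval (fun τ => C (v τ) * X ^ wt τ)` into `F[X]`, a prime ideal which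
contains the components of its elements (the value of the component of weight `n` is
`C (value at v) * X ^ n`).  If every prime over `P ⊔ span (range E)` contained all variables,
these would be in its radical (`Ideal.radical_eq_sInf`), so by GR1 the image `B'` of the
polynomial ring in `F[X]` would be integral over the subalgebra generated by `card ι` elements,
so of transcendence degree at most `card ι` (`Algebra.trdeg_le_cardinalMk`).  But the elements
`C (v τ) * X ^ wt τ` for the `card ι + 1` algebraically independent `v τ` are algebraically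
independent (put `X = 1`). -/
def Stmt_GRD : Prop :=
  ∀ (K₀ F : Type u) [Field K₀] [Field F] [Algebra K₀ F] (σ ι : Type) [Fintype σ] [Fintype ι]
    (wt : σ → ℕ), (∀ τ, 0 < wt τ) → ∀ (v : σ → F) (E : ι → MvPolynomial σ K₀) (n : ι → ℕ),
    (∀ j, (E j).IsWeightedHomogeneous wt (n j)) → (∀ j, 0 < n j) →
    Indep K₀ (Set.range v) (Fintype.card ι + 1) →
    ∃ q : Ideal (MvPolynomial σ K₀), q.IsPrime ∧
      (∀ G : MvPolynomial σ K₀,
        MvPolynomial.aeval (fun τ => (C (v τ) * X ^ wt τ : F[X])) G = 0 → G ∈ q) ∧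
      (∀ j, E j ∈ q) ∧ ∃ τ, MvPolynomial.X τ ∉ q

/-- TRD. Adjoining new independent elements.
Proof: `F₁ = FractionRing (MvPolynomial τ F)`, `ξ t` the variables; a family which is
algebraically independent over `K₀` in `F` together with the `ξ t` is algebraically independent
(`AlgebraicIndependent.sumElim` or `algebraicIndependent_sum..`: the `ξ t` are independent over
`F`, a fortiori over the subalgebra generated by the family). -/
def Stmt_TRD : Prop :=
  ∀ (K₀ F : Type u) [Field K₀] [Field F] [Algebra K₀ F] (τ : Type) [Fintype τ] (S : Set F)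
    (c' : ℕ), Indep K₀ S c' →
    ∃ (F₁ : Type u) (_ : Field F₁) (_ : Algebra K₀ F₁) (_ : Algebra F F₁)
      (_ : IsScalarTower K₀ F F₁) (ξ : τ → F₁),
      Indep K₀ (algebraMap F F₁ '' S ∪ Set.range ξ) (c' + Fintype.card τ)

/-- VAD. A valuation ring with given centre.
Proof: `F'` = algebraic closure of `FractionRing F[X]`, `lam` the image of `X`; `A` = range of
`aeval (fun τ => v τ * lam ^ wt τ)`, a subring of `F'`, isomorphic to the quotient of the
polynomial ring by a prime contained in `q`; the image of `q` is a prime `q'` of `A` with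
preimage `q`.  `(LocalSubring.ofPrime A q').exists_le_valuationSubring` gives `O`: elements of `A`
outside `q'` are units of `O`, elements of `q'` are not (`LocalSubring` domination, as in the
proof of `Ideal.image_subset_nonunits_valuationSubring`). -/
def Stmt_VAD : Prop :=
  ∀ (K₀ F : Type u) [Field K₀] [Field F] [Algebra K₀ F] (σ : Type) [Fintype σ] (wt : σ → ℕ)
    (v : σ → F) (q : Ideal (MvPolynomial σ K₀)), q.IsPrime →
    (∀ G : MvPolynomial σ K₀,
      MvPolynomial.aeval (fun τ => (C (v τ) * X ^ wt τ : F[X])) G = 0 → G ∈ q) →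
    ∃ (F' : Type u) (_ : Field F') (_ : IsAlgClosed F') (_ : Algebra K₀ F') (_ : Algebra F F')
      (_ : IsScalarTower K₀ F F') (O : ValuationSubring F') (lam : F'), lam ≠ 0 ∧
      (∀ G : MvPolynomial σ K₀,
        MvPolynomial.aeval (fun τ => algebraMap F F' (v τ) * lam ^ wt τ) G ∈ O) ∧
      ∀ G : MvPolynomial σ K₀, G ∈ q ↔
        MvPolynomial.aeval (fun τ => algebraMap F F' (v τ) * lam ^ wt τ) G ∈ O.nonunits

/-! ### The equations -/

/-- The shape of the branch polynomials along a curve: `D b = D b (p) * (S b * β b ^ E b)`. -/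
def Shp {K₀ F : Type u} [Field K₀] [Field F] [Algebra K₀ F] {N s : ℕ}
    (D : Fin (s + 1) → MvPolynomial (Fin (N + 1)) K₀) (p : Fin (N + 1) → K₀)
    (E δ n : Fin (s + 1) → ℕ) (f : Fin (N + 1) → F[X]) (S β : Fin (s + 1) → F[X]) : Prop :=
  ∀ b, (S b).natDegree ≤ δ b ∧ (β b).natDegree ≤ n b ∧ (S b).coeff 0 = 1 ∧
    (β b).coeff 0 = 1 ∧ MvPolynomial.aeval f (MvPolynomial.map (algebraMap K₀ F) (D b)) =
      C (algebraMap K₀ F (MvPolynomial.eval p (D b))) * (S b * β b ^ E b)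

/-- The new unknowns: `κ b` coefficients for the `b`-th factor, `d₁, d₂` for the first one. -/
abbrev TT (s : ℕ) (κ : Fin (s + 1) → ℕ) (d₁ d₂ : ℕ) : Type :=
  (Σ b : Fin (s + 1), Fin (κ b)) ⊕ (Fin d₁ ⊕ Fin d₂)

/-- All unknowns: the coefficients of `X ^ (l + 1)` of the curve, of the `S b`, of the `β b`, and
the new ones. -/
abbrev SS (N r s : ℕ) (δ n κ : Fin (s + 1) → ℕ) (d₁ d₂ : ℕ) : Type :=
  (Fin (N + 1) × Fin (r + 1)) ⊕
    ((Σ b : Fin (s + 1), Fin (δ b)) ⊕ ((Σ b : Fin (s + 1), Fin (n b)) ⊕ TT s κ d₁ d₂))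

variable {N r s : ℕ} {δ n κ : Fin (s + 1) → ℕ} {d₁ d₂ : ℕ}

/-- The weights of the unknowns. -/
def wS : SS N r s δ n κ d₁ d₂ → ℕ
  | Sum.inl (_, l) => (l : ℕ) + 1
  | Sum.inr (Sum.inl ⟨_, l⟩) => (l : ℕ) + 1
  | Sum.inr (Sum.inr (Sum.inl ⟨_, l⟩)) => (l : ℕ) + 1
  | Sum.inr (Sum.inr (Sum.inr (Sum.inl ⟨_, l⟩))) => (l : ℕ) + 1
  | Sum.inr (Sum.inr (Sum.inr (Sum.inr (Sum.inl l)))) => (l : ℕ) + 1
  | Sum.inr (Sum.inr (Sum.inr (Sum.inr (Sum.inr l)))) => (l : ℕ) + 1

/-- The curve through `(1, 0, .., 0)` with coefficients `y`. -/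
noncomputable def crv {A : Type u} [CommRing A] (y : SS N r s δ n κ d₁ d₂ → A)
    (i : Fin (N + 1)) : A[X] :=
  MP501976.ser (if i = 0 then 1 else 0) fun l : Fin (r + 1) => y (Sum.inl (i, l))

/-- The polynomials `S b` with coefficients `y`. -/
noncomputable def cS {A : Type u} [CommRing A] (y : SS N r s δ n κ d₁ d₂ → A)
    (b : Fin (s + 1)) : A[X] :=
  MP501976.ser 1 fun l : Fin (δ b) => y (Sum.inr (Sum.inl ⟨b, l⟩))

/-- The polynomials `β b` with coefficients `y`. -/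
noncomputable def cB {A : Type u} [CommRing A] (y : SS N r s δ n κ d₁ d₂ → A)
    (b : Fin (s + 1)) : A[X] :=
  MP501976.ser 1 fun l : Fin (n b) => y (Sum.inr (Sum.inr (Sum.inl ⟨b, l⟩)))

/-- The factors of the wanted shape. -/
noncomputable def cG {A : Type u} [CommRing A] (y : SS N r s δ n κ d₁ d₂ → A)
    (b : Fin (s + 1)) : A[X] :=
  MP501976.ser 1 fun l : Fin (κ b) => y (Sum.inr (Sum.inr (Sum.inr (Sum.inl ⟨b, l⟩))))

/-- The first special factor. -/
noncomputable def cH₁ {A : Type u} [CommRing A] (y : SS N r s δ n κ d₁ d₂ → A) : A[X] :=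
  MP501976.ser 1 fun l : Fin d₁ => y (Sum.inr (Sum.inr (Sum.inr (Sum.inr (Sum.inl l)))))

/-- The second special factor. -/
noncomputable def cH₂ {A : Type u} [CommRing A] (y : SS N r s δ n κ d₁ d₂ → A) : A[X] :=
  MP501976.ser 1 fun l : Fin d₂ => y (Sum.inr (Sum.inr (Sum.inr (Sum.inr (Sum.inr l)))))

/-- The wanted shape of `S b`. -/
noncomputable def fac {A : Type u} [CommRing A] (E : Fin (s + 1) → ℕ) (μ : ℕ)
    (y : SS N r s δ n κ d₁ d₂ → A) (b : Fin (s + 1)) : A[X] :=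
  cG y b ^ E b * if b = 0 then (cH₁ y * cH₂ y ^ 2) ^ μ else 1

/-- The degree of `fac`. -/
def nn (κ E : Fin (s + 1) → ℕ) (μ d₁ d₂ : ℕ) (b : Fin (s + 1)) : ℕ :=
  E b * κ b + if b = 0 then μ * d₁ + 2 * (μ * d₂) else 0

/-- The equations: the coefficients of `X ^ (l + 1)`, `l < nn b`, in `S b - fac b`. -/
noncomputable def EQ (K₀ : Type u) [Field K₀] (N r : ℕ) (δ n κ E : Fin (s + 1) → ℕ)
    (μ d₁ d₂ : ℕ) (a : Σ b : Fin (s + 1), Fin (nn κ E μ d₁ d₂ b)) :
    MvPolynomial (SS N r s δ n κ d₁ d₂) K₀ :=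
  (cS (fun t => (MvPolynomial.X t : MvPolynomial (SS N r s δ n κ d₁ d₂) K₀)) a.1 -
    fac E μ (fun t => (MvPolynomial.X t : MvPolynomial (SS N r s δ n κ d₁ d₂) K₀))
      a.1).coeff ((a.2 : ℕ) + 1)

/-- EQH. The equations are homogeneous: `EQ ⟨b, l⟩` has weight `l + 1`.
Proof: call `P` in `(MvPolynomial σ K₀)[X]` isobaric if `P.coeff l` is weighted homogeneous of
weight `l` for all `l`.  `1`, differences, products, powers of isobaric polynomials are
isobaric; `ser 1 (X ..)` is (`MP501976.ser_coeff_zero`, `ser_coeff_succ`, `ser_natDegree_le`). -/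
def Stmt_EQH : Prop :=
  ∀ (K₀ : Type u) [Field K₀] (N r s : ℕ) (δ n κ E : Fin (s + 1) → ℕ) (μ d₁ d₂ : ℕ)
    (a : Σ b : Fin (s + 1), Fin (nn κ E μ d₁ d₂ b)),
    (EQ K₀ N r δ n κ E μ d₁ d₂ a).IsWeightedHomogeneous wS ((a.2 : ℕ) + 1)

/-- EQR. Reading the equations.
Proof: functoriality (`MP501976.ser_map`, `Polynomial.map` of products and powers) gives the
coefficients `1, .., nn b`; both sides have constant coefficient one and degree at most `nn b`
(`MP501976.ser_natDegree_le`). -/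
def Stmt_EQR : Prop :=
  ∀ (K₀ A : Type u) [Field K₀] [Field A] [Algebra K₀ A] (N r s : ℕ)
    (δ n κ E : Fin (s + 1) → ℕ) (μ d₁ d₂ : ℕ), (∀ b, δ b ≤ nn κ E μ d₁ d₂ b) →
    ∀ y : SS N r s δ n κ d₁ d₂ → A,
    (∀ a, MvPolynomial.aeval y (EQ K₀ N r δ n κ E μ d₁ d₂ a) = 0) →
    ∀ b, cS y b = fac E μ y b

/-- UNI. If the curve is constant, all unknowns vanish.
Proof: `crv y i` is constant, so `aeval (crv y) (D b) = C (D b (1, 0, .., 0))`
(`MP501976.aeval_const`); cancel: `cS y b * cB y b ^ E b = 1`, so `cS y b` and `cB y b` are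
units, hence constant polynomials (`isUnit_pow_iff`, `natDegree_eq_zero_of_isUnit`) and equal to
one; so `fac b = 1` and its factors are units; `MP501976.ser_eq_zero_of_natDegree`. -/
def Stmt_UNI : Prop :=
  ∀ (K₀ A : Type u) [Field K₀] [Field A] [Algebra K₀ A] (N r s : ℕ)
    (D : Fin (s + 1) → MvPolynomial (Fin (N + 1)) K₀) (δ n κ E : Fin (s + 1) → ℕ)
    (μ d₁ d₂ : ℕ), (∀ b, 0 < E b) → 0 < μ → (∀ b, MvPolynomial.eval (e1 K₀ N) (D b) ≠ 0) →
    ∀ y : SS N r s δ n κ d₁ d₂ → A,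
    (∀ b, MvPolynomial.aeval (crv y) (MvPolynomial.map (algebraMap K₀ A) (D b)) =
      C (algebraMap K₀ A (MvPolynomial.eval (e1 K₀ N) (D b))) * (cS y b * cB y b ^ E b)) →
    (∀ b, cS y b = fac E μ y b) → (∀ a, y (Sum.inl a) = 0) → ∀ t, y t = 0

/-- The conclusion on curves: a nontrivial curve of degree at most `r + 1` through `p`, on which
the `H j` vanish and the `D b` have the wanted shape. -/
def Good {K₀ : Type u} [Field K₀] {N c s : ℕ} (H : Fin c → MvPolynomial (Fin (N + 1)) K₀)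
    (p : Fin (N + 1) → K₀) (r : ℕ) (D : Fin (s + 1) → MvPolynomial (Fin (N + 1)) K₀)
    (E : Fin (s + 1) → ℕ) (μ d₁ d₂ : ℕ) : Prop :=
  ∃ (Ω : Type u) (_ : Field Ω) (_ : IsAlgClosed Ω) (_ : Algebra K₀ Ω)
    (f : Fin (N + 1) → Polynomial Ω), IsCurve H p (r + 1) f ∧ ¬ Triv p f ∧
    (∃ g h₁ h₂ : Polynomial Ω, h₁.coeff 0 = 1 ∧ h₂.coeff 0 = 1 ∧ h₁.natDegree ≤ d₁ ∧
      h₂.natDegree ≤ d₂ ∧ MvPolynomial.aeval f (MvPolynomial.map (algebraMap K₀ Ω) (D 0)) =
        C (algebraMap K₀ Ω (MvPolynomial.eval p (D 0))) * (g ^ E 0 * (h₁ * h₂ ^ 2) ^ μ)) ∧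
    ∀ b : Fin s, ∃ q : Polynomial Ω,
      MvPolynomial.aeval f (MvPolynomial.map (algebraMap K₀ Ω) (D b.succ)) =
        C (algebraMap K₀ Ω (MvPolynomial.eval p (D b.succ))) * q ^ E b.succ

/-- SCL. The scaled curve.
Proof: `crv V i = ((f i).map (algebraMap F F')).comp (C lam * X)`, by comparing coefficients
(`natDegree (f i) ≤ r + 1`, constant coefficient one or zero); likewise `cS V b` and `cB V b`.
`Polynomial.map` and composition are ring homomorphisms (`MP501976.aeval_map`); `lam ≠ 0`. -/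
def Stmt_SCL : Prop :=
  ∀ (K₀ F F' : Type u) [Field K₀] [Field F] [Field F'] [Algebra K₀ F] [Algebra K₀ F']
    [Algebra F F'] [IsScalarTower K₀ F F'] (N c r s : ℕ)
    (H : Fin c → MvPolynomial (Fin (N + 1)) K₀) (f : Fin (N + 1) → F[X]),
    IsCurve H (e1 K₀ N) (r + 1) f → ¬ Triv (e1 K₀ N) f → (f 0).coeff 1 = 0 →
    ∀ (D : Fin (s + 1) → MvPolynomial (Fin (N + 1)) K₀) (δ n κ E : Fin (s + 1) → ℕ)
      (d₁ d₂ : ℕ) (S β : Fin (s + 1) → F[X]), Shp D (e1 K₀ N) E δ n f S β →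
    ∀ v : SS N r s δ n κ d₁ d₂ → F, (∀ i l, v (Sum.inl (i, l)) = (f i).coeff ((l : ℕ) + 1)) →
    (∀ b l, v (Sum.inr (Sum.inl ⟨b, l⟩)) = (S b).coeff ((l : ℕ) + 1)) →
    (∀ b l, v (Sum.inr (Sum.inr (Sum.inl ⟨b, l⟩))) = (β b).coeff ((l : ℕ) + 1)) →
    ∀ (lam : F') (V : SS N r s δ n κ d₁ d₂ → F'), lam ≠ 0 →
    (∀ t, V t = algebraMap F F' (v t) * lam ^ wS t) →
    IsCurve H (e1 K₀ N) (r + 1) (crv V) ∧ ¬ Triv (e1 K₀ N) (crv V) ∧ (crv V 0).coeff 1 = 0 ∧
    ∀ b, MvPolynomial.aeval (crv V) (MvPolynomial.map (algebraMap K₀ F') (D b)) =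
      C (algebraMap K₀ F' (MvPolynomial.eval (e1 K₀ N) (D b))) * (cS V b * cB V b ^ E b)

/-- RED. Reduction modulo the maximal ideal of `O`.
Proof: the residue field is an algebra over `K₀` through `O`; `y t` is the residue of `V t`.
For `G` over `K₀` the value `aeval y G` is the residue of `aeval V G` (`ringHom_ext`), and the
residue of an element of `O` is zero if and only if it is a nonunit.  For the curves: let
`V' t = ⟨V t, _⟩` in `O`; `crv V`, `cS V`, `cB V` and `crv y`, `cS y`, `cB y` are the images of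
`crv V'`, `cS V'`, `cB V'` (`MP501976.ser_map`), the equations hold over `O` by injectivity of
`O[X] → F'[X]` (`MP501976.aeval_map`), and are mapped to the residue field. -/
def Stmt_RED : Prop :=
  ∀ (K₀ F' : Type u) [Field K₀] [Field F'] [Algebra K₀ F'] (O : ValuationSubring F'),
    (∀ a : K₀, algebraMap K₀ F' a ∈ O) → ∀ (N c r s : ℕ)
    (H : Fin c → MvPolynomial (Fin (N + 1)) K₀)
    (D : Fin (s + 1) → MvPolynomial (Fin (N + 1)) K₀) (δ n κ E : Fin (s + 1) → ℕ)
    (d₁ d₂ : ℕ) (V : SS N r s δ n κ d₁ d₂ → F'), (∀ t, V t ∈ O) →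
    (∀ j, MvPolynomial.aeval (crv V) (MvPolynomial.map (algebraMap K₀ F') (H j)) = 0) →
    (∀ b, MvPolynomial.aeval (crv V) (MvPolynomial.map (algebraMap K₀ F') (D b)) =
      C (algebraMap K₀ F' (MvPolynomial.eval (e1 K₀ N) (D b))) * (cS V b * cB V b ^ E b)) →
    ∃ (k₁ : Type u) (_ : Field k₁) (_ : Algebra K₀ k₁) (y : SS N r s δ n κ d₁ d₂ → k₁),
      (∀ G : MvPolynomial (SS N r s δ n κ d₁ d₂) K₀,
        MvPolynomial.aeval y G = 0 ↔ MvPolynomial.aeval V G ∈ O.nonunits) ∧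
      (∀ j, MvPolynomial.aeval (crv y) (MvPolynomial.map (algebraMap K₀ k₁) (H j)) = 0) ∧
      ∀ b, MvPolynomial.aeval (crv y) (MvPolynomial.map (algebraMap K₀ k₁) (D b)) =
        C (algebraMap K₀ k₁ (MvPolynomial.eval (e1 K₀ N) (D b))) * (cS y b * cB y b ^ E b)

/-- RES (uses EQR, UNI, UNS, SCL, RED). From the prime and the valuation ring to the good curve.
Proof: `V t = algebraMap (v t) * lam ^ wS t`, in `O` by hypothesis (`G = X t`); `K₀ ⊆ O`
(`G = C a`).  SCL: `crv V` is a nontrivial curve over `F'` with `(crv V 0).coeff 1 = 0`.  RED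
gives `k₁` and `y`.  As `EQ a ∈ q`, `aeval y (EQ a) = 0`; EQR: `cS y b = fac E μ y b`.  If
`crv y` were trivial, all `y (inl (i, l))`, `i ≠ 0`, would be zero, i.e. the coefficients of
`crv V i`, `i ≠ 0`, are nonunits; either all `y (inl _) = 0`, then UNI gives `y = 0`, i.e. all
`X t ∈ q`, contradiction; or some `y (inl (0, l)) ≠ 0`, contradiction to UNS for `crv V`.
Finally map everything to the algebraic closure of `k₁`: `g = cG y 0 * cB y 0`, `h₁ = cH₁ y`,
`h₂ = cH₂ y`, `q = cG y b * cB y b` for `b ≠ 0` (`MP501976.aeval_map`, `ser_natDegree_le`). -/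
def Stmt_RES : Prop :=
  ∀ (K₀ F : Type u) [Field K₀] [CharZero K₀] [Field F] [Algebra K₀ F] (N c : ℕ)
    (H : Fin c → MvPolynomial (Fin (N + 1)) K₀) (d : Fin c → ℕ),
    (∀ j, (H j).IsHomogeneous (d j)) → ∀ r : ℕ, NoCurves H (e1 K₀ N) r →
    ∀ f : Fin (N + 1) → F[X], IsCurve H (e1 K₀ N) (r + 1) f → ¬ Triv (e1 K₀ N) f →
    (f 0).coeff 1 = 0 →
    ∀ (s : ℕ) (D : Fin (s + 1) → MvPolynomial (Fin (N + 1)) K₀) (δ n κ E : Fin (s + 1) → ℕ)
      (μ d₁ d₂ : ℕ) (S β : Fin (s + 1) → F[X]), Shp D (e1 K₀ N) E δ n f S β →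
    (∀ b, δ b ≤ nn κ E μ d₁ d₂ b) → (∀ b, 0 < E b) → 0 < μ →
    (∀ b, MvPolynomial.eval (e1 K₀ N) (D b) ≠ 0) →
    ∀ v : SS N r s δ n κ d₁ d₂ → F, (∀ i l, v (Sum.inl (i, l)) = (f i).coeff ((l : ℕ) + 1)) →
    (∀ b l, v (Sum.inr (Sum.inl ⟨b, l⟩)) = (S b).coeff ((l : ℕ) + 1)) →
    (∀ b l, v (Sum.inr (Sum.inr (Sum.inl ⟨b, l⟩))) = (β b).coeff ((l : ℕ) + 1)) →
    ∀ q : Ideal (MvPolynomial (SS N r s δ n κ d₁ d₂) K₀), q.IsPrime →
    (∀ a, EQ K₀ N r δ n κ E μ d₁ d₂ a ∈ q) → (∃ t, MvPolynomial.X t ∉ q) →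
    ∀ (F' : Type u) [Field F'] [IsAlgClosed F'] [Algebra K₀ F'] [Algebra F F']
      [IsScalarTower K₀ F F'] (O : ValuationSubring F') (lam : F'), lam ≠ 0 →
    (∀ G : MvPolynomial (SS N r s δ n κ d₁ d₂) K₀,
      MvPolynomial.aeval (fun t => algebraMap F F' (v t) * lam ^ wS t) G ∈ O) →
    (∀ G : MvPolynomial (SS N r s δ n κ d₁ d₂) K₀, G ∈ q ↔
      MvPolynomial.aeval (fun t => algebraMap F F' (v t) * lam ^ wS t) G ∈ O.nonunits) →
    Good H (e1 K₀ N) r D E μ d₁ d₂

/-- COR (uses MOB, SHP, SLI, GRD, TRD, VAD, EQH, RES). The core theorem at `(1, 0, .., 0)`.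
Proof: SLI gives `a`; `f' i = mob a (r + 1) (f i)` has `c'` independent coefficients;
`S' b = mob a (δ b) (S b)`, `β' b = mob a (n b) (β b)` (SHP, MOB).  TRD for `coefs f'`,
`τ = TT ..`: `F₁`, `ξ`; let `v` be the images of the coefficients of `f', S', β'` and the `ξ t`.
The set `algebraMap '' coefs f' ∪ range ξ` is contained in `range v ∪ {0, 1}`, and algebraically
independent elements are not `0` or `1`; so `Indep K₀ (range v) (c' + card TT)`, and the number
of equations is `∑ nn b < c' + card TT` by hypothesis (take a subfamily).  GRD with EQH: `q`;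
VAD; RES for `f', S', β'` mapped to `F₁`. -/
def Stmt_COR : Prop :=
  ∀ (K₀ : Type u) [Field K₀] [CharZero K₀] (N c : ℕ)
    (H : Fin c → MvPolynomial (Fin (N + 1)) K₀) (d : Fin c → ℕ),
    (∀ j, (H j).IsHomogeneous (d j)) → ∀ r : ℕ, NoCurves H (e1 K₀ N) r →
    ∀ (F : Type u) [Field F] [Algebra K₀ F] (f : Fin (N + 1) → F[X]),
    IsCurve H (e1 K₀ N) (r + 1) f → ¬ Triv (e1 K₀ N) f → ∀ c' : ℕ,
    Indep K₀ (coefs f) (c' + 1) →
    ∀ (s : ℕ) (D : Fin (s + 1) → MvPolynomial (Fin (N + 1)) K₀) (p : Fin (s + 1) → ℕ),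
    (∀ b, (D b).IsHomogeneous (p b)) → (∀ b, MvPolynomial.eval (e1 K₀ N) (D b) ≠ 0) →
    ∀ (δ n κ E : Fin (s + 1) → ℕ) (μ d₁ d₂ : ℕ), (∀ b, 0 < E b) → 0 < μ →
    (∀ b, δ b ≤ nn κ E μ d₁ d₂ b) → (∀ b, p b * (r + 1) = δ b + E b * n b) →
    ∀ S β : Fin (s + 1) → F[X], Shp D (e1 K₀ N) E δ n f S β →
    ∑ b, nn κ E μ d₁ d₂ b + 1 ≤ c' + (∑ b, κ b + d₁ + d₂) →
    Good H (e1 K₀ N) r D E μ d₁ d₂

/-- TRL (uses COR, IDP). The same for an arbitrary point `x` with `x 0 ≠ 0`.
Proof: linear change of coordinates `T 0 = C (x 0) * X 0`, `T i = X i + C (x i) * X 0` (`i ≠ 0`),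
`T (1, 0, .., 0) = x`; `H' j = bind₁ T (H j)`, `D' b = bind₁ T (D b)` (homogeneous of the same
degree).  Curves for `H` through `x` correspond to curves for `H'` through `(1, 0, .., 0)`:
`f 0 = C (x 0) * g 0`, `f i = g i + C (x i) * g 0`; trivial curves correspond; the coefficients
of `g` are `K₀`-linear combinations of those of `f`, and conversely, so `Indep` is preserved
(IDP, first part). -/
def Stmt_TRL : Prop :=
  ∀ (K₀ : Type u) [Field K₀] [CharZero K₀] (N c : ℕ)
    (H : Fin c → MvPolynomial (Fin (N + 1)) K₀) (d : Fin c → ℕ),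
    (∀ j, (H j).IsHomogeneous (d j)) → ∀ x : Fin (N + 1) → K₀, x 0 ≠ 0 →
    ∀ r : ℕ, NoCurves H x r →
    ∀ (F : Type u) [Field F] [Algebra K₀ F] (f : Fin (N + 1) → F[X]),
    IsCurve H x (r + 1) f → ¬ Triv x f → ∀ c' : ℕ, Indep K₀ (coefs f) (c' + 1) →
    ∀ (s : ℕ) (D : Fin (s + 1) → MvPolynomial (Fin (N + 1)) K₀) (p : Fin (s + 1) → ℕ),
    (∀ b, (D b).IsHomogeneous (p b)) → (∀ b, MvPolynomial.eval x (D b) ≠ 0) →
    ∀ (δ n κ E : Fin (s + 1) → ℕ) (μ d₁ d₂ : ℕ), (∀ b, 0 < E b) → 0 < μ →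
    (∀ b, δ b ≤ nn κ E μ d₁ d₂ b) → (∀ b, p b * (r + 1) = δ b + E b * n b) →
    ∀ S β : Fin (s + 1) → F[X], Shp D x E δ n f S β →
    ∑ b, nn κ E μ d₁ d₂ b + 1 ≤ c' + (∑ b, κ b + d₁ + d₂) →
    Good H x r D E μ d₁ d₂

/-! ### The elliptic curves -/

/-- PA2. From a good curve through the generic point to an elliptic curve over a finitely
generated field.
Proof: as `MP501976.kummer_param` (file `Pool/Agent/Work/MP_501976_ag_helper95/Main.lean`) after
its line `obtain ⟨f, ..⟩ := exists_good_curve ..`, with the curve given over `Ω`; compare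
`IX1.p_PAR` (file `Pool/Agent/Work/MP_501976_ix/B_PAR.lean`) for the field `Ω` over `L`. -/
def Stmt_PA2 : Prop :=
  ∀ (L : Type u) [Field L] [Algebra ℂ L] (k : Type v) [Field k] [Algebra ℂ k] [Algebra k L]
    [IsScalarTower ℂ k L] [Algebra.EssFiniteType ℂ k] (N c s r : ℕ)
    (G : Fin c → MvPolynomial (Fin N) k) (x : Fin N → L),
    RingHom.ker (MvPolynomial.aeval x : MvPolynomial (Fin N) k →ₐ[k] L) ∈
      (Ideal.span (Set.range G)).minimalPrimes →
    ∀ (D : Fin (s + 1) → MvPolynomial (Fin N) k), (∀ b, MvPolynomial.aeval x (D b) ≠ 0) →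
    ∀ (e : Fin (s + 1) → ℕ), (∀ b, 0 < e b) → ∀ (w : Fin r → L) (q : Fin r → ℕ),
    (∀ a, 0 < q a) → ∀ (n : Fin r → Fin (s + 1) → ℕ),
    (∀ a, w a ^ q a = ∏ b, MvPolynomial.aeval x (D b) ^ n a b) → (∀ a b, q a ∣ e b * n a b) →
    IntermediateField.adjoin k (Set.range x ∪ Set.range w) = ⊤ →
    ∀ (o μ d₁ d₂ : ℕ), MP501976.EllipticType o d₁ d₂ → e 0 = o * μ →
    ∀ (Ω : Type u) [Field Ω] [IsAlgClosed Ω] [Algebra L Ω] (f : Fin N → Polynomial Ω),
    (∀ i, (f i).coeff 0 = algebraMap L Ω (x i)) →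
    (∀ j, MvPolynomial.aeval f
      (MvPolynomial.map ((algebraMap L Ω).comp (algebraMap k L)) (G j)) = 0) →
    (∃ g h₁ h₂ : Polynomial Ω, h₁.coeff 0 = 1 ∧ h₂.coeff 0 = 1 ∧ h₁.natDegree ≤ d₁ ∧
      h₂.natDegree ≤ d₂ ∧
      MvPolynomial.aeval f (MvPolynomial.map ((algebraMap L Ω).comp (algebraMap k L)) (D 0)) =
        C (algebraMap L Ω (MvPolynomial.aeval x (D 0))) * (g ^ e 0 * (h₁ * h₂ ^ 2) ^ μ)) →
    (∀ b : Fin s, ∃ Q : Polynomial Ω,
      MvPolynomial.aeval f
        (MvPolynomial.map ((algebraMap L Ω).comp (algebraMap k L)) (D b.succ)) =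
        C (algebraMap L Ω (MvPolynomial.aeval x (D b.succ))) * Q ^ e b.succ) →
    ∃ (K : Type u) (_ : Field K) (_ : Algebra ℂ K) (_ : Algebra.EssFiniteType ℂ K)
      (E : WeierstrassCurve.Affine K) (_ : E.IsElliptic) (φ : L →+* E.FunctionField)
      (T : E.FunctionField) (f' : Fin N → Polynomial K) (j : K →+* Ω),
      (∀ z : ℂ, φ (algebraMap ℂ L z) = algebraMap K E.FunctionField (algebraMap ℂ K z)) ∧
        Transcendental K T ∧ (∀ i, φ (x i) = Polynomial.aeval T (f' i)) ∧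
        ∀ i, (f' i).map j = f i

/-- FIN (uses TRL, PA2): the theorem.
Proof: numerical data `o, μ, n₀, d₁, d₂` from the type as at the beginning of
`MP501976.kummer_param` (`e 0 = o * μ`, `0 < μ`, `e 0 * n₀ + μ * d₁ + 2 * (μ * d₂) = e 0 * m 0`,
`n₀ + d₁ + d₂ = m 0 + 2`); `κ = Function.update m 0 n₀`, so `nn κ e μ d₁ d₂ b = e b * m b` and
`∑ κ b + d₁ + d₂ = ∑ m b + 2`; `c' = c'' + 1` since `(e 0 - 1) * m 0 > 0`.  Normalise: `σ` the
constant coefficient of `β b`, `β b` is replaced by `C σ⁻¹ * β b` and `S b` by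
`C (σ ^ e b / D b (x)) * S b` (`S b (0) * σ ^ e b = D b (x) ≠ 0`).  TRL for `K₀ = L`,
`H j = map (algebraMap k L) (G j)`, `D b` likewise (`eval x (map ..) = aeval x ..`,
`MvPolynomial.eval_map`, `aeval_def`), then PA2.  If the image of `L₀` is contained in `K`, all
`φ (x i / x 0)` are algebraic over `K` (as in `MP501976.kummer_cones`); by `IX1.p_NCO` with
`m = 1` (and `(f' 0).coeff 0 ≠ 0`) `f' i = C b * f' 0`; mapping to `Ω` and comparing constant
coefficients, `Triv x f`: contradiction. -/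
def Stmt_FIN : Prop :=
  ∀ (k : Type v) [Field k] [Algebra ℂ k] [Algebra.EssFiniteType ℂ k]
    (L : Type u) [Field L] [Algebra ℂ L] [Algebra k L] [IsScalarTower ℂ k L]
    (N c : ℕ) (G : Fin c → MvPolynomial (Fin (N + 1)) k) (d : Fin c → ℕ),
    (∀ j, (G j).IsHomogeneous (d j)) → ∀ x : Fin (N + 1) → L, x 0 ≠ 0 →
    RingHom.ker (MvPolynomial.aeval x : MvPolynomial (Fin (N + 1)) k →ₐ[k] L) ∈
      (Ideal.span (Set.range G)).minimalPrimes →
    ∀ r : ℕ, NoCurves (fun j => MvPolynomial.map (algebraMap k L) (G j)) x r →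
    ∀ (F : Type u) [Field F] [Algebra L F] (f : Fin (N + 1) → F[X]),
    IsCurve (fun j => MvPolynomial.map (algebraMap k L) (G j)) x (r + 1) f → ¬ Triv x f →
    ∀ c' : ℕ, Indep L (coefs f) c' →
    ∀ (s : ℕ) (D : Fin (s + 1) → MvPolynomial (Fin (N + 1)) k) (p : Fin (s + 1) → ℕ),
    (∀ b, (D b).IsHomogeneous (p b)) → (∀ b, MvPolynomial.aeval x (D b) ≠ 0) →
    ∀ (e m δ n : Fin (s + 1) → ℕ), (∀ b, 0 < e b) → (∀ b, δ b ≤ e b * m b) →
    (∀ b, p b * (r + 1) = δ b + e b * n b) →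
    ∀ S β : Fin (s + 1) → F[X], (∀ b, (S b).natDegree ≤ δ b) → (∀ b, (β b).natDegree ≤ n b) →
    (∀ b, MvPolynomial.aeval f (MvPolynomial.map (algebraMap L F)
      (MvPolynomial.map (algebraMap k L) (D b))) = S b * β b ^ e b) →
    ∀ (t : ℕ) (w : Fin t → L) (q : Fin t → ℕ), (∀ a, 0 < q a) →
    ∀ (ε : Fin t → Fin (s + 1) → ℕ),
    (∀ a, w a ^ q a = ∏ b, MvPolynomial.aeval x (D b) ^ ε a b) → (∀ a b, q a ∣ e b * ε a b) →
    IntermediateField.adjoin k (Set.range x ∪ Set.range w) = ⊤ →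
    ((3 ∣ e 0 ∧ 1 ≤ m 0) ∨ (4 ∣ e 0 ∧ 1 ≤ m 0) ∨ (2 ∣ e 0 ∧ 2 ≤ m 0)) →
    ∑ b, (e b - 1) * m b ≤ c' →
    ∀ (L₀ : Type u) [Field L₀] [Algebra ℂ L₀] [Algebra L₀ L] [IsScalarTower ℂ L₀ L],
    (∀ i, IsAlgebraic L₀ (x i / x 0)) → MP501976.SweptOutByEllipticCurves L₀

end GC1
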