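import Mathlib
import Pool.Agent.Work.MP_501976_gc.Interface

universe u v

open Polynomial

namespace GC1

/-- Normalisation of the factors. -/
theorem FIN_norm {F : Type u} [Field F] (S β P : F[X]) (e δ n : ℕ) (D : F) (hD : D ≠ 0)
    (hS : S.natDegree ≤ δ) (hβ : β.natDegree ≤ n) (hP : P = S * β ^ e) (hP0 : P.coeff 0 = D)
    (he : 0 < e) :
    (C (β.coeff 0 ^ e / D) * S).natDegree ≤ δ ∧ (C (β.coeff 0)⁻¹ * β).natDegree ≤ n ∧
      (C (β.coeff 0 ^ e / D) * S).coeff 0 = 1 ∧ (C (β.coeff 0)⁻¹ * β).coeff 0 = 1 ∧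
      P = C D * ((C (β.coeff 0 ^ e / D) * S) * (C (β.coeff 0)⁻¹ * β) ^ e) := by
  have h0 : S.coeff 0 * β.coeff 0 ^ e = D := by
    rw [← hP0, hP, mul_coeff_zero]
    congr 1
    simp only [coeff_zero_eq_eval_zero, eval_pow]
  have hβ0 : β.coeff 0 ≠ 0 := by
    intro h
    rw [h, zero_pow he.ne', mul_zero] at h0
    exact hD h0.symm
  refine ⟨(natDegree_C_mul_le _ _).trans hS, (natDegree_C_mul_le _ _).trans hβ, ?_, ?_, ?_⟩
  · rw [coeff_C_mul]
    field_simp
    rw [mul_comm]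
    exact h0
  · rw [coeff_C_mul]
    exact inv_mul_cancel₀ hβ0
  · rw [hP, mul_pow, ← C_pow]
    have h1 : D * (β.coeff 0 ^ e / D) * (β.coeff 0)⁻¹ ^ e = 1 := by
      rw [inv_pow]
      field_simp
    have h2 : C (D * (β.coeff 0 ^ e / D) * (β.coeff 0)⁻¹ ^ e) = (1 : F[X]) := by
      rw [h1, C_1]
    rw [C_mul, C_mul] at h2
    linear_combination (-(S * β ^ e)) * h2

theorem FIN_eval {k : Type v} {L : Type u} [Field k] [Field L] [Algebra k L] {N : ℕ}
    (x : Fin N → L) (A : MvPolynomial (Fin N) k) :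
    MvPolynomial.eval x (MvPolynomial.map (algebraMap k L) A) = MvPolynomial.aeval x A := by
  rw [MvPolynomial.eval_map, MvPolynomial.aeval_def]

theorem FIN_num (s : ℕ) (e m : Fin (s + 1) → ℕ) (he : ∀ b, 0 < e b)
    (htype : (3 ∣ e 0 ∧ 1 ≤ m 0) ∨ (4 ∣ e 0 ∧ 1 ≤ m 0) ∨ (2 ∣ e 0 ∧ 2 ≤ m 0)) (c' : ℕ)
    (hc : ∑ b, (e b - 1) * m b ≤ c') :
    ∃ (o μ d₁ d₂ : ℕ) (κ : Fin (s + 1) → ℕ) (c'' : ℕ), MP501976.EllipticType o d₁ d₂ ∧
      e 0 = o * μ ∧ 0 < μ ∧ (∀ b, nn κ e μ d₁ d₂ b = e b * m b) ∧ c' = c'' + 1 ∧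
      ∑ b, nn κ e μ d₁ d₂ b + 1 ≤ c'' + (∑ b, κ b + d₁ + d₂) := by
  obtain ⟨o, μ, n₀, d₁, d₂, htype', hoμ, hμ, hDn, hnn⟩ : ∃ o μ n₀ d₁ d₂ : ℕ,
      MP501976.EllipticType o d₁ d₂ ∧ e 0 = o * μ ∧ 0 < μ ∧
      e 0 * n₀ + μ * d₁ + 2 * (μ * d₂) = e 0 * m 0 ∧ n₀ + d₁ + d₂ = m 0 + 2 := by
    rcases htype with ⟨⟨μ, hμ⟩, h⟩ | ⟨⟨μ, hμ⟩, h⟩ | ⟨⟨μ, hμ⟩, h⟩
    · obtain ⟨n₀, hn₀⟩ : ∃ n₀, m 0 = n₀ + 1 := ⟨m 0 - 1, by omega⟩
      refine ⟨3, μ, n₀, 3, 0, Or.inr (Or.inl ⟨rfl, rfl, rfl⟩), hμ, ?_, ?_, by omega⟩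
      · have := he 0; omega
      · rw [hμ, hn₀]; ring
    · obtain ⟨n₀, hn₀⟩ : ∃ n₀, m 0 = n₀ + 1 := ⟨m 0 - 1, by omega⟩
      refine ⟨4, μ, n₀, 2, 1, Or.inr (Or.inr ⟨rfl, rfl, rfl⟩), hμ, ?_, ?_, by omega⟩
      · have := he 0; omega
      · rw [hμ, hn₀]; ring
    · obtain ⟨n₀, hn₀⟩ : ∃ n₀, m 0 = n₀ + 2 := ⟨m 0 - 2, by omega⟩
      refine ⟨2, μ, n₀, 4, 0, Or.inl ⟨rfl, rfl, rfl⟩, hμ, ?_, ?_, by omega⟩
      · have := he 0; omega
      · rw [hμ, hn₀]; ring
  have hsum : ∑ b, e b * m b = ∑ b, (e b - 1) * m b + ∑ b, m b := by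
    rw [← Finset.sum_add_distrib]
    refine Finset.sum_congr rfl fun b _ => ?_
    obtain ⟨a, ha⟩ : ∃ a, e b = a + 1 := ⟨e b - 1, by have := he b; omega⟩
    rw [ha, Nat.add_sub_cancel]
    ring
  have hpos : 0 < c' := by
    refine lt_of_lt_of_le ?_ hc
    refine lt_of_lt_of_le ?_ (Finset.single_le_sum
      (f := fun b => (e b - 1) * m b) (fun b _ => Nat.zero_le _) (Finset.mem_univ 0))
    have he0 := he 0
    have h2 : 2 ≤ e 0 := by omega
    exact Nat.mul_pos (by omega) (by omega)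
  obtain ⟨c'', hc''⟩ : ∃ c'', c' = c'' + 1 := ⟨c' - 1, by omega⟩
  have hκ0 : (Function.update m 0 n₀) 0 = n₀ := Function.update_self _ _ _
  have hκ1 : ∀ b, b ≠ 0 → (Function.update m 0 n₀) b = m b := fun b hb =>
    Function.update_of_ne hb _ _
  have hnnb : ∀ b, nn (Function.update m 0 n₀) e μ d₁ d₂ b = e b * m b := by
    intro b
    unfold nn
    by_cases hb : b = 0
    · subst hb
      rw [if_pos rfl, hκ0, ← add_assoc]
      exact hDn
    · rw [if_neg hb, hκ1 b hb, add_zero]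
  refine ⟨o, μ, d₁, d₂, Function.update m 0 n₀, c'', htype', hoμ, hμ, hnnb, hc'', ?_⟩
  rw [Finset.sum_congr rfl fun b _ => hnnb b, hsum]
  have h1 : ∑ b, (Function.update m 0 n₀) b = n₀ + ∑ i : Fin s, m i.succ := by
    rw [Fin.sum_univ_succ, hκ0]
    congr 1
  have h2 : ∑ b, m b = m 0 + ∑ i : Fin s, m i.succ := Fin.sum_univ_succ _
  omega

theorem p_FIN (hTRL : Stmt_TRL.{u}) (hPA2 : Stmt_PA2.{u, v}) : Stmt_FIN.{u, v} := by
  intro k _ _ _ L _ _ _ _ N c G d hG x hx0 hmin r hno F _ _ f hf hft c' hind s D p hD hDx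
    e m δ n he hδ hdeg S β hS hβ hSβ t w q hq ε hw hε hgen htype hc L₀ _ _ _ _ hL₀
  have hchL : CharZero L := charZero_of_injective_algebraMap (algebraMap ℂ L).injective
  obtain ⟨o, μ, d₁, d₂, κ, c'', hell, hoμ, hμ, hnn, hc'', hsum⟩ := FIN_num s e m he htype c' hc
  rw [hc''] at hind
  have hDx' : ∀ b, MvPolynomial.eval x (MvPolynomial.map (algebraMap k L) (D b)) ≠ 0 := by
    intro b
    rw [FIN_eval]
    exact hDx b
  have hFD : ∀ b, algebraMap L F (MvPolynomial.eval x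
      (MvPolynomial.map (algebraMap k L) (D b))) ≠ 0 := fun b =>
    (map_ne_zero_iff _ (algebraMap L F).injective).mpr (hDx' b)
  have hshp : Shp (fun b => MvPolynomial.map (algebraMap k L) (D b)) x e δ n f
      (fun b => C ((β b).coeff 0 ^ e b / algebraMap L F (MvPolynomial.eval x
        (MvPolynomial.map (algebraMap k L) (D b)))) * S b)
      (fun b => C ((β b).coeff 0)⁻¹ * β b) := by
    intro b
    refine FIN_norm (S b) (β b) _ (e b) (δ b) (n b) _ (hFD b) (hS b) (hβ b) (hSβ b) ?_ (he b)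
    rw [MP501976.aeval_eval_zero]
    have h2 : (fun i => (f i).coeff 0) = fun i => algebraMap L F (x i) := funext hf.2.1
    rw [h2, MvPolynomial.eval_map]
    change _ = algebraMap L F (MvPolynomial.eval₂ (RingHom.id L) x
      (MvPolynomial.map (algebraMap k L) (D b)))
    rw [MvPolynomial.eval₂_comp_left, RingHom.comp_id]
    rfl
  have hgood := hTRL L N c (fun j => MvPolynomial.map (algebraMap k L) (G j)) d
    (fun j => (hG j).map _) x hx0 r hno F f hf hft c'' hind s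
    (fun b => MvPolynomial.map (algebraMap k L) (D b)) p (fun b => (hD b).map _) hDx' δ n κ e
    μ d₁ d₂ he hμ (fun b => by rw [hnn]; exact hδ b) hdeg _ _ hshp hsum
  obtain ⟨Ω, i1, i2, i3, f', hf', hft', ⟨g, h₁, h₂, a1, a2, a3, a4, a5⟩, hQ⟩ := hgood
  have hmap : ∀ A : MvPolynomial (Fin (N + 1)) k,
      MvPolynomial.map (algebraMap L Ω) (MvPolynomial.map (algebraMap k L) A) =
        MvPolynomial.map ((algebraMap L Ω).comp (algebraMap k L)) A := fun A =>
    MvPolynomial.map_map _ _ _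
  obtain ⟨K, j1, j2, j3, E, hE, φ, T, f'', j, hφ, hT, hφx, hj⟩ :=
    hPA2 L k (N + 1) c s t G x hmin D hDx e he w q hq ε hw hε hgen o μ d₁ d₂ hell hoμ Ω f'
      hf'.2.1 (fun a => by
        rw [← hmap]
        exact hf'.2.2 a)
      ⟨g, h₁, h₂, a1, a2, a3, a4, by
        rw [← hmap, ← FIN_eval]
        exact a5⟩
      (fun b => by
        obtain ⟨Q, hQ⟩ := hQ b
        refine ⟨Q, ?_⟩
        rw [← hmap, ← FIN_eval]
        exact hQ)
  refine ⟨K, j1, j2, j3, E, hE, φ.comp (algebraMap L₀ L), ?_, ?_⟩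
  · intro z
    rw [RingHom.comp_apply, ← IsScalarTower.algebraMap_apply ℂ L₀ L]
    exact hφ z
  · by_contra hcon
    push Not at hcon
    have hKE : Function.Injective (algebraMap K E.FunctionField) :=
      (algebraMap K E.FunctionField).injective
    choose σ hσ using hcon
    let σ' : L₀ →+* K :=
      { toFun := σ
        map_one' := hKE (by rw [hσ, map_one, map_one])
        map_mul' := fun a b => hKE (by rw [hσ, map_mul, map_mul, hσ, hσ])
        map_zero' := hKE (by rw [hσ, map_zero, map_zero])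
        map_add' := fun a b => hKE (by rw [hσ, map_add, map_add, hσ, hσ]) }
    have hcomp : (algebraMap K E.FunctionField).comp σ' = φ.comp (algebraMap L₀ L) := by
      ext a
      exact hσ a
    have halg : ∀ i, IsAlgebraic K (φ (x i / x 0)) := fun i =>
      (hL₀ i).ringHom_of_comp_eq σ' φ σ'.injective hcomp
    let K' : IntermediateField K E.FunctionField := algebraicClosure K E.FunctionField
    have hK'alg : Algebra.IsAlgebraic K K' := algebraicClosure.isAlgebraic K E.FunctionField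
    have hT' : Transcendental K' T := fun h => hT (h.restrictScalars K)
    have hKK' : Function.Injective (algebraMap K K') := (algebraMap K K').injective
    let b : Fin (N + 1) → K' := fun i =>
      ⟨φ (x i / x 0), mem_algebraicClosure_iff.mpr (halg i)⟩
    have hrel : ∀ i, (f'' i).map (algebraMap K K') =
        C (b i) * (f'' 0).map (algebraMap K K') := by
      intro i
      have haev : ∀ P : K[X], Polynomial.aeval T (P.map (algebraMap K K')) =
          Polynomial.aeval T P := fun P => Polynomial.aeval_map_algebraMap K' T P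
      have e1 : algebraMap K' E.FunctionField (b i) * Polynomial.aeval T (f'' 0) =
          Polynomial.aeval T (f'' i) := by
        rw [← hφx, ← hφx]
        change φ (x i / x 0) * φ (x 0) = _
        rw [← map_mul, div_mul_cancel₀ _ hx0]
      have e3 : Polynomial.aeval T ((f'' i).map (algebraMap K K') -
          C (b i) * (f'' 0).map (algebraMap K K')) = 0 := by
        rw [map_sub, map_mul, aeval_C, haev, haev, e1, sub_self]
      exact sub_eq_zero.mp ((transcendental_iff.mp hT') _ e3)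
    have hj0 : ∀ i, j ((f'' i).coeff 0) = algebraMap L Ω (x i) := by
      intro i
      rw [← coeff_map, hj]
      exact hf'.2.1 i
    have hj0' : (f'' 0).coeff 0 ≠ 0 := by
      intro h
      have := hj0 0
      rw [h, map_zero] at this
      exact hx0 ((map_eq_zero_iff _ (algebraMap L Ω).injective).mp this.symm)
    have hb : ∀ i, algebraMap K K' ((f'' i).coeff 0 / (f'' 0).coeff 0) = b i := by
      intro i
      have h1 := congrArg (fun P => P.coeff 0) (hrel i)
      simp only [coeff_map, coeff_C_mul] at h1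
      rw [map_div₀, h1]
      exact mul_div_cancel_right₀ _ ((map_ne_zero_iff _ hKK').mpr hj0')
    have hf'' : ∀ i, f'' i = C ((f'' i).coeff 0 / (f'' 0).coeff 0) * f'' 0 := by
      intro i
      apply Polynomial.map_injective _ hKK'
      rw [Polynomial.map_mul, map_C, hb]
      exact hrel i
    apply hft'
    intro i
    have h1 : f' i = C (j ((f'' i).coeff 0 / (f'' 0).coeff 0)) * f' 0 := by
      rw [← hj i, ← hj 0, ← map_C, ← Polynomial.map_mul]
      exact congrArg _ (hf'' i)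
    have hne : algebraMap L Ω (x 0) ≠ 0 :=
      (map_ne_zero_iff _ (algebraMap L Ω).injective).mpr hx0
    rw [h1, map_div₀, hj0, hj0, ← mul_assoc, ← C_mul]
    congr 2
    field_simp

end GC1
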