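import Pool.Agent.Work.MP_501976_gc.Interface

set_option autoImplicit false

/-! # Block GR1: the graded lemma -/

universe u

open Polynomial

namespace GC1

theorem GR1_comp {K : Type u} [Field K] {σ : Type} (wt : σ → ℕ) (E : MvPolynomial σ K) (n N : ℕ)
    (hE : E.IsWeightedHomogeneous wt n) (g : MvPolynomial σ K) :
    ∃ g' : MvPolynomial σ K, g'.IsWeightedHomogeneous wt (N - n) ∧
      MvPolynomial.weightedHomogeneousComponent wt N (g * E) = g' * E := by
  induction g using MvPolynomial.induction_on' with
  | monomial e a =>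
    have h := (MvPolynomial.isWeightedHomogeneous_monomial wt e a rfl).mul hE
    by_cases hN : Finsupp.weight wt e + n = N
    · refine ⟨MvPolynomial.monomial e a, MvPolynomial.isWeightedHomogeneous_monomial wt e a (by omega),
        ?_⟩
      rw [hN] at h
      exact h.weightedHomogeneousComponent_same
    · refine ⟨0, MvPolynomial.isWeightedHomogeneous_zero K wt _, ?_⟩
      rw [zero_mul]
      exact h.weightedHomogeneousComponent_ne _ (by omega)
  | add p q hp hq =>
    obtain ⟨p', hp1, hp2⟩ := hp
    obtain ⟨q', hq1, hq2⟩ := hq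
    exact ⟨p' + q', hp1.add hq1, by rw [add_mul, map_add, hp2, hq2, add_mul]⟩

/-- Block GR1. -/
theorem p_GR1 : Stmt_GR1.{u} := by
  classical
  intro K _ σ ι _ _ wt hwt P hP E n hE hn hrad
  -- a common exponent
  have hM : ∃ M : ℕ, 0 < M ∧ ∀ τ, (MvPolynomial.X τ : MvPolynomial σ K) ^ M
      ∈ P ⊔ Ideal.span (Set.range E) := by
    choose m hm using hrad
    refine ⟨∑ τ, m τ + 1, Nat.succ_pos _, fun τ => ?_⟩
    have h1 : m τ ≤ ∑ τ, m τ + 1 :=
      (Finset.single_le_sum (f := m) (fun i _ => Nat.zero_le _) (Finset.mem_univ τ)).trans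
        (Nat.le_succ _)
    obtain ⟨k, hk⟩ := Nat.exists_eq_add_of_le h1
    rw [hk, pow_add]
    exact Ideal.mul_mem_right _ _ (hm τ)
  obtain ⟨M, hM0, hM⟩ := hM
  set A := Algebra.adjoin K (Set.range fun j => Ideal.Quotient.mk P (E j)) with hA
  set gen : (σ → Fin M) → MvPolynomial σ K ⧸ P := fun f =>
    Ideal.Quotient.mk P (MvPolynomial.monomial (Finsupp.equivFunOnFinite.symm fun τ => (f τ : ℕ)) 1)
    with hgen
  set W : Submodule A (MvPolynomial σ K ⧸ P) := Submodule.span A (Set.range gen) with hW
  have hsc : ∀ (e : σ →₀ ℕ) (a : K), Ideal.Quotient.mk P (MvPolynomial.monomial e 1) ∈ W →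
      Ideal.Quotient.mk P (MvPolynomial.monomial e a) ∈ W := by
    intro e a h
    have h1 : Ideal.Quotient.mk P (MvPolynomial.monomial e a) = (algebraMap K A a) •
        Ideal.Quotient.mk P (MvPolynomial.monomial e 1) := by
      rw [Subalgebra.smul_def, smul_eq_mul]
      have h2 : ((algebraMap K A a : A) : MvPolynomial σ K ⧸ P)
          = Ideal.Quotient.mk P (MvPolynomial.C a) := rfl
      rw [h2, ← map_mul, MvPolynomial.C_mul_monomial, mul_one]
    rw [h1]
    exact W.smul_mem _ h
  have hEm : ∀ (j : ι) (g : MvPolynomial σ K), Ideal.Quotient.mk P g ∈ W →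
      Ideal.Quotient.mk P (g * E j) ∈ W := by
    intro j g h
    have h1 : Ideal.Quotient.mk P (E j) ∈ A := Algebra.subset_adjoin ⟨j, rfl⟩
    have h2 : Ideal.Quotient.mk P (g * E j) = (⟨Ideal.Quotient.mk P (E j), h1⟩ : A) •
        Ideal.Quotient.mk P g := by
      rw [Subalgebra.smul_def, smul_eq_mul, ← map_mul, mul_comm]
    rw [h2]
    exact W.smul_mem _ h
  have hmain : ∀ (w : ℕ) (b : MvPolynomial σ K), b.IsWeightedHomogeneous wt w →
      Ideal.Quotient.mk P b ∈ W := by
    intro w
    induction w using Nat.strong_induction_on with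
    | _ w ih =>
      intro b hb
      have hmon : ∀ e : σ →₀ ℕ, Finsupp.weight wt e = w →
          Ideal.Quotient.mk P (MvPolynomial.monomial e 1) ∈ W := by
        intro e he
        by_cases hall : ∀ τ, e τ < M
        · refine Submodule.subset_span ⟨fun τ => ⟨e τ, hall τ⟩, ?_⟩
          have h1 : (Finsupp.equivFunOnFinite.symm fun τ => ((⟨e τ, hall τ⟩ : Fin M) : ℕ)) = e := by
            ext τ
            rfl
          show Ideal.Quotient.mk P (MvPolynomial.monomial (Finsupp.equivFunOnFinite.symm fun τ =>
            ((⟨e τ, hall τ⟩ : Fin M) : ℕ)) 1) = _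
          rw [h1]
        · push Not at hall
          obtain ⟨τ, hτ⟩ := hall
          obtain ⟨s, hs⟩ : ∃ s : σ →₀ ℕ, e = Finsupp.single τ M + s := by
            refine ⟨e - Finsupp.single τ M, ?_⟩
            rw [add_tsub_cancel_of_le]
            exact Finsupp.single_le_iff.2 hτ
          have hws : M * wt τ + Finsupp.weight wt s = w := by
            rw [← he, hs, map_add, Finsupp.weight_single, smul_eq_mul]
          obtain ⟨ρ, hρ, y, hy, hρy⟩ := Submodule.mem_sup.1 (hM τ)
          obtain ⟨g, hg⟩ := (Ideal.mem_span_range_iff_exists_fun).1 hy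
          have hX : (MvPolynomial.X τ : MvPolynomial σ K) ^ M
              = MvPolynomial.monomial (Finsupp.single τ M) 1 := by
            rw [MvPolynomial.X_pow_eq_monomial]
          have hXh : (MvPolynomial.monomial (Finsupp.single τ M) (1 : K)).IsWeightedHomogeneous wt
              (M * wt τ) := MvPolynomial.isWeightedHomogeneous_monomial wt _ _
            (by rw [Finsupp.weight_single, smul_eq_mul])
          choose g' hg1 hg2 using fun j => GR1_comp wt (E j) (n j) (M * wt τ) (hE j) (g j)
          have hkey : MvPolynomial.monomial (Finsupp.single τ M) (1 : K)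
              = MvPolynomial.weightedHomogeneousComponent wt (M * wt τ) ρ + ∑ j, g' j * E j := by
            have h1 : MvPolynomial.weightedHomogeneousComponent wt (M * wt τ)
                (MvPolynomial.monomial (Finsupp.single τ M) (1 : K))
                = MvPolynomial.monomial (Finsupp.single τ M) (1 : K) :=
              hXh.weightedHomogeneousComponent_same
            rw [← h1, ← hX, ← hρy, ← hg, map_add, map_sum]
            exact congrArg _ (Finset.sum_congr rfl fun j _ => hg2 j)
          have h3 : MvPolynomial.monomial e (1 : K)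
              = MvPolynomial.weightedHomogeneousComponent wt (M * wt τ) ρ * MvPolynomial.monomial s 1
                + ∑ j, (g' j * MvPolynomial.monomial s 1) * E j := by
            have h4 : MvPolynomial.monomial e (1 : K) = MvPolynomial.monomial (Finsupp.single τ M) 1
                * MvPolynomial.monomial s 1 := by
              rw [MvPolynomial.monomial_mul, mul_one, ← hs]
            rw [h4, hkey, add_mul, Finset.sum_mul]
            exact congrArg _ (Finset.sum_congr rfl fun j _ => by ring)
          have h5 : Ideal.Quotient.mk P (MvPolynomial.weightedHomogeneousComponent wt (M * wt τ) ρ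
              * MvPolynomial.monomial s 1) = 0 :=
            Ideal.Quotient.eq_zero_iff_mem.2 (Ideal.mul_mem_right _ _ (hP ρ hρ _))
          rw [h3, map_add, h5, zero_add, map_sum]
          refine W.sum_mem fun j _ => hEm j _ ?_
          have hlt : (M * wt τ - n j) + Finsupp.weight wt s < w := by
            have h6 : 0 < M * wt τ := Nat.mul_pos hM0 (hwt τ)
            have h7 := hn j
            omega
          exact ih _ hlt _ ((hg1 j).mul (MvPolynomial.isWeightedHomogeneous_monomial wt s 1 rfl))
      have hb' : b = ∑ e ∈ b.support, MvPolynomial.monomial e (MvPolynomial.coeff e b) :=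
        b.as_sum
      rw [hb', map_sum]
      refine W.sum_mem fun e he => hsc e _ (hmon e ?_)
      exact hb (MvPolynomial.mem_support_iff.1 he)
  have htop : W = ⊤ := by
    rw [eq_top_iff]
    intro b _
    obtain ⟨q, rfl⟩ := Ideal.Quotient.mk_surjective b
    rw [q.as_sum, map_sum]
    exact W.sum_mem fun e _ => hmain _ _ (MvPolynomial.isWeightedHomogeneous_monomial wt e _ rfl)
  have hfin : Module.Finite A (MvPolynomial σ K ⧸ P) := by
    refine ⟨⟨(Set.finite_range gen).toFinset, ?_⟩⟩
    rw [Set.Finite.coe_toFinset]
    exact htop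
  intro b
  exact (Algebra.IsIntegral.of_finite A (MvPolynomial σ K ⧸ P)).isIntegral b

end GC1
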