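import Pool.Agent.Work.MP_501976_gc.Interface

/-!
# Block IDP: exchange of algebraically independent elements (helper48)
-/

universe u

open Polynomial

namespace GC1

theorem IDP_alg {K₀ F : Type u} [Field K₀] [Field F] [Algebra K₀ F] (T : Set F) (z : F)
    (hz : z ∈ IntermediateField.adjoin K₀ T) : IsAlgebraic (Algebra.adjoin K₀ T) z := by
  obtain ⟨r, hr, s, hs, rfl⟩ := IntermediateField.mem_adjoin_iff_div.1 hz
  have h1 : IsAlgebraic (Algebra.adjoin K₀ T) r :=
    isAlgebraic_algebraMap (⟨r, hr⟩ : Algebra.adjoin K₀ T)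
  have h2 : IsAlgebraic (Algebra.adjoin K₀ T) s :=
    isAlgebraic_algebraMap (⟨s, hs⟩ : Algebra.adjoin K₀ T)
  rw [div_eq_mul_inv]
  exact h1.mul h2.inv

theorem IDP_first {K₀ F : Type u} [Field K₀] [Field F] [Algebra K₀ F] (S T : Set F)
    (h : ∀ z ∈ S, z ∈ IntermediateField.adjoin K₀ T) (c : ℕ) (hS : Indep K₀ S c) : Indep K₀ T c := by
  obtain ⟨a, haS, ha⟩ := hS
  let M := AlgebraicIndependent.matroid K₀ F
  have hI : M.Indep (Set.range a) := by
    show AlgebraicIndependent K₀ (fun x : Set.range a => (x : F))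
    exact ha.coe_range
  have hcl : Set.range a ⊆ M.closure T := by
    rintro _ ⟨i, rfl⟩
    rw [AlgebraicIndependent.matroid_closure_eq]
    exact IDP_alg T (a i) (h _ (haS i))
  obtain ⟨B, hB⟩ := M.exists_isBasis T
  have hcard : (Set.range a).encard ≤ B.encard := by
    rw [hB.encard_eq_eRk, ← M.eRk_closure_eq T]
    exact hI.encard_le_eRk_of_subset hcl
  have hc : (Set.range a).encard = c := by
    rw [← Set.image_univ, ha.injective.encard_image, Set.encard_univ, ENat.card_eq_coe_fintype_card,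
      Fintype.card_fin]
  rw [hc] at hcard
  obtain ⟨t, htB, ht⟩ := Set.exists_subset_encard_eq hcard
  have htfin : t.Finite := Set.finite_of_encard_eq_coe ht
  have hti : M.Indep t := hB.indep.subset htB
  have hti' : AlgebraicIndependent K₀ (fun x : t => (x : F)) := hti
  haveI : Fintype t := htfin.fintype
  have htc : Fintype.card t = c := by
    have h1 : t.encard = Fintype.card t := by
      rw [Set.encard, ENat.card_eq_coe_fintype_card]
    rw [h1] at ht
    exact_mod_cast ht
  let e : Fin c ≃ t := (Fintype.equivFinOfCardEq htc).symm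
  exact ⟨fun i => (e i : F), fun i => hB.subset (htB (e i).2), hti'.comp e e.injective⟩

theorem p_IDP : Stmt_IDP.{u} := by
  intro K₀ F _ _ _
  refine ⟨fun S T h c hS => IDP_first S T h c hS, ?_⟩
  rintro T b c ⟨a, haT, ha⟩
  have hinj := ha.injective
  obtain ⟨i0, hi0⟩ : ∃ i0 : Fin (c + 1), ∀ i, i ≠ i0 → a i ≠ b := by
    by_cases hb : ∃ i, a i = b
    · obtain ⟨i0, h0⟩ := hb
      refine ⟨i0, fun i hi h1 => hi (hinj (h1.trans h0.symm))⟩
    · exact ⟨0, fun i _ h1 => hb ⟨i, h1⟩⟩
  refine ⟨fun j => a (i0.succAbove j), fun j => ?_, ha.comp _ Fin.succAbove_right_injective⟩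
  rcases haT (i0.succAbove j) with h1 | h1
  · exact absurd h1 (hi0 _ (Fin.succAbove_ne i0 j))
  · exact h1

end GC1
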