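import Pool.Agent.Work.MP_501976_gc.Interface

universe u v

open Polynomial

namespace GC1

section MOB
variable {F : Type u} [Field F]

theorem MOB_deg (a : F) (e : ℕ) (f : F[X]) : (mob a e f).natDegree ≤ e := by
  unfold mob
  apply natDegree_sum_le_of_forall_le
  intro l hl
  have hl' : l ≤ e := Nat.lt_succ_iff.mp (Finset.mem_range.mp hl)
  have h1 : (C (f.coeff l) * X ^ l : F[X]).natDegree ≤ l := natDegree_C_mul_X_pow_le _ _
  have h2 : ((1 + C a * X : F[X])).natDegree ≤ 1 := by
    refine (natDegree_add_le _ _).trans ?_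
    rw [natDegree_one]
    exact max_le (Nat.zero_le _) (by simpa using natDegree_C_mul_X_pow_le a 1)
  have h3 : ((1 + C a * X : F[X]) ^ (e - l)).natDegree ≤ e - l := by
    refine natDegree_pow_le.trans ?_
    calc (e - l) * (1 + C a * X : F[X]).natDegree ≤ (e - l) * 1 := Nat.mul_le_mul_left _ h2
      _ = e - l := mul_one _
  calc _ ≤ l + (e - l) := natDegree_mul_le.trans (add_le_add h1 h3)
    _ = e := by omega

theorem MOB_c0 (a : F) (e : ℕ) (f : F[X]) : (mob a e f).coeff 0 = f.coeff 0 := by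
  rw [coeff_zero_eq_eval_zero]
  unfold mob
  rw [eval_finsetSum, Finset.sum_range_succ', Finset.sum_eq_zero]
  · simp
  · intro l _
    simp

theorem MOB_c1 (a : F) (e : ℕ) (f : F[X]) (hf : f.natDegree ≤ e) :
    (mob a e f).coeff 1 = f.coeff 1 + e * a * f.coeff 0 := by
  have h1 : ∀ p : F[X], p.coeff 1 = (derivative p).eval 0 := by
    intro p
    rw [← coeff_zero_eq_eval_zero, coeff_derivative]
    simp
  rw [h1]
  unfold mob
  rw [derivative_sum, eval_finsetSum]
  rcases e with _ | e
  · have : f.coeff 1 = 0 := coeff_eq_zero_of_natDegree_lt (by omega)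
    simp [this]
  · rw [Finset.sum_range_succ', Finset.sum_range_succ', Finset.sum_eq_zero]
    · simp [derivative_mul, derivative_pow]
      ring
    · intro l _
      simp [derivative_mul, derivative_pow]

theorem MOB_ne (a : F) : (1 + C a * X : F[X]) ≠ 0 := by
  intro h
  have := congrArg (fun p : F[X] => p.coeff 0) h
  simp at this

theorem MOB_frac (a : F) (e : ℕ) (f : F[X]) (hf : f.natDegree ≤ e) :
    algebraMap F[X] (FractionRing F[X]) (mob a e f)
      = (algebraMap F[X] (FractionRing F[X]) (1 + C a * X)) ^ e *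
        eval₂ ((algebraMap F[X] (FractionRing F[X])).comp C)
          (algebraMap F[X] (FractionRing F[X]) X /
            algebraMap F[X] (FractionRing F[X]) (1 + C a * X)) f := by
  have hu : algebraMap F[X] (FractionRing F[X]) (1 + C a * X) ≠ 0 := by
    intro h
    exact MOB_ne a ((IsFractionRing.injective F[X] (FractionRing F[X])) (by rw [h, map_zero]))
  rw [eval₂_eq_sum_range' _ (Nat.lt_succ_iff.mpr hf), Finset.mul_sum]
  unfold mob
  rw [map_sum]
  apply Finset.sum_congr rfl
  intro l hl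
  have hl' : l ≤ e := Nat.lt_succ_iff.mp (Finset.mem_range.mp hl)
  rw [map_mul, map_mul, map_pow, map_pow, RingHom.comp_apply, div_pow]
  have h2 : (algebraMap F[X] (FractionRing F[X]) (1 + C a * X)) ^ e
      = (algebraMap F[X] (FractionRing F[X]) (1 + C a * X)) ^ (e - l) *
        (algebraMap F[X] (FractionRing F[X]) (1 + C a * X)) ^ l := by
    rw [← pow_add, Nat.sub_add_cancel hl']
  rw [h2]
  field_simp

theorem MOB_inv (a : F) (e : ℕ) (f : F[X]) (hf : f.natDegree ≤ e) :
    mob (-a) e (mob a e f) = f := by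
  apply IsFractionRing.injective F[X] (FractionRing F[X])
  rw [MOB_frac _ _ _ (MOB_deg a e f)]
  set φ := algebraMap F[X] (FractionRing F[X]) with hφ
  have hv : φ (1 + C (-a) * X) ≠ 0 := by
    intro h
    exact MOB_ne (-a) ((IsFractionRing.injective F[X] (FractionRing F[X])) (by
      rw [← hφ, h, map_zero]))
  have hy : eval₂ (φ.comp C) (φ X / φ (1 + C (-a) * X)) (1 + C a * X)
      = (φ (1 + C (-a) * X))⁻¹ := by
    rw [eval₂_add, eval₂_one, eval₂_mul, eval₂_C, eval₂_X, RingHom.comp_apply]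
    field_simp
    rw [map_add, map_mul, map_one, C_neg, map_neg]
    ring
  have hff : φ f = φ (∑ l ∈ Finset.range (e + 1), C (f.coeff l) * X ^ l) := by
    exact congrArg φ (as_sum_range_C_mul_X_pow' f (Nat.lt_succ_iff.mpr hf))
  rw [hff]
  unfold mob
  rw [eval₂_finsetSum, Finset.mul_sum, map_sum]
  apply Finset.sum_congr rfl
  intro l hl
  have hl' : l ≤ e := Nat.lt_succ_iff.mp (Finset.mem_range.mp hl)
  rw [eval₂_mul, eval₂_mul, eval₂_pow, eval₂_pow, hy, eval₂_X, eval₂_C, RingHom.comp_apply,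
    map_mul, map_pow, div_pow, inv_pow]
  have h2 : (φ (1 + C (-a) * X)) ^ e
      = (φ (1 + C (-a) * X)) ^ (e - l) * (φ (1 + C (-a) * X)) ^ l := by
    rw [← pow_add, Nat.sub_add_cancel hl']
  rw [h2]
  field_simp

theorem MOB_mul (a : F) (e e' : ℕ) (f g : F[X]) (hf : f.natDegree ≤ e) (hg : g.natDegree ≤ e') :
    mob a (e + e') (f * g) = mob a e f * mob a e' g := by
  apply IsFractionRing.injective F[X] (FractionRing F[X])
  rw [map_mul, MOB_frac _ _ _ hf, MOB_frac _ _ _ hg,
    MOB_frac _ _ _ (natDegree_mul_le.trans (add_le_add hf hg)), eval₂_mul, pow_add]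
  ring

end MOB

theorem p_MOB : Stmt_MOB.{u} := by
  intro F _ a e f hf
  exact ⟨MOB_deg a e f, MOB_c0 a e f, MOB_c1 a e f hf, MOB_inv a e f hf,
    fun e' g hg => MOB_mul a e e' f g hf hg⟩

end GC1
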