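import Mathlib
import Pool.Agent.Work.MP_501976_gc.Interface

/-! # THEOREM GC (MP_501976_ag): block MOH -/

universe u v

open Polynomial

namespace GC1

theorem MOH_img {F : Type u} [Field F] (a : F) (e : ℕ) (f : F[X]) (hf : f.natDegree ≤ e) :
    algebraMap F[X] (FractionRing F[X]) (mob a e f) =
      (algebraMap F[X] (FractionRing F[X]) (1 + C a * X)) ^ e *
        aeval (algebraMap F[X] (FractionRing F[X]) X /
          algebraMap F[X] (FractionRing F[X]) (1 + C a * X)) f := by
  have hu : algebraMap F[X] (FractionRing F[X]) (1 + C a * X) ≠ 0 := by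
    intro h
    have h1 : (1 + C a * X : F[X]) = 0 :=
      IsFractionRing.injective F[X] (FractionRing F[X]) (h.trans (map_zero _).symm)
    have h2 := congrArg (Polynomial.eval 0) h1
    simp at h2
  rw [aeval_eq_sum_range' (Nat.lt_succ_of_le hf), mob, map_sum, Finset.mul_sum]
  refine Finset.sum_congr rfl fun l hl => ?_
  have hle : l ≤ e := Nat.lt_succ_iff.mp (Finset.mem_range.mp hl)
  rw [map_mul, map_mul, map_pow, map_pow, Algebra.smul_def, div_pow]
  have e1 : algebraMap F (FractionRing F[X]) (f.coeff l) =
      algebraMap F[X] (FractionRing F[X]) (C (f.coeff l)) := by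
    rw [IsScalarTower.algebraMap_apply F F[X] (FractionRing F[X])]
    rfl
  rw [e1]
  generalize algebraMap F[X] (FractionRing F[X]) (1 + C a * X) = w at hu
  have e2 : w ^ e = w ^ (e - l) * w ^ l := by rw [← pow_add, Nat.sub_add_cancel hle]
  rw [e2]
  field_simp

/-- BLOCK MOH. -/
theorem p_MOH : Stmt_MOH.{u} := by
  intro F _ N d e H f a hH hf
  have hdeg : (MvPolynomial.aeval f H).natDegree ≤ d * e :=
    MvPolynomial.aeval_natDegree_le H hH.totalDegree_le f hf
  apply IsFractionRing.injective F[X] (FractionRing F[X])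
  rw [MOH_img a (d * e) _ hdeg]
  have h1 : algebraMap F[X] (FractionRing F[X]) (MvPolynomial.aeval (fun i => mob a e (f i)) H) =
      MvPolynomial.aeval (fun i => algebraMap F[X] (FractionRing F[X]) (mob a e (f i))) H :=
    (MvPolynomial.aeval_algebraMap_apply (FractionRing F[X]) (fun i => mob a e (f i)) H).symm
  rw [h1]
  have h2 : (fun i => algebraMap F[X] (FractionRing F[X]) (mob a e (f i))) = fun i =>
      ((algebraMap F[X] (FractionRing F[X]) (1 + C a * X)) ^ e) ^ ((fun _ => 1 : Fin N → ℕ) i) *
        aeval (algebraMap F[X] (FractionRing F[X]) X /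
          algebraMap F[X] (FractionRing F[X]) (1 + C a * X)) (f i) := by
    funext i
    rw [MOH_img a e (f i) (hf i), pow_one]
  have h3 := IX1.p_HOM F (FractionRing F[X]) N (fun _ => 1) d H hH
    ((algebraMap F[X] (FractionRing F[X]) (1 + C a * X)) ^ e)
    (fun i => aeval (algebraMap F[X] (FractionRing F[X]) X /
          algebraMap F[X] (FractionRing F[X]) (1 + C a * X)) (f i))
  rw [h2, h3, ← pow_mul, mul_comm e d, MvPolynomial.comp_aeval_apply]

end GC1
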