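import Mathlib
import Pool.Agent.Work.MP_501976_gc.Interface

universe u v

open Polynomial

namespace GC1

theorem RED_map {R S : Type u} [CommRing R] [CommRing S] (φ : R →+* S) {N : ℕ}
    (f : Fin N → R[X]) (g : Fin N → S[X]) (h : ∀ i, (f i).map φ = g i)
    {K₀ : Type u} [CommRing K₀] (i0 : K₀ →+* R) (H : MvPolynomial (Fin N) K₀) :
    (MvPolynomial.aeval f (MvPolynomial.map i0 H)).map φ =
      MvPolynomial.aeval g (MvPolynomial.map (φ.comp i0) H) := by
  rw [MP501976.aeval_map, MvPolynomial.map_map]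
  simp only [h]

theorem RED_crv {R S : Type u} [CommRing R] [CommRing S] (φ : R →+* S) {N r s : ℕ}
    {δ n κ : Fin (s + 1) → ℕ} {d₁ d₂ : ℕ} (y : SS N r s δ n κ d₁ d₂ → R) (i : Fin (N + 1)) :
    (crv y i).map φ = crv (fun t => φ (y t)) i := by
  unfold crv
  rw [MP501976.ser_map]
  congr 1
  split_ifs <;> simp

theorem RED_cS {R S : Type u} [CommRing R] [CommRing S] (φ : R →+* S) {N r s : ℕ}
    {δ n κ : Fin (s + 1) → ℕ} {d₁ d₂ : ℕ} (y : SS N r s δ n κ d₁ d₂ → R) (b : Fin (s + 1)) :
    (cS y b).map φ = cS (fun t => φ (y t)) b := by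
  unfold cS
  rw [MP501976.ser_map, map_one]

theorem RED_cB {R S : Type u} [CommRing R] [CommRing S] (φ : R →+* S) {N r s : ℕ}
    {δ n κ : Fin (s + 1) → ℕ} {d₁ d₂ : ℕ} (y : SS N r s δ n κ d₁ d₂ → R) (b : Fin (s + 1)) :
    (cB y b).map φ = cB (fun t => φ (y t)) b := by
  unfold cB
  rw [MP501976.ser_map, map_one]

theorem p_RED : Stmt_RED.{u} := by
  intro K₀ F' _ _ _ O hK N c r s H D δ n κ E d₁ d₂ V hV hH hD
  let i0 : K₀ →+* O := (algebraMap K₀ F').codRestrict O.toSubring hK
  have hi0 : (algebraMap O F').comp i0 = algebraMap K₀ F' := by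
    ext a
    rfl
  let _ : Algebra K₀ (IsLocalRing.ResidueField O) := ((IsLocalRing.residue O).comp i0).toAlgebra
  have halg : (IsLocalRing.residue O).comp i0 =
      algebraMap K₀ (IsLocalRing.ResidueField O) := rfl
  let V' : SS N r s δ n κ d₁ d₂ → O := fun t => ⟨V t, hV t⟩
  have hV' : (fun t => algebraMap O F' (V' t)) = V := rfl
  have hinj : Function.Injective (Polynomial.map (algebraMap O F')) :=
    Polynomial.map_injective _ (IsFractionRing.injective O F')
  refine ⟨IsLocalRing.ResidueField O, inferInstance, inferInstance,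
    fun t => IsLocalRing.residue O (V' t), ?_, ?_, ?_⟩
  · intro G
    have h1 : MvPolynomial.aeval V G = algebraMap O F' (MvPolynomial.eval₂Hom i0 V' G) := by
      rw [← RingHom.comp_apply, MvPolynomial.comp_eval₂Hom, hi0]
      rfl
    have h2 : MvPolynomial.aeval (fun t => IsLocalRing.residue O (V' t)) G =
        IsLocalRing.residue O (MvPolynomial.eval₂Hom i0 V' G) := by
      rw [← RingHom.comp_apply, MvPolynomial.comp_eval₂Hom, halg]
      rfl
    rw [h1, h2, IsLocalRing.residue_eq_zero_iff]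
    exact (ValuationSubring.coe_mem_nonunits_iff).symm
  · intro j
    have h1 : MvPolynomial.aeval (crv V') (MvPolynomial.map i0 (H j)) = 0 := by
      apply hinj
      rw [RED_map (algebraMap O F') (crv V') (crv V)
        (fun i => by rw [RED_crv, hV']) i0 (H j), hi0, hH, Polynomial.map_zero]
    rw [← halg, ← RED_map (IsLocalRing.residue O) (crv V') _
      (fun i => by rw [RED_crv]) i0 (H j), h1, Polynomial.map_zero]
  · intro b
    have h1 : MvPolynomial.aeval (crv V') (MvPolynomial.map i0 (D b)) =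
        C (i0 (MvPolynomial.eval (e1 K₀ N) (D b))) * (cS V' b * cB V' b ^ E b) := by
      apply hinj
      rw [RED_map (algebraMap O F') (crv V') (crv V)
        (fun i => by rw [RED_crv, hV']) i0 (D b), hi0, hD]
      simp only [Polynomial.map_mul, Polynomial.map_pow, RED_cS, RED_cB, map_C, hV']
      rfl
    rw [← halg, ← RED_map (IsLocalRing.residue O) (crv V') _
      (fun i => by rw [RED_crv]) i0 (D b), h1]
    simp only [Polynomial.map_mul, Polynomial.map_pow, RED_cS, RED_cB, map_C]
    rfl

end GC1
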