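import Pool.Agent.Work.MP_501976_gc.Interface

/-!
# Block REF of THEOREM GC: reversed polynomials satisfy the same homogeneous equations.
-/

universe u

open Polynomial

namespace GC1

/-- The image of a reversed polynomial in the fraction field. -/
theorem REF_image (F : Type u) [Field F] (m : ℕ) (g : F[X]) (hg : g.natDegree ≤ m) :
    algebraMap F[X] (FractionRing F[X]) (g.reflect m) =
      (algebraMap F[X] (FractionRing F[X]) X) ^ m *
        aeval (algebraMap F[X] (FractionRing F[X]) X)⁻¹ g := by
  have hx : algebraMap F[X] (FractionRing F[X]) X ≠ 0 := by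
    intro h
    have h2 : algebraMap F[X] (FractionRing F[X]) X = algebraMap F[X] (FractionRing F[X]) 0 := by
      rw [h, map_zero]
    exact X_ne_zero (IsFractionRing.injective F[X] (FractionRing F[X]) h2)
  generalize hxx : algebraMap F[X] (FractionRing F[X]) X = x at hx
  have h1 : algebraMap F[X] (FractionRing F[X]) (g.reflect m) = aeval x (g.reflect m) := by
    rw [← hxx, aeval_algebraMap_apply, aeval_X_left_apply]
  rw [h1]
  let _ : Invertible (x⁻¹) := invertibleOfNonzero (inv_ne_zero hx)
  have h2 := eval₂_reflect_mul_pow (algebraMap F (FractionRing F[X])) (x⁻¹) m g hg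
  have h3 : (⅟ (x⁻¹) : FractionRing F[X]) = x := by
    rw [invOf_eq_inv, inv_inv]
  rw [h3] at h2
  rw [aeval_def, aeval_def, ← h2, mul_comm, mul_assoc, inv_pow, inv_mul_cancel₀ (pow_ne_zero m hx),
    mul_one]

theorem p_REF : Stmt_REF.{u} := by
  intro F _ N d m H G b hH hG h0
  have hinj : Function.Injective (algebraMap F[X] (FractionRing F[X])) :=
    IsFractionRing.injective F[X] (FractionRing F[X])
  apply hinj
  rw [map_zero, ← MvPolynomial.aeval_algebraMap_apply]
  have h1 : (algebraMap F[X] (FractionRing F[X]) ∘ fun i => C b * (G i).reflect m) = fun i =>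
      (algebraMap F (FractionRing F[X]) b *
        (algebraMap F[X] (FractionRing F[X]) X) ^ m) ^ (1 : ℕ) *
        aeval (algebraMap F[X] (FractionRing F[X]) X)⁻¹ (G i) := by
    funext i
    show algebraMap F[X] (FractionRing F[X]) (C b * (G i).reflect m) = _
    rw [map_mul, REF_image F m (G i) (hG i), pow_one, mul_assoc,
      IsScalarTower.algebraMap_apply F F[X] (FractionRing F[X]) b, Polynomial.algebraMap_eq]
  rw [h1]
  have h2 := IX1.p_HOM F (FractionRing F[X]) N (fun _ => 1) d H hH
    (algebraMap F (FractionRing F[X]) b * (algebraMap F[X] (FractionRing F[X]) X) ^ m)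
    (fun i => aeval (algebraMap F[X] (FractionRing F[X]) X)⁻¹ (G i))
  rw [h2]
  have h3 : MvPolynomial.aeval
      (fun i => aeval (algebraMap F[X] (FractionRing F[X]) X)⁻¹ (G i)) H =
      aeval (algebraMap F[X] (FractionRing F[X]) X)⁻¹ (MvPolynomial.aeval G H) := by
    have h4 := MvPolynomial.comp_aeval_apply (R := F) (f := G)
      (aeval (R := F) (algebraMap F[X] (FractionRing F[X]) X)⁻¹) H
    exact h4.symm
  rw [h3, h0, map_zero, mul_zero]

end GC1
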