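import Pool.Agent.Work.MP_501976_gc.Interface

/-!
# MP_501976_ag, THEOREM GC: block RES
-/

universe u v

open Polynomial

namespace GC1

lemma RES_ser {R : Type*} [CommRing R] (P : R → Prop) (a : R) {n : ℕ} (w : Fin n → R) (h0 : P 0)
    (ha : P a) (hw : ∀ l, P (w l)) (l : ℕ) : P ((MP501976.ser a w).coeff l) := by
  rcases l with _ | m
  · rw [MP501976.ser_coeff_zero]
    exact ha
  · by_cases h : m < n
    · have := MP501976.ser_coeff_succ a w ⟨m, h⟩
      simp only at this
      rw [this]
      exact hw _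
    · rw [Polynomial.coeff_eq_zero_of_natDegree_lt]
      · exact h0
      · exact lt_of_le_of_lt (MP501976.ser_natDegree_le a w) (by omega)

theorem p_RES (hEQR : Stmt_EQR.{u}) (hUNI : Stmt_UNI.{u}) (hUNS : Stmt_UNS.{u})
    (hSCL : Stmt_SCL.{u}) (hRED : Stmt_RED.{u}) : Stmt_RES.{u} := by
  intro K₀ F _ _ _ _ N c H d hd r hNo f hf hnt h01 s D δ n κ E μ d₁ d₂ S β hShp hδ hE hμ hD
    v hv1 hv2 hv3 q hq hEQ hX F' _ _ _ _ _ O lam hlam hO hqO
  set V : SS N r s δ n κ d₁ d₂ → F' := fun t => algebraMap F F' (v t) * lam ^ wS t with hV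
  have hVO : ∀ t, V t ∈ O := by
    intro t
    have := hO (MvPolynomial.X t)
    rwa [MvPolynomial.aeval_X] at this
  have hKO : ∀ a : K₀, algebraMap K₀ F' a ∈ O := by
    intro a
    have := hO (MvPolynomial.C a)
    rwa [MvPolynomial.aeval_C] at this
  obtain ⟨hcV, hntV, hcV1, hDV⟩ := hSCL K₀ F F' N c r s H f hf hnt h01 D δ n κ E d₁ d₂ S β hShp
    v hv1 hv2 hv3 lam V hlam (fun t => rfl)
  obtain ⟨k₁, hk1, hk2, y, hy, hyH, hyD⟩ := hRED K₀ F' O hKO N c r s H D δ n κ E d₁ d₂ V hVO
    hcV.2.2 hDV
  have hyEQ : ∀ a, MvPolynomial.aeval y (EQ K₀ N r δ n κ E μ d₁ d₂ a) = 0 := fun a =>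
    (hy _).2 ((hqO _).1 (hEQ a))
  have hfac := hEQR K₀ k₁ N r s δ n κ E μ d₁ d₂ hδ y hyEQ
  have hyX : ∀ t, y t = 0 ↔ V t ∈ O.nonunits := by
    intro t
    have := hy (MvPolynomial.X t)
    rwa [MvPolynomial.aeval_X, MvPolynomial.aeval_X] at this
  have h0non : (0 : F') ∈ O.nonunits := by
    have := (hy 0).1 (map_zero _)
    rwa [map_zero] at this
  -- the reduced curve is not trivial
  have hnty : ¬ Triv (e1 K₀ N) (crv y) := by
    intro ht
    have hyi : ∀ i, i ≠ 0 → ∀ l, y (Sum.inl (i, l)) = 0 := by
      intro i hi l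
      have h2 := ht i
      have h3 : e1 K₀ N i = 0 := by
        unfold e1
        exact Pi.single_eq_of_ne hi _
      have h4 : e1 K₀ N 0 = 1 := by
        unfold e1
        exact Pi.single_eq_same _ _
      rw [h3, h4, map_zero, map_one, C_0, C_1, zero_mul, one_mul] at h2
      have h5 := congrArg (fun p => Polynomial.coeff p ((l : ℕ) + 1)) h2
      simp only [coeff_zero] at h5
      unfold crv at h5
      rw [MP501976.ser_coeff_succ] at h5
      exact h5
    by_cases hall : ∀ a, y (Sum.inl a) = 0
    · have hz := hUNI K₀ k₁ N r s D δ n κ E μ d₁ d₂ hE hμ hD y hyD hfac hall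
      obtain ⟨t, ht⟩ := hX
      apply ht
      rw [hqO, MvPolynomial.aeval_X]
      exact (hyX t).1 (hz t)
    · push Not at hall
      obtain ⟨⟨i, l⟩, hil⟩ := hall
      have hi : i = 0 := by
        by_contra hi
        exact hil (hyi i hi l)
      subst hi
      refine hUNS K₀ F' O hKO N c H d hd r hNo (crv V) hcV hntV hcV1 ?_ ?_ ?_
      · intro i l
        unfold crv
        apply RES_ser (fun z => z ∈ O)
        · exact O.zero_mem
        · split_ifs
          · exact O.one_mem
          · exact O.zero_mem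
        · intro l
          exact hVO _
      · intro i hi l
        unfold crv
        rw [if_neg hi]
        apply RES_ser (fun z => z ∈ O.nonunits)
        · exact h0non
        · exact h0non
        · intro l
          exact (hyX _).1 (hyi i hi l)
      · refine ⟨(l : ℕ) + 1, Nat.succ_pos _, ?_⟩
        unfold crv
        rw [MP501976.ser_coeff_succ]
        intro hc
        exact hil ((hyX _).2 hc)
  -- to the algebraic closure
  have hmap : ∀ G : MvPolynomial (Fin (N + 1)) K₀,
      MvPolynomial.aeval (fun i => (crv y i).map (algebraMap k₁ (AlgebraicClosure k₁)))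
        (MvPolynomial.map (algebraMap K₀ (AlgebraicClosure k₁)) G) =
      (MvPolynomial.aeval (crv y) (MvPolynomial.map (algebraMap K₀ k₁) G)).map
        (algebraMap k₁ (AlgebraicClosure k₁)) := by
    intro G
    rw [MP501976.aeval_map, MvPolynomial.map_map, ← IsScalarTower.algebraMap_eq]
  have hmapD : ∀ b, MvPolynomial.aeval
        (fun i => (crv y i).map (algebraMap k₁ (AlgebraicClosure k₁)))
        (MvPolynomial.map (algebraMap K₀ (AlgebraicClosure k₁)) (D b)) =
      C (algebraMap K₀ (AlgebraicClosure k₁) (MvPolynomial.eval (e1 K₀ N) (D b))) *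
        ((fac E μ y b * cB y b ^ E b).map (algebraMap k₁ (AlgebraicClosure k₁))) := by
    intro b
    rw [hmap, hyD b, hfac b, Polynomial.map_mul, Polynomial.map_C,
      ← IsScalarTower.algebraMap_apply]
  refine ⟨AlgebraicClosure k₁, inferInstance, inferInstance, inferInstance,
    fun i => (crv y i).map (algebraMap k₁ (AlgebraicClosure k₁)), ⟨?_, ?_, ?_⟩, ?_, ?_, ?_⟩
  · intro i
    exact Polynomial.natDegree_map_le.trans (MP501976.ser_natDegree_le _ _)
  · intro i
    simp only [Polynomial.coeff_map]
    unfold crv e1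
    rw [MP501976.ser_coeff_zero]
    by_cases hi : i = 0
    · subst hi
      rw [if_pos rfl, Pi.single_eq_same, map_one, map_one]
    · rw [if_neg hi, Pi.single_eq_of_ne hi, map_zero, map_zero]
  · intro j
    rw [hmap, hyH j, Polynomial.map_zero]
  · intro ht
    apply hnty
    intro i
    apply Polynomial.map_injective (algebraMap k₁ (AlgebraicClosure k₁))
      (algebraMap k₁ (AlgebraicClosure k₁)).injective
    have := ht i
    simp only at this
    rw [Polynomial.map_mul, Polynomial.map_mul, Polynomial.map_C, Polynomial.map_C,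
      ← IsScalarTower.algebraMap_apply, ← IsScalarTower.algebraMap_apply]
    exact this
  · refine ⟨(cG y 0 * cB y 0).map (algebraMap k₁ (AlgebraicClosure k₁)),
      (cH₁ y).map (algebraMap k₁ (AlgebraicClosure k₁)),
      (cH₂ y).map (algebraMap k₁ (AlgebraicClosure k₁)), ?_, ?_, ?_, ?_, ?_⟩
    · rw [Polynomial.coeff_map]
      unfold cH₁
      rw [MP501976.ser_coeff_zero, map_one]
    · rw [Polynomial.coeff_map]
      unfold cH₂
      rw [MP501976.ser_coeff_zero, map_one]
    · exact Polynomial.natDegree_map_le.trans (MP501976.ser_natDegree_le _ _)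
    · exact Polynomial.natDegree_map_le.trans (MP501976.ser_natDegree_le _ _)
    · rw [hmapD 0]
      congr 1
      unfold fac
      rw [if_pos rfl]
      simp only [Polynomial.map_mul, Polynomial.map_pow]
      ring
  · intro b
    refine ⟨(cG y b.succ * cB y b.succ).map (algebraMap k₁ (AlgebraicClosure k₁)), ?_⟩
    rw [hmapD b.succ]
    congr 1
    unfold fac
    rw [if_neg (Fin.succ_ne_zero b)]
    simp only [Polynomial.map_mul, Polynomial.map_pow, Polynomial.map_one]
    ring

end GC1
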