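import Pool.Agent.Work.MP_501976_gc.Interface

set_option autoImplicit false

universe u v

open Polynomial

namespace GC1

theorem ROO_mul {F : Type u} [Field F] (O : ValuationSubring F) {a b : F} (ha : a ∈ O)
    (hb : b ∈ O.nonunits) : a * b ∈ O.nonunits := by
  rw [ValuationSubring.mem_nonunits_iff] at hb ⊢
  rw [← O.valuation_le_one_iff] at ha
  rw [map_mul]
  exact lt_of_le_of_lt (mul_le_of_le_one_left' ha) hb

theorem ROO_res {F : Type u} [Field F] (O : ValuationSubring F) (a : O) :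
    (a : F) ∈ O.nonunits ↔ IsLocalRing.residue O a = 0 := by
  rw [IsLocalRing.residue_eq_zero_iff, ValuationSubring.mem_nonunits_iff, O.valuation_lt_one_iff]

theorem ROO_factor {F : Type u} [Field F] (f : F[X]) (ρ : F) (h : f.eval ρ = 0) (hρ : ρ ≠ 0) :
    ∃ g : F[X], f = (1 - C ρ⁻¹ * X) * g ∧ g.natDegree = f.natDegree - 1 := by
  refine ⟨C (-ρ) * (f /ₘ (X - C ρ)), ?_, ?_⟩
  · have h1 : (X - C ρ) * (f /ₘ (X - C ρ)) = f := (mul_divByMonic_eq_iff_isRoot).2 h
    have h2 : (1 - C ρ⁻¹ * X) * C (-ρ) = X - C ρ := by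
      have h3 : (C ρ⁻¹ : F[X]) * C ρ = 1 := by
        rw [← C_mul, inv_mul_cancel₀ hρ, C_1]
      rw [C_neg]
      linear_combination (X : F[X]) * h3
    rw [← mul_assoc, h2, h1]
  · rw [natDegree_C_mul (neg_ne_zero.mpr hρ), natDegree_divByMonic _ (monic_X_sub_C ρ), natDegree_X_sub_C]

theorem ROO_coeff {F : Type u} [Field F] (g : F[X]) (b : F) (l : ℕ) :
    ((1 - C b * X) * g).coeff (l + 1) = g.coeff (l + 1) - b * g.coeff l := by
  rw [sub_mul, one_mul, coeff_sub, mul_assoc, coeff_C_mul, coeff_X_mul]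

theorem ROO_coeff0 {F : Type u} [Field F] (g : F[X]) (b : F) :
    ((1 - C b * X) * g).coeff 0 = g.coeff 0 := by
  rw [sub_mul, one_mul, coeff_sub, mul_assoc, coeff_C_mul, mul_coeff_zero, coeff_X_zero, zero_mul, mul_zero, sub_zero]

theorem ROO_aux {F : Type u} [Field F] [IsAlgClosed F] (O : ValuationSubring F) :
    ∀ (n : ℕ) (f : F[X]), f.natDegree = n → f.coeff 0 = 1 → (∀ ρ ∈ O, f.eval ρ ≠ 0) →
      ∀ l, 0 < l → f.coeff l ∈ O.nonunits := by
  intro n
  induction n with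
  | zero =>
    intro f hf _ _ l hl
    rw [coeff_eq_zero_of_natDegree_lt (by omega)]
    exact O.nonunits.zero_mem
  | succ n ih =>
    intro f hf h0 hO l hl
    obtain ⟨ρ, hρ⟩ := IsAlgClosed.exists_root f (by
      intro h
      rw [natDegree_eq_of_degree_eq_some (n := 0) (by rw [h]; rfl)] at hf
      omega)
    have hρO : ρ ∉ O := fun h => hO ρ h hρ
    have hρ0 : ρ ≠ 0 := fun h => hρO (by rw [h]; exact O.zero_mem)
    obtain ⟨g, hg, hgd⟩ := ROO_factor f ρ hρ hρ0
    have hg0 : g.coeff 0 = 1 := by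
      rw [← ROO_coeff0 g ρ⁻¹, ← hg, h0]
    have hgl := ih g (by rw [hgd, hf]; rfl) hg0 (fun a ha h => hO a ha (by rw [hg, eval_mul, h, mul_zero]))
    have hinv : ρ⁻¹ ∈ O.nonunits := by
      rw [ValuationSubring.inv_mem_nonunits_iff]
      exact Or.inr hρO
    obtain ⟨k, rfl⟩ : ∃ k, l = k + 1 := ⟨l - 1, by omega⟩
    rw [hg, ROO_coeff]
    refine sub_mem (hgl (k + 1) (by omega)) ?_
    rcases Nat.eq_zero_or_pos k with hk | hk
    · rw [hk, hg0, mul_one]
      exact hinv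
    · exact mul_mem hinv (hgl k hk)

theorem ROO_lift {F : Type u} [Field F] (O : ValuationSubring F) (f : F[X]) (hf : ∀ l, f.coeff l ∈ O) :
    ∃ P : (O : Type u)[X], P.map (algebraMap O F) = f := by
  have h : f ∈ lifts (algebraMap O F) := by
    rw [lifts_iff_coeff_lifts]
    intro n
    exact ⟨⟨f.coeff n, hf n⟩, rfl⟩
  obtain ⟨P, hP⟩ := (mem_lifts f).1 h
  exact ⟨P, hP⟩

theorem p_ROO : Stmt_ROO.{u} := by
  intro F _ _ O _ r f₀ hdeg h0 h1 hO hex
  obtain ⟨l₁, hl₁, hl₁'⟩ := hex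
  have hroot : ∃ ρ ∈ O, f₀.eval ρ = 0 := by
    by_contra hcon
    push Not at hcon
    exact hl₁' (ROO_aux O _ f₀ rfl h0 hcon l₁ hl₁)
  obtain ⟨ρ, hρ, hρ0⟩ := hroot
  refine ⟨ρ, hρ, hρ0, ?_⟩
  obtain ⟨P, hP⟩ := ROO_lift O f₀ hO
  obtain ⟨k, hk⟩ : ∃ k : IsLocalRing.ResidueField O, k = IsLocalRing.residue O ⟨ρ, hρ⟩ := ⟨_, rfl⟩
  obtain ⟨g, hg⟩ : ∃ g : (IsLocalRing.ResidueField O)[X], g = P.map (IsLocalRing.residue O) := ⟨_, rfl⟩
  obtain ⟨Φ, hΦ⟩ : ∃ Φ : (O : Type u)[X], Φ = P.comp (X + C ⟨ρ, hρ⟩) := ⟨_, rfl⟩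
  have hΦ1 : Φ.map (algebraMap O F) = f₀.comp (X + C ρ) := by
    rw [hΦ, map_comp, hP, Polynomial.map_add, map_X, map_C]
    rfl
  have hΦ2 : Φ.map (IsLocalRing.residue O) = g.comp (X + C k) := by
    rw [hΦ, map_comp, ← hg, Polynomial.map_add, map_X, map_C, hk]
  have hiff : ∀ l, (f₀.comp (X + C ρ)).coeff l ∈ O.nonunits ↔ (g.comp (X + C k)).coeff l = 0 := by
    intro l
    rw [← hΦ1, ← hΦ2, coeff_map, coeff_map]
    exact ROO_res O (Φ.coeff l)
  have hPc : ∀ l, ((P.coeff l : O) : F) = f₀.coeff l := by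
    intro l
    rw [← hP, coeff_map]
    rfl
  have hg0 : g.coeff 0 = 1 := by
    have h2 : P.coeff 0 = 1 := Subtype.ext (by rw [hPc, h0]; rfl)
    rw [hg, coeff_map, h2, map_one]
  have hg1 : g.coeff 1 = 0 := by
    have h2 : P.coeff 1 = 0 := Subtype.ext (by rw [hPc, h1]; rfl)
    rw [hg, coeff_map, h2, map_zero]
  have hPdeg : P.natDegree ≤ r + 1 := by
    rw [← natDegree_map_eq_of_injective (f := algebraMap O F) Subtype.val_injective P, hP]
    exact hdeg
  have hgdeg : g.natDegree ≤ r + 1 := by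
    rw [hg]
    exact natDegree_map_le.trans hPdeg
  obtain ⟨G, hG⟩ : ∃ G : (IsLocalRing.ResidueField O)[X], G = g.comp (X + C k) := ⟨_, rfl⟩
  have hGg : g = G.comp (X - C k) := by
    rw [hG, comp_assoc]
    simp
  have hG0 : G ≠ 0 := by
    intro h
    rw [h, zero_comp] at hGg
    rw [hGg] at hg0
    simp at hg0
  have hGdeg : G.natDegree ≤ r + 1 := by
    rw [hG, natDegree_comp, natDegree_X_add_C, mul_one]
    exact hgdeg
  have hne : ∃ l, G.coeff l ≠ 0 := by
    by_contra hcon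
    push Not at hcon
    exact hG0 (ext fun l => by rw [hcon l, coeff_zero])
  classical
  obtain ⟨m, hm1, hm2⟩ : ∃ m, G.coeff m ≠ 0 ∧ ∀ l < m, G.coeff l = 0 := by
    refine ⟨Nat.find hne, Nat.find_spec hne, fun l hl => ?_⟩
    have := Nat.find_min hne hl
    push Not at this
    exact this
  refine ⟨m, ?_, ?_, ?_⟩
  · by_contra hcon
    have hm3 : m = r + 1 := by
      have : m ≤ G.natDegree := le_natDegree_of_ne_zero hm1
      omega
    have hGX : G = C (G.coeff (r + 1)) * X ^ (r + 1) := by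
      ext l
      rw [coeff_C_mul, coeff_X_pow]
      rcases lt_trichotomy l (r + 1) with h | h | h
      · rw [hm2 l (by omega), if_neg (by omega), mul_zero]
      · rw [h, if_pos rfl, mul_one]
      · rw [coeff_eq_zero_of_natDegree_lt (by omega), if_neg (by omega), mul_zero]
    have hb : G.coeff (r + 1) ≠ 0 := by
      rw [← hm3]
      exact hm1
    obtain ⟨b, hbdef⟩ : ∃ b, b = G.coeff (r + 1) := ⟨_, rfl⟩
    rw [← hbdef] at hGX hb
    have hgX : g = C b * (X - C k) ^ (r + 1) := by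
      rw [hGg, hGX]
      simp
    have he0 : b * (-k) ^ (r + 1) = 1 := by
      have h2 := hg0
      rw [coeff_zero_eq_eval_zero, hgX] at h2
      simpa using h2
    have he1 : b * ((r + 1 : ℕ) * (-k) ^ r) = 0 := by
      have h2 : g.derivative.coeff 0 = 0 := by
        rw [coeff_derivative, hg1, zero_mul]
      rw [coeff_zero_eq_eval_zero, hgX, derivative_C_mul, derivative_X_sub_C_pow] at h2
      simpa using h2
    have hr1 : ((r + 1 : ℕ) : IsLocalRing.ResidueField O) ≠ 0 := Nat.cast_ne_zero.mpr (by omega)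
    have hk0 : (-k) ^ r = 0 := by
      rcases mul_eq_zero.mp he1 with h | h
      · exact absurd h hb
      · rcases mul_eq_zero.mp h with h | h
        · exact absurd h hr1
        · exact h
    rw [pow_succ, hk0, zero_mul, mul_zero] at he0
    exact zero_ne_one he0
  · rw [hiff, ← hG]
    exact hm1
  · intro l hl
    rw [hiff, ← hG]
    exact hm2 l hl

end GC1
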