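import Pool.Agent.Work.MP_501976_gc.Interface

/-! SCL: the scaled curve. -/

universe u

open Polynomial

namespace GC1

theorem SCL_key {F F' : Type u} [Field F] [Field F'] [Algebra F F'] (g : F[X]) (m : ℕ)
    (hg : g.natDegree ≤ m) (a' : F') (h0 : algebraMap F F' (g.coeff 0) = a') (lam : F')
    (w : Fin m → F')
    (hw : ∀ l : Fin m, w l = algebraMap F F' (g.coeff ((l : ℕ) + 1)) * lam ^ ((l : ℕ) + 1)) :
    MP501976.ser a' w = (g.map (algebraMap F F')).comp (C lam * X) := by
  ext k
  rw [comp_C_mul_X_coeff, coeff_map]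
  rcases k with _ | k
  · rw [MP501976.ser_coeff_zero, h0, pow_zero, mul_one]
  · by_cases hk : k < m
    · have h1 := MP501976.ser_coeff_succ a' w ⟨k, hk⟩
      have h2 := hw ⟨k, hk⟩
      simp only at h1 h2
      rw [h1, h2]
    · rw [coeff_eq_zero_of_natDegree_lt
        (lt_of_le_of_lt (MP501976.ser_natDegree_le a' w) (by omega)),
        coeff_eq_zero_of_natDegree_lt (lt_of_le_of_lt hg (by omega)), map_zero, zero_mul]

theorem SCL_comp {F' : Type u} [Field F'] {M : ℕ} (g : Fin M → F'[X])
    (G : MvPolynomial (Fin M) F') (q : F'[X]) :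
    MvPolynomial.aeval (fun i => (g i).comp q) G = (MvPolynomial.aeval g G).comp q := by
  have h : ((MvPolynomial.aeval (fun i => (g i).comp q) :
      MvPolynomial (Fin M) F' →ₐ[F'] F'[X]).toRingHom) =
      (compRingHom q).comp ((MvPolynomial.aeval g :
        MvPolynomial (Fin M) F' →ₐ[F'] F'[X]).toRingHom) := by
    apply MvPolynomial.ringHom_ext
    · intro r
      simp
    · intro i
      simp
  exact congrArg (fun f => f G) h

theorem SCL_val {K₀ F F' : Type u} [Field K₀] [Field F] [Field F'] [Algebra K₀ F] [Algebra K₀ F']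
    [Algebra F F'] [IsScalarTower K₀ F F'] {M : ℕ} (f : Fin M → F[X])
    (G : MvPolynomial (Fin M) K₀) (q : F'[X]) :
    MvPolynomial.aeval (fun i => ((f i).map (algebraMap F F')).comp q)
      (MvPolynomial.map (algebraMap K₀ F') G) =
      ((MvPolynomial.aeval f (MvPolynomial.map (algebraMap K₀ F) G)).map
        (algebraMap F F')).comp q := by
  rw [SCL_comp (fun i => (f i).map (algebraMap F F')), MP501976.aeval_map, MvPolynomial.map_map,
    ← IsScalarTower.algebraMap_eq]

theorem SCL_inj {F F' : Type u} [Field F] [Field F'] [Algebra F F'] (lam : F') (hl : lam ≠ 0)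
    (g h : F[X]) (e : (g.map (algebraMap F F')).comp (C lam * X) =
      (h.map (algebraMap F F')).comp (C lam * X)) : g = h := by
  ext k
  have h1 := congrArg (fun p => p.coeff k) e
  simp only [comp_C_mul_X_coeff, coeff_map] at h1
  exact (algebraMap F F').injective (mul_right_cancel₀ (pow_ne_zero k hl) h1)

theorem p_SCL : Stmt_SCL.{u} := by
  intro K₀ F F' _ _ _ _ _ _ _ N c r s H f hf hT hf1 D δ n κ E d₁ d₂ S β hS v hv1 hv2 hv3 lam V hl
    hV
  obtain ⟨hd, h0, hH⟩ := hf
  have hcrv : ∀ i, crv V i = ((f i).map (algebraMap F F')).comp (C lam * X) := by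
    intro i
    unfold crv
    refine SCL_key (f i) (r + 1) (hd i) _ ?_ lam _ ?_
    · rw [h0 i, ← IsScalarTower.algebraMap_apply]
      unfold e1
      by_cases hi : i = 0
      · subst hi
        simp
      · rw [Pi.single_eq_of_ne hi, map_zero, if_neg hi]
    · intro l
      rw [hV, hv1]
      rfl
  have hcS : ∀ b, cS V b = ((S b).map (algebraMap F F')).comp (C lam * X) := by
    intro b
    unfold cS
    refine SCL_key (S b) (δ b) (hS b).1 _ ?_ lam _ ?_
    · rw [(hS b).2.2.1, map_one]
    · intro l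
      rw [hV, hv2]
      rfl
  have hcB : ∀ b, cB V b = ((β b).map (algebraMap F F')).comp (C lam * X) := by
    intro b
    unfold cB
    refine SCL_key (β b) (n b) (hS b).2.1 _ ?_ lam _ ?_
    · rw [(hS b).2.2.2.1, map_one]
    · intro l
      rw [hV, hv3]
      rfl
  have hcrv' : (crv V : Fin (N + 1) → F'[X]) =
      fun i => ((f i).map (algebraMap F F')).comp (C lam * X) := funext hcrv
  refine ⟨⟨?_, ?_, ?_⟩, ?_, ?_, ?_⟩
  · intro i
    exact MP501976.ser_natDegree_le _ _
  · intro i
    rw [hcrv i, coeff_zero_eq_eval_zero, eval_comp, eval_mul, eval_X, mul_zero,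
      ← coeff_zero_eq_eval_zero, coeff_map, h0 i, ← IsScalarTower.algebraMap_apply]
  · intro j
    rw [hcrv', SCL_val, hH j, Polynomial.map_zero, zero_comp]
  · intro hTr
    apply hT
    intro i
    apply SCL_inj lam hl
    have h1 := hTr i
    rw [hcrv i, hcrv 0] at h1
    rw [Polynomial.map_mul, Polynomial.map_mul, map_C, map_C, mul_comp, mul_comp, C_comp, C_comp,
      ← IsScalarTower.algebraMap_apply, ← IsScalarTower.algebraMap_apply]
    exact h1
  · rw [hcrv 0, comp_C_mul_X_coeff, coeff_map, hf1, map_zero, zero_mul]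
  · intro b
    rw [hcrv', SCL_val, (hS b).2.2.2.2, hcS b, hcB b, Polynomial.map_mul, Polynomial.map_mul,
      Polynomial.map_pow, map_C, mul_comp, mul_comp, pow_comp, C_comp,
      ← IsScalarTower.algebraMap_apply]

end GC1
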