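import Pool.Agent.Work.MP_501976_gc.Interface

/-!
# THEOREM GC, block SHP: the shape of a branch polynomial along the transformed curve
-/

universe u v

open Polynomial

namespace GC1

theorem SHP_C {F : Type u} [Field F] (a κ : F) (k : ℕ) (g : F[X]) :
    mob a k (C κ * g) = C κ * mob a k g := by
  unfold mob
  rw [Finset.mul_sum]
  refine Finset.sum_congr rfl fun l _ => ?_
  rw [coeff_C_mul, C_mul]
  ring

theorem SHP_one {F : Type u} [Field F] (a : F) : mob a 0 (1 : F[X]) = 1 := by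
  unfold mob
  simp

theorem SHP_pow (hMOB : Stmt_MOB.{u}) {F : Type u} [Field F] (a : F) (n q : ℕ) (β : F[X])
    (hβ : β.natDegree ≤ n) : mob a (q * n) (β ^ q) = mob a n β ^ q := by
  induction q with
  | zero =>
    rw [Nat.zero_mul, pow_zero, pow_zero, SHP_one]
  | succ q ih =>
    rw [Nat.succ_mul, pow_succ, pow_succ,
      (hMOB F a (q * n) (β ^ q) (natDegree_pow_le_of_le q hβ)).2.2.2.2 n β hβ, ih]

theorem p_SHP (hMOB : Stmt_MOB.{u}) (hMOH : Stmt_MOH.{u}) : Stmt_SHP.{u} := by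
  intro F _ N p e δ q n D f S β κ a hD hf hS hβ hpe hev
  rw [hMOH F N p e D f a hD hf, hev, hpe, SHP_C,
    (hMOB F a δ S hS).2.2.2.2 (q * n) (β ^ q) (natDegree_pow_le_of_le q hβ),
    SHP_pow hMOB a n q β hβ]

end GC1
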