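import Pool.Agent.Work.MP_501976_gc.Interface

/-!
# Block SLI: normalisation of the linear coefficient
-/

universe u

open Polynomial

namespace GC1

theorem SLI_mob_zero {F : Type u} [Field F] (a : F) (e : ℕ) : mob a e (0 : F[X]) = 0 := by
  unfold mob
  refine Finset.sum_eq_zero fun l _ => ?_
  rw [coeff_zero, C_0, zero_mul, zero_mul]

theorem SLI_coeff_mem {K₀ F : Type u} [Field K₀] [Field F] [Algebra K₀ F]
    (L : IntermediateField K₀ F) (a : F) (ha : a ∈ L) (e : ℕ) (g : F[X])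
    (hg : ∀ l, g.coeff l ∈ L) (n : ℕ) : (mob a e g).coeff n ∈ L := by
  have key : mob a e g ∈ Polynomial.lifts (algebraMap L F) := by
    unfold mob
    refine Subsemiring.sum_mem _ fun l _ => ?_
    refine Subsemiring.mul_mem _ (Subsemiring.mul_mem _ ?_ ?_) ?_
    · exact C'_mem_lifts ⟨⟨_, hg l⟩, rfl⟩
    · exact Subsemiring.pow_mem _ (X_mem_lifts _) _
    · refine Subsemiring.pow_mem _ (Subsemiring.add_mem _ (Subsemiring.one_mem _)
        (Subsemiring.mul_mem _ ?_ (X_mem_lifts _))) _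
      exact C'_mem_lifts ⟨⟨a, ha⟩, rfl⟩
  obtain ⟨x, hx⟩ := (Polynomial.lifts_iff_coeff_lifts _).1 key n
  rw [← hx]
  exact x.2

theorem p_SLI (hMOB : Stmt_MOB.{u}) (hMOH : Stmt_MOH.{u}) (hIDP : Stmt_IDP.{u}) :
    Stmt_SLI.{u} := by
  intro K₀ F _ _ _ _ N c H d hH r c' f hf hT hI
  obtain ⟨hdeg, hf0, hfH⟩ := hf
  have hchar : CharZero F := charZero_of_injective_algebraMap (algebraMap K₀ F).injective
  have h00 : (f 0).coeff 0 = 1 := by
    rw [hf0 0]
    unfold e1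
    rw [Pi.single_eq_same, map_one]
  obtain ⟨a, ha⟩ : ∃ a : F, a = -(f 0).coeff 1 / ((r + 1 : ℕ) : F) := ⟨_, rfl⟩
  have hr : ((r + 1 : ℕ) : F) ≠ 0 := Nat.cast_ne_zero.2 (Nat.succ_ne_zero r)
  have hback : ∀ i, mob (-a) (r + 1) (mob a (r + 1) (f i)) = f i := fun i =>
    (hMOB F a (r + 1) (f i) (hdeg i)).2.2.2.1
  refine ⟨a, ⟨fun i => (hMOB F a (r + 1) (f i) (hdeg i)).1, fun i => ?_, fun j => ?_⟩, ?_, ?_, ?_⟩
  · rw [(hMOB F a (r + 1) (f i) (hdeg i)).2.1]
    exact hf0 i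
  · rw [hMOH F (N + 1) (d j) (r + 1) (MvPolynomial.map (algebraMap K₀ F) (H j)) f a
      ((hH j).map (algebraMap K₀ F)) hdeg, hfH j, SLI_mob_zero]
  · intro hT'
    refine hT fun i => ?_
    by_cases hi : i = 0
    · rw [hi]
    · have hpi : e1 K₀ N i = 0 := by
        unfold e1
        exact Pi.single_eq_of_ne hi 1
      have hp0 : e1 K₀ N 0 = 1 := by
        unfold e1
        exact Pi.single_eq_same 0 1
      have h1 : C (algebraMap K₀ F (e1 K₀ N 0)) * mob a (r + 1) (f i) =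
          C (algebraMap K₀ F (e1 K₀ N i)) * mob a (r + 1) (f 0) := hT' i
      rw [hpi, hp0, map_zero, map_one, C_0, C_1, zero_mul, one_mul] at h1
      have h2 : f i = 0 := by
        rw [← hback i, h1, SLI_mob_zero]
      rw [h2, hpi, map_zero, C_0, zero_mul, mul_zero]
  · rw [(hMOB F a (r + 1) (f 0) (hdeg 0)).2.2.1, h00, mul_one, ha, mul_div_cancel₀ _ hr]
    exact add_neg_cancel _
  · refine (hIDP K₀ F).2 _ a c' ((hIDP K₀ F).1 (coefs f) _ ?_ (c' + 1) hI)
    rintro z ⟨i, l, rfl⟩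
    rw [← hback i]
    refine SLI_coeff_mem _ _ (neg_mem ?_) _ _ (fun l' => ?_) l
    · exact IntermediateField.subset_adjoin K₀ _ (Set.mem_insert _ _)
    · exact IntermediateField.subset_adjoin K₀ _ (Set.mem_insert_of_mem _ ⟨i, l', rfl⟩)

end GC1
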