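import Pool.Agent.Work.MP_501976_gc.Interface

/-!
# Block TRD: adjoining new independent elements
-/

set_option autoImplicit false

universe u v

open Polynomial

namespace GC1

theorem p_TRD : Stmt_TRD.{u} := by
  intro K₀ F _ _ _ τ _ S c' hS
  obtain ⟨a, haS, ha⟩ := hS
  refine ⟨FractionRing (MvPolynomial τ F), inferInstance, inferInstance, inferInstance,
    inferInstance, fun t => algebraMap (MvPolynomial τ F) (FractionRing (MvPolynomial τ F))
      (MvPolynomial.X t), ?_⟩
  have h1 : AlgebraicIndependent F (fun t => algebraMap (MvPolynomial τ F)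
      (FractionRing (MvPolynomial τ F)) (MvPolynomial.X t)) := by
    have h2 := (MvPolynomial.algebraicIndependent_X τ F).map' (f := IsScalarTower.toAlgHom F
      (MvPolynomial τ F) (FractionRing (MvPolynomial τ F)))
      (IsFractionRing.injective (MvPolynomial τ F) (FractionRing (MvPolynomial τ F)))
    exact h2
  have h3 := ha.sumElim_comp h1
  have e : Fin (c' + Fintype.card τ) ≃ τ ⊕ Fin c' :=
    (finSumFinEquiv.symm.trans (Equiv.sumComm _ _)).trans
      (Equiv.sumCongr (Fintype.equivFin τ).symm (Equiv.refl _))
  refine ⟨_, ?_, h3.comp e e.injective⟩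
  intro i
  change Sum.elim _ _ (e i) ∈ _
  rcases e i with t | l
  · exact Or.inr ⟨t, rfl⟩
  · exact Or.inl ⟨a l, haS l, rfl⟩

end GC1
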