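import Mathlib
import Pool.Agent.Work.MP_501976_gc.Interface

universe u v

open Polynomial

namespace GC1

/-- The linear forms of the change of coordinates. -/
noncomputable def TRL_T {K₀ : Type u} [Field K₀] {N : ℕ} (x : Fin (N + 1) → K₀)
    (i : Fin (N + 1)) : MvPolynomial (Fin (N + 1)) K₀ :=
  if i = 0 then MvPolynomial.C (x 0) * MvPolynomial.X 0
  else MvPolynomial.X i + MvPolynomial.C (x i) * MvPolynomial.X 0

/-- The transformed curve. -/
noncomputable def TRL_up {K₀ F : Type u} [Field K₀] [Field F] [Algebra K₀ F] {N : ℕ}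
    (x : Fin (N + 1) → K₀) (g : Fin (N + 1) → F[X]) (i : Fin (N + 1)) : F[X] :=
  if i = 0 then C (algebraMap K₀ F (x 0)) * g 0 else g i + C (algebraMap K₀ F (x i)) * g 0

/-- The inverse transformation. -/
noncomputable def TRL_dn {K₀ F : Type u} [Field K₀] [Field F] [Algebra K₀ F] {N : ℕ}
    (x : Fin (N + 1) → K₀) (f : Fin (N + 1) → F[X]) (i : Fin (N + 1)) : F[X] :=
  if i = 0 then C (algebraMap K₀ F (x 0)⁻¹) * f 0
  else f i - C (algebraMap K₀ F (x i)) * (C (algebraMap K₀ F (x 0)⁻¹) * f 0)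

theorem TRL_up_dn {K₀ F : Type u} [Field K₀] [Field F] [Algebra K₀ F] {N : ℕ}
    (x : Fin (N + 1) → K₀) (hx : x 0 ≠ 0) (f : Fin (N + 1) → F[X]) :
    TRL_up x (TRL_dn x f) = f := by
  funext i
  by_cases hi : i = 0
  · subst hi
    simp only [TRL_up, TRL_dn, if_true]
    rw [← mul_assoc, ← C_mul, ← map_mul, mul_inv_cancel₀ hx, map_one, C_1, one_mul]
  · simp only [TRL_up, TRL_dn, if_neg hi, if_true]
    ring

theorem TRL_key {K₀ F : Type u} [Field K₀] [Field F] [Algebra K₀ F] {N : ℕ}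
    (x : Fin (N + 1) → K₀) (g : Fin (N + 1) → F[X]) (G : MvPolynomial (Fin (N + 1)) K₀) :
    MvPolynomial.aeval g
      (MvPolynomial.map (algebraMap K₀ F) (MvPolynomial.bind₁ (TRL_T x) G)) =
      MvPolynomial.aeval (TRL_up x g) (MvPolynomial.map (algebraMap K₀ F) G) := by
  rw [MvPolynomial.map_bind₁, MvPolynomial.aeval_bind₁]
  have : (fun i => MvPolynomial.aeval g (MvPolynomial.map (algebraMap K₀ F) (TRL_T x i))) =
      TRL_up x g := by
    funext i
    by_cases hi : i = 0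
    · subst hi
      simp [TRL_T, TRL_up]
    · simp [TRL_T, TRL_up, hi]
  rw [this]

theorem TRL_eval {K₀ : Type u} [Field K₀] {N : ℕ}
    (x : Fin (N + 1) → K₀) (G : MvPolynomial (Fin (N + 1)) K₀) :
    MvPolynomial.eval (e1 K₀ N) (MvPolynomial.bind₁ (TRL_T x) G) = MvPolynomial.eval x G := by
  have h : MvPolynomial.aeval (e1 K₀ N) (MvPolynomial.bind₁ (TRL_T x) G) =
      MvPolynomial.aeval x G := by
    rw [MvPolynomial.aeval_bind₁]
    have : (fun i => MvPolynomial.aeval (e1 K₀ N) (TRL_T x i)) = x := by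
      funext i
      by_cases hi : i = 0
      · subst hi
        simp [TRL_T, e1]
      · simp [TRL_T, e1, hi]
    rw [this]
  rw [← MvPolynomial.coe_aeval_eq_eval, ← MvPolynomial.coe_aeval_eq_eval]
  exact h

theorem TRL_hom {K₀ : Type u} [Field K₀] {N : ℕ} (x : Fin (N + 1) → K₀)
    (G : MvPolynomial (Fin (N + 1)) K₀) (d : ℕ) (hG : G.IsHomogeneous d) :
    (MvPolynomial.bind₁ (TRL_T x) G).IsHomogeneous d := by
  have h : ∀ i, (TRL_T x i).IsHomogeneous 1 := by
    intro i
    have h0 : ∀ a : K₀, (MvPolynomial.C a * MvPolynomial.X 0 :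
        MvPolynomial (Fin (N + 1)) K₀).IsHomogeneous 1 := by
      intro a
      have := (MvPolynomial.isHomogeneous_C (Fin (N + 1)) a).mul
        (MvPolynomial.isHomogeneous_X K₀ (0 : Fin (N + 1)))
      rwa [zero_add] at this
    unfold TRL_T
    split_ifs
    · exact h0 _
    · exact (MvPolynomial.isHomogeneous_X K₀ i).add (h0 _)
  have := hG.aeval (TRL_T x) h
  rwa [one_mul] at this

theorem TRL_curve_up {K₀ F : Type u} [Field K₀] [Field F] [Algebra K₀ F] {N c : ℕ}
    (H : Fin c → MvPolynomial (Fin (N + 1)) K₀) (x : Fin (N + 1) → K₀) (e : ℕ)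
    (g : Fin (N + 1) → F[X])
    (h : IsCurve (fun j => MvPolynomial.bind₁ (TRL_T x) (H j)) (e1 K₀ N) e g) :
    IsCurve H x e (TRL_up x g) := by
  obtain ⟨h1, h2, h3⟩ := h
  refine ⟨?_, ?_, ?_⟩
  · intro i
    unfold TRL_up
    split_ifs
    · exact (natDegree_C_mul_le _ _).trans (h1 0)
    · exact (natDegree_add_le _ _).trans
        (max_le (h1 i) ((natDegree_C_mul_le _ _).trans (h1 0)))
  · intro i
    have h20 : (g 0).coeff 0 = 1 := by
      rw [h2 0]
      simp [e1]
    by_cases hi : i = 0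
    · subst hi
      simp only [TRL_up, if_true]
      rw [coeff_C_mul, h20, mul_one]
    · have h2i : (g i).coeff 0 = 0 := by
        rw [h2 i]
        simp [e1, hi]
      simp only [TRL_up, if_neg hi]
      rw [coeff_add, coeff_C_mul, h20, h2i, mul_one, zero_add]
  · intro j
    rw [← TRL_key]
    exact h3 j

theorem TRL_curve_dn {K₀ F : Type u} [Field K₀] [Field F] [Algebra K₀ F] {N c : ℕ}
    (H : Fin c → MvPolynomial (Fin (N + 1)) K₀) (x : Fin (N + 1) → K₀) (hx : x 0 ≠ 0) (e : ℕ)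
    (f : Fin (N + 1) → F[X]) (h : IsCurve H x e f) :
    IsCurve (fun j => MvPolynomial.bind₁ (TRL_T x) (H j)) (e1 K₀ N) e (TRL_dn x f) := by
  obtain ⟨h1, h2, h3⟩ := h
  refine ⟨?_, ?_, ?_⟩
  · intro i
    unfold TRL_dn
    split_ifs
    · exact (natDegree_C_mul_le _ _).trans (h1 0)
    · refine (natDegree_sub_le _ _).trans (max_le (h1 i) ?_)
      exact (natDegree_C_mul_le _ _).trans ((natDegree_C_mul_le _ _).trans (h1 0))
  · intro i
    by_cases hi : i = 0
    · subst hi
      simp only [TRL_dn, if_true]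
      rw [coeff_C_mul, h2 0, ← map_mul, inv_mul_cancel₀ hx]
      simp [e1]
    · simp only [TRL_dn, if_neg hi]
      rw [coeff_sub, coeff_C_mul, coeff_C_mul, h2 0, h2 i, ← map_mul, ← map_mul,
        inv_mul_cancel₀ hx, mul_one, sub_self]
      simp [e1, hi]
  · intro j
    rw [TRL_key, TRL_up_dn x hx]
    exact h3 j

theorem TRL_triv {K₀ F : Type u} [Field K₀] [Field F] [Algebra K₀ F] {N : ℕ}
    (x : Fin (N + 1) → K₀) (hx : x 0 ≠ 0) (g : Fin (N + 1) → F[X]) :
    Triv x (TRL_up x g) ↔ Triv (e1 K₀ N) g := by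
  have hx' : C (algebraMap K₀ F (x 0)) ≠ 0 := by
    rw [Ne, C_eq_zero]
    exact (map_ne_zero_iff _ (algebraMap K₀ F).injective).mpr hx
  unfold Triv
  refine forall_congr' fun i => ?_
  by_cases hi : i = 0
  · subst hi
    simp
  · simp only [TRL_up, if_neg hi, if_true]
    have e1i : e1 K₀ N i = 0 := by simp [e1, hi]
    have e10 : e1 K₀ N 0 = 1 := by simp [e1]
    rw [e1i, e10, map_one, C_1, one_mul, map_zero, C_0, zero_mul]
    constructor
    · intro h
      have h2 : C (algebraMap K₀ F (x 0)) * g i = 0 := by linear_combination h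
      exact (mul_eq_zero.mp h2).resolve_left hx'
    · intro h
      rw [h]
      ring

theorem p_TRL (hCOR : Stmt_COR.{u}) (hIDP : Stmt_IDP.{u}) : Stmt_TRL.{u} := by
  intro K₀ _ _ N c H d hH x hx r hno F _ _ f hf hft c' hind s D p hD hDx δ n κ E μ d₁ d₂ hE hμ
    hδ hdeg S β hshp hsum
  have hf' := TRL_curve_dn H x hx (r + 1) f hf
  have hud := TRL_up_dn (F := F) x hx f
  have hgood := hCOR K₀ N c (fun j => MvPolynomial.bind₁ (TRL_T x) (H j)) d
    (fun j => TRL_hom x (H j) (d j) (hH j)) r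
    (by
      intro F₁ _ _ g hg
      exact (TRL_triv x hx g).mp (hno F₁ _ (TRL_curve_up H x r g hg)))
    F (TRL_dn x f) hf'
    (by
      intro h
      apply hft
      rw [← hud]
      exact (TRL_triv x hx _).mpr h)
    c'
    (by
      refine (hIDP K₀ F).1 (coefs f) (coefs (TRL_dn x f)) ?_ (c' + 1) hind
      rintro z ⟨i, l, rfl⟩
      have hmem : ∀ i l, (TRL_dn x f i).coeff l ∈
          IntermediateField.adjoin K₀ (coefs (TRL_dn x f)) := fun i l =>
        IntermediateField.subset_adjoin _ _ ⟨i, l, rfl⟩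
      have hfi : f i = TRL_up x (TRL_dn x f) i := by rw [hud]
      rw [hfi]
      unfold TRL_up
      split_ifs
      · rw [coeff_C_mul]
        exact mul_mem (IntermediateField.algebraMap_mem _ _) (hmem _ _)
      · rw [coeff_add, coeff_C_mul]
        exact add_mem (hmem _ _) (mul_mem (IntermediateField.algebraMap_mem _ _) (hmem _ _)))
    s (fun b => MvPolynomial.bind₁ (TRL_T x) (D b)) p
    (fun b => TRL_hom x (D b) (p b) (hD b))
    (by
      intro b
      rw [TRL_eval]
      exact hDx b)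
    δ n κ E μ d₁ d₂ hE hμ hδ hdeg S β
    (by
      intro b
      obtain ⟨h1, h2, h3, h4, h5⟩ := hshp b
      refine ⟨h1, h2, h3, h4, ?_⟩
      rw [TRL_key, hud, TRL_eval]
      exact h5)
    hsum
  obtain ⟨Ω, i1, i2, i3, g, hg, hgt, ⟨g₀, h₁, h₂, a1, a2, a3, a4, a5⟩, hq⟩ := hgood
  refine ⟨Ω, i1, i2, i3, TRL_up x g, TRL_curve_up H x (r + 1) g hg, ?_,
    ⟨g₀, h₁, h₂, a1, a2, a3, a4, ?_⟩, ?_⟩
  · intro h
    exact hgt ((TRL_triv x hx g).mp h)
  · rw [← TRL_key, ← TRL_eval]
    exact a5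
  · intro b
    obtain ⟨Q, hQ⟩ := hq b
    refine ⟨Q, ?_⟩
    rw [← TRL_key, ← TRL_eval]
    exact hQ

end GC1
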