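import Pool.Agent.Work.MP_501976_gc.Interface

set_option autoImplicit false

universe u

open Polynomial

namespace GC1

theorem UNI_crv {K₀ A : Type u} [Field K₀] [Field A] [Algebra K₀ A] {N r s : ℕ}
    {δ n κ : Fin (s + 1) → ℕ} {d₁ d₂ : ℕ} (y : SS N r s δ n κ d₁ d₂ → A)
    (hy : ∀ a, y (Sum.inl a) = 0) :
    crv y = fun i => (C (algebraMap K₀ A (e1 K₀ N i)) : A[X]) := by
  funext i
  rw [crv]
  have h1 : (fun l : Fin (r + 1) => y (Sum.inl (i, l))) = fun _ => (0 : A) := by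
    funext l
    exact hy _
  rw [h1, MP501976.ser_zero]
  congr 1
  rw [e1]
  by_cases hi : i = 0
  · subst hi
    simp
  · rw [if_neg hi, Pi.single_eq_of_ne hi, map_zero]

theorem UNI_aev {K₀ A : Type u} [Field K₀] [Field A] [Algebra K₀ A] {N r s : ℕ}
    {δ n κ : Fin (s + 1) → ℕ} {d₁ d₂ : ℕ} (y : SS N r s δ n κ d₁ d₂ → A)
    (hy : ∀ a, y (Sum.inl a) = 0) (D : MvPolynomial (Fin (N + 1)) K₀) :
    MvPolynomial.aeval (crv y) (MvPolynomial.map (algebraMap K₀ A) D) =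
      C (algebraMap K₀ A (MvPolynomial.eval (e1 K₀ N) D)) := by
  rw [UNI_crv (K₀ := K₀) y hy, MP501976.aeval_const (fun i => algebraMap K₀ A (e1 K₀ N i)),
    MvPolynomial.eval_map, MvPolynomial.eval₂_comp]
  rfl

theorem UNI_ser {A : Type u} [Field A] {n : ℕ} (v : Fin n → A)
    (h : IsUnit (MP501976.ser 1 v)) (l : Fin n) : v l = 0 :=
  MP501976.ser_eq_zero_of_natDegree 1 v (natDegree_eq_zero_of_isUnit h) l

theorem p_UNI : Stmt_UNI.{u} := by
  intro K₀ A _ _ _ N r s D δ n κ E μ d₁ d₂ hE hμ hD y h1 h2 hy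
  -- the product is one
  have h3 : ∀ b, cS y b * cB y b ^ E b = 1 := by
    intro b
    have h4 := h1 b
    rw [UNI_aev y hy] at h4
    have h5 : (C (algebraMap K₀ A (MvPolynomial.eval (e1 K₀ N) (D b))) : A[X]) ≠ 0 := by
      rw [Ne, C_eq_zero]
      intro h6
      exact hD b ((map_eq_zero (algebraMap K₀ A)).mp h6)
    have h6 : (C (algebraMap K₀ A (MvPolynomial.eval (e1 K₀ N) (D b))) : A[X]) *
        (cS y b * cB y b ^ E b) =
        C (algebraMap K₀ A (MvPolynomial.eval (e1 K₀ N) (D b))) * 1 := by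
      rw [mul_one]
      exact h4.symm
    exact mul_left_cancel₀ h5 h6
  have hS : ∀ b, IsUnit (cS y b) := fun b => IsUnit.of_mul_eq_one _ (h3 b)
  have hB : ∀ b, IsUnit (cB y b) := by
    intro b
    have h4 : IsUnit (cB y b ^ E b) := by
      refine IsUnit.of_mul_eq_one (cS y b) ?_
      rw [mul_comm]
      exact h3 b
    exact (isUnit_pow_iff (hE b).ne').mp h4
  have hF : ∀ b, IsUnit (fac E μ y b) := fun b => (h2 b) ▸ (hS b)
  have hG : ∀ b, IsUnit (cG y b) := by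
    intro b
    have h4 := hF b
    rw [fac] at h4
    exact (isUnit_pow_iff (hE b).ne').mp (isUnit_of_mul_isUnit_left h4)
  have hH : IsUnit (cH₁ y * cH₂ y ^ 2) := by
    have h4 := hF 0
    rw [fac, if_pos rfl] at h4
    exact (isUnit_pow_iff hμ.ne').mp (isUnit_of_mul_isUnit_right h4)
  have hH1 : IsUnit (cH₁ y) := isUnit_of_mul_isUnit_left hH
  have hH2 : IsUnit (cH₂ y) :=
    (isUnit_pow_iff two_ne_zero).mp (isUnit_of_mul_isUnit_right hH)
  intro t
  rcases t with a | ⟨b, l⟩ | ⟨b, l⟩ | ⟨b, l⟩ | l | l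
  · exact hy a
  · exact UNI_ser (fun l : Fin (δ b) => y (Sum.inr (Sum.inl ⟨b, l⟩))) (hS b) l
  · exact UNI_ser (fun l : Fin (n b) => y (Sum.inr (Sum.inr (Sum.inl ⟨b, l⟩)))) (hB b) l
  · exact UNI_ser (fun l : Fin (κ b) => y (Sum.inr (Sum.inr (Sum.inr (Sum.inl ⟨b, l⟩)))))
      (hG b) l
  · exact UNI_ser (fun l : Fin d₁ =>
      y (Sum.inr (Sum.inr (Sum.inr (Sum.inr (Sum.inl l)))))) hH1 l
  · exact UNI_ser (fun l : Fin d₂ =>
      y (Sum.inr (Sum.inr (Sum.inr (Sum.inr (Sum.inr l)))))) hH2 l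

end GC1
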