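import Pool.Agent.Work.MP_501976_gc.Interface

set_option autoImplicit false

universe u v

open Polynomial

namespace GC1

theorem UNS_mul {F : Type u} [Field F] (O : ValuationSubring F) {a b : F} (ha : a ∈ O)
    (hb : b ∈ O.nonunits) : b * a ∈ O.nonunits := by
  rw [ValuationSubring.mem_nonunits_iff] at hb ⊢
  rw [← O.valuation_le_one_iff] at ha
  rw [map_mul]
  exact lt_of_le_of_lt (mul_le_of_le_one_right' ha) hb

theorem UNS_factor {F : Type u} [Field F] (f : F[X]) (ρ : F) (h : f.eval ρ = 0) (hρ : ρ ≠ 0) :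
    ∃ g : F[X], f = (1 - C ρ⁻¹ * X) * g ∧ g.natDegree = f.natDegree - 1 := by
  refine ⟨C (-ρ) * (f /ₘ (X - C ρ)), ?_, ?_⟩
  · have h1 : (X - C ρ) * (f /ₘ (X - C ρ)) = f := (mul_divByMonic_eq_iff_isRoot).2 h
    have h2 : (1 - C ρ⁻¹ * X) * C (-ρ) = X - C ρ := by
      have h3 : (C ρ⁻¹ : F[X]) * C ρ = 1 := by
        rw [← C_mul, inv_mul_cancel₀ hρ, C_1]
      rw [C_neg]
      linear_combination (X : F[X]) * h3
    rw [← mul_assoc, h2, h1]
  · rw [natDegree_C_mul (neg_ne_zero.mpr hρ), natDegree_divByMonic _ (monic_X_sub_C ρ), natDegree_X_sub_C]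

theorem UNS_coeff0 {F : Type u} [Field F] (g : F[X]) (b : F) :
    ((1 - C b * X) * g).coeff 0 = g.coeff 0 := by
  rw [sub_mul, one_mul, coeff_sub, mul_assoc, coeff_C_mul, mul_coeff_zero, coeff_X_zero, zero_mul, mul_zero, sub_zero]

/-- Coefficients of the powers. -/
theorem UNS_pow {F : Type u} [Field F] (O : ValuationSubring F) {ρ : F} (hρ : ρ ∈ O) (l n : ℕ) :
    ((X + C ρ) ^ l : F[X]).coeff n ∈ O := by
  have h : ((X + C ρ) ^ l : F[X]) = ((X + C (⟨ρ, hρ⟩ : O)) ^ l : (O : Type u)[X]).map (algebraMap O F) := by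
    rw [Polynomial.map_pow, Polynomial.map_add, map_X, map_C]
    rfl
  rw [h, coeff_map]
  exact SetLike.coe_mem _

theorem UNS_comp {F : Type u} [Field F] (f : F[X]) (ρ : F) (n : ℕ) :
    (f.comp (X + C ρ)).coeff n = ∑ l ∈ f.support, f.coeff l * ((X + C ρ) ^ l : F[X]).coeff n := by
  rw [comp_eq_sum_left, Polynomial.sum, finsetSum_coeff]
  exact Finset.sum_congr rfl fun l _ => by rw [coeff_C_mul]

theorem UNS_compO {F : Type u} [Field F] (O : ValuationSubring F) {ρ : F} (hρ : ρ ∈ O) (f : F[X])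
    (hf : ∀ l, f.coeff l ∈ O) (n : ℕ) : (f.comp (X + C ρ)).coeff n ∈ O := by
  rw [UNS_comp]
  exact sum_mem fun l _ => mul_mem (hf l) (UNS_pow O hρ l n)

theorem UNS_compN {F : Type u} [Field F] (O : ValuationSubring F) {ρ : F} (hρ : ρ ∈ O) (f : F[X])
    (hf : ∀ l, f.coeff l ∈ O.nonunits) (n : ℕ) : (f.comp (X + C ρ)).coeff n ∈ O.nonunits := by
  rw [UNS_comp]
  exact sum_mem fun l _ => UNS_mul O (UNS_pow O hρ l n) (hf l)

theorem UNS_aeval {F : Type u} [Field F] {N : ℕ} (H : MvPolynomial (Fin (N + 1)) F) (f : Fin (N + 1) → F[X])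
    (q : F[X]) : MvPolynomial.aeval (fun i => (f i).comp q) H = (MvPolynomial.aeval f H).comp q := by
  have h := MvPolynomial.comp_aeval_apply f (Polynomial.aeval q : F[X] →ₐ[F] F[X]) H
  exact h.symm

theorem p_UNS (hZIN : Stmt_ZIN.{u}) (hROO : Stmt_ROO.{u}) : Stmt_UNS.{u} := by
  intro K₀ F _ _ _ _ _ O hK N c H d hH r hno f hf hnt hf1 hfO hfN hex
  -- the structure maps
  let ι : K₀ →+* O := (algebraMap K₀ F).codRestrict O hK
  have hι : (algebraMap O F).comp ι = algebraMap K₀ F := RingHom.ext fun a => rfl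
  let _ : Algebra K₀ (IsLocalRing.ResidueField O) := ((IsLocalRing.residue O).comp ι).toAlgebra
  have hres : algebraMap K₀ (IsLocalRing.ResidueField O) = (IsLocalRing.residue O).comp ι := rfl
  have : CharZero (IsLocalRing.ResidueField O) :=
    charZero_of_injective_algebraMap (algebraMap K₀ (IsLocalRing.ResidueField O)).injective
  obtain ⟨hf_deg, hf_c0, hf_eq⟩ := hf
  have he10 : e1 K₀ N 0 = 1 := by simp [e1]
  have he1i : ∀ i, i ≠ 0 → e1 K₀ N i = 0 := fun i hi => by simp [e1, hi]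
  have hf00 : (f 0).coeff 0 = 1 := by rw [hf_c0, he10, map_one]
  obtain ⟨ρ, hρ, hρ0, m, hm, hm1, hm2⟩ := hROO F O r (f 0) (hf_deg 0) hf00 hf1 (hfO 0) hex
  by_cases hcase : ∃ i, i ≠ 0 ∧ (f i).eval ρ ≠ 0
  · obtain ⟨i₀, hi₀, hi₀'⟩ := hcase
    have hz : ∀ i, ((f i).comp (X + C ρ)).coeff 0 = (f i).eval ρ := by
      intro i
      rw [coeff_zero_eq_eval_zero, eval_comp]
      simp
    obtain ⟨g, hg1, hg2, hg3, ⟨i₁, hi₁, hi₁'⟩, hg5⟩ := hZIN F O N c (fun j => MvPolynomial.map ι (H j)) d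
      (fun j => (hH j).map ι) m (fun i => (f i).comp (X + C ρ))
      (fun i l => UNS_compO O hρ (f i) (hfO i) l) (by rw [hz, hρ0]) hm2 hm1
      (fun i hi l => UNS_compN O hρ (f i) (hfN i hi) l) ⟨i₀, hi₀, by rw [hz]; exact hi₀'⟩
      (fun j => by
        rw [MvPolynomial.map_map, hι, UNS_aeval, hf_eq j, zero_comp])
    have hcurve : IsCurve H (e1 K₀ N) r g := by
      refine ⟨fun i => (hg1 i).trans hm, fun i => ?_, fun j => ?_⟩
      · by_cases hi : i = 0
        · rw [hi, hg2, he10, map_one]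
        · rw [hg3 i hi, he1i i hi, map_zero]
      · have h := hg5 j
        rw [MvPolynomial.map_map] at h
        rw [hres]
        exact h
    have htriv := hno (IsLocalRing.ResidueField O) g hcurve i₁
    rw [he10, he1i i₁ hi₁, map_one, map_zero, C_1, C_0, one_mul, zero_mul] at htriv
    exact hi₁' htriv
  · push Not at hcase
    have hall : ∀ i, (f i).eval ρ = 0 := by
      intro i
      by_cases hi : i = 0
      · rw [hi]
        exact hρ0
      · exact hcase i hi
    have hρne : ρ ≠ 0 := by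
      intro h
      rw [h, ← coeff_zero_eq_eval_zero, hf00] at hρ0
      exact one_ne_zero hρ0
    choose h hh1 hh2 using fun i => UNS_factor (f i) ρ (hall i) hρne
    have hfac : (1 - C ρ⁻¹ * X : F[X]) ≠ 0 := by
      intro h0
      have := congrArg (fun p : F[X] => p.coeff 0) h0
      simp at this
    have hcurve : IsCurve H (e1 K₀ N) r h := by
      refine ⟨fun i => ?_, fun i => ?_, fun j => ?_⟩
      · rw [hh2]
        have := hf_deg i
        omega
      · rw [← UNS_coeff0 (h i) ρ⁻¹, ← hh1, hf_c0]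
      · have h1 := hf_eq j
        have h2 := IX1.p_HOM F F[X] (N + 1) (fun _ => 1) (d j) (MvPolynomial.map (algebraMap K₀ F) (H j))
          ((hH j).map _) (1 - C ρ⁻¹ * X) h
        simp only [pow_one] at h2
        have h3 : f = fun i => (1 - C ρ⁻¹ * X) * h i := funext hh1
        rw [h3, h2] at h1
        rcases mul_eq_zero.mp h1 with h4 | h4
        · exact absurd h4 (pow_ne_zero _ hfac)
        · exact h4
    have htriv := hno F h hcurve
    apply hnt
    intro i
    have h1 := htriv i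
    rw [hh1 i, hh1 0]
    linear_combination (1 - C ρ⁻¹ * X) * h1

end GC1
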