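import Pool.Agent.Work.MP_501976_gc.Interface

/-!
# Block VAD: a valuation ring with given centre
-/

universe u v

open Polynomial

namespace GC1

theorem VAD_dom {K : Type u} [Field K] (A : Subring K) (P : Ideal A) [hP : P.IsPrime] :
    ∃ O : ValuationSubring K, A ≤ O.toSubring ∧ ∀ a : A, a ∈ P ↔ (a : K) ∈ O.nonunits := by
  obtain ⟨V, hV⟩ := (LocalSubring.ofPrime A P).exists_le_valuationSubring
  refine ⟨V, (LocalSubring.le_ofPrime A P).trans hV.1, ?_⟩
  intro a
  constructor
  · intro ha
    have hsub : A.subtype '' P ⊆ V.nonunits := by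
      rw [← V.image_maximalIdeal]
      refine .trans ?_ (Set.image_mono <| ((IsLocalRing.local_hom_TFAE _).out 0 2).mp hV.2)
      rw [← IsLocalization.AtPrime.map_eq_maximalIdeal P, Ideal.map_map]
      rintro _ ⟨a, ha, rfl⟩
      exact ⟨_, Ideal.mem_map_of_mem _ ha, rfl⟩
    exact hsub ⟨a, ha, rfl⟩
  · intro ha
    by_contra hn
    have hu : IsUnit (algebraMap A (LocalSubring.ofPrime A P).toSubring a) :=
      IsLocalization.map_units (M := P.primeCompl) (LocalSubring.ofPrime A P).toSubring ⟨a, hn⟩
    obtain ⟨b, hb⟩ := isUnit_iff_exists_inv.1 hu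
    have hb' : (a : K) * (b : K) = 1 := congrArg Subtype.val hb
    have hbV : (b : K) ∈ V := hV.1 b.2
    have haV : (a : K) ∈ V := (LocalSubring.le_ofPrime A P).trans hV.1 a.2
    rw [ValuationSubring.mem_nonunits_iff_exists_mem_maximalIdeal] at ha
    obtain ⟨ha1, ha2⟩ := ha
    have : IsUnit (⟨(a : K), ha1⟩ : V) :=
      isUnit_iff_exists_inv.2 ⟨⟨(b : K), hbV⟩, Subtype.ext hb'⟩
    exact (IsLocalRing.mem_maximalIdeal _).1 ha2 this

theorem p_VAD : Stmt_VAD.{u} := by
  intro K₀ F _ _ _ σ _ wt v q hq hker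
  obtain ⟨ι, hι, hιC, hinj⟩ : ∃ ι : F[X] →+* AlgebraicClosure (FractionRing F[X]),
      (∀ p, ι p = algebraMap (FractionRing F[X]) (AlgebraicClosure (FractionRing F[X]))
        (algebraMap F[X] (FractionRing F[X]) p)) ∧
      (∀ c, ι (C c) = algebraMap F (AlgebraicClosure (FractionRing F[X])) c) ∧
      Function.Injective ι := by
    refine ⟨(algebraMap (FractionRing F[X]) (AlgebraicClosure (FractionRing F[X]))).comp
        (algebraMap F[X] (FractionRing F[X])), fun _ => rfl, ?_, ?_⟩
    · intro c
      rw [RingHom.comp_apply, IsScalarTower.algebraMap_apply F (FractionRing F[X])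
        (AlgebraicClosure (FractionRing F[X])),
        IsScalarTower.algebraMap_apply F F[X] (FractionRing F[X])]
      rfl
    · exact (algebraMap (FractionRing F[X]) (AlgebraicClosure (FractionRing F[X]))).injective.comp
        (IsFractionRing.injective F[X] (FractionRing F[X]))
  have tow : IsScalarTower K₀ F (AlgebraicClosure (FractionRing F[X])) := by
    refine IsScalarTower.of_algebraMap_eq fun x => ?_
    rw [IsScalarTower.algebraMap_apply K₀ (FractionRing F[X])
      (AlgebraicClosure (FractionRing F[X])), IsScalarTower.algebraMap_apply F (FractionRing F[X])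
      (AlgebraicClosure (FractionRing F[X])), ← IsScalarTower.algebraMap_apply K₀ F
      (FractionRing F[X])]
  have hev : ∀ G : MvPolynomial σ K₀,
      MvPolynomial.aeval (fun τ => algebraMap F (AlgebraicClosure (FractionRing F[X])) (v τ) *
        (ι X) ^ wt τ) G = ι (MvPolynomial.aeval (fun τ => (C (v τ) * X ^ wt τ : F[X])) G) := by
    intro G
    induction G using MvPolynomial.induction_on with
    | C a =>
      rw [MvPolynomial.aeval_C, MvPolynomial.aeval_C,
        IsScalarTower.algebraMap_apply K₀ F F[X], Polynomial.algebraMap_eq, hιC]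
      rfl
    | add p q hp hq => rw [map_add, map_add, map_add, hp, hq]
    | mul_X p i hp =>
      rw [map_mul, map_mul, map_mul, hp, MvPolynomial.aeval_X, MvPolynomial.aeval_X, map_mul,
        map_pow, hιC]
  obtain ⟨φ, hφ⟩ : ∃ φ : MvPolynomial σ K₀ →ₐ[K₀] AlgebraicClosure (FractionRing F[X]),
      φ = MvPolynomial.aeval (fun τ => algebraMap F (AlgebraicClosure (FractionRing F[X])) (v τ) *
        (ι X) ^ wt τ) := ⟨_, rfl⟩
  have hk : RingHom.ker φ.toRingHom.rangeRestrict ≤ q := by
    intro G hG
    apply hker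
    apply hinj
    rw [map_zero, ← hev, ← hφ]
    exact congrArg Subtype.val (RingHom.mem_ker.1 hG)
  have hsurj : Function.Surjective φ.toRingHom.rangeRestrict := φ.toRingHom.rangeRestrict_surjective
  haveI : (Ideal.map φ.toRingHom.rangeRestrict q).IsPrime :=
    Ideal.map_isPrime_of_surjective hsurj hk
  obtain ⟨O, hAO, hO⟩ := VAD_dom φ.toRingHom.range (Ideal.map φ.toRingHom.rangeRestrict q)
  refine ⟨AlgebraicClosure (FractionRing F[X]), inferInstance, inferInstance, inferInstance, inferInstance,
    tow, O, ι X, ?_, ?_, ?_⟩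
  · rw [← map_zero ι]
    exact fun h => Polynomial.X_ne_zero (hinj h)
  · intro G
    apply hAO
    rw [← hφ]
    exact ⟨G, rfl⟩
  · intro G
    rw [← hφ]
    have h1 := hO (φ.toRingHom.rangeRestrict G)
    have h2 : ((φ.toRingHom.rangeRestrict G : φ.toRingHom.range) :
      AlgebraicClosure (FractionRing F[X])) = φ G := rfl
    rw [h2] at h1
    rw [← h1, ← Ideal.mem_comap, Ideal.comap_map_of_surjective _ hsurj]
    rw [← RingHom.ker_eq_comap_bot, sup_eq_left.2 hk]

end GC1
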