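import Pool.Agent.Work.MP_501976_gc.Interface

universe u

open Polynomial

namespace GC1

section

variable {F : Type u} [Field F]

theorem ZIN_nonunit_mul {O : ValuationSubring F} {a b : F} (ha : a ∈ O.nonunits) (hb : b ∈ O) :
    a * b ∈ O.nonunits := by
  rw [ValuationSubring.mem_nonunits_iff] at ha ⊢
  have h2 : O.valuation b ≤ 1 := (O.valuation_le_one_iff b).2 hb
  rw [map_mul]
  calc O.valuation a * O.valuation b ≤ O.valuation a * 1 := mul_le_mul_right h2 _
    _ = O.valuation a := mul_one _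
    _ < 1 := ha

theorem ZIN_nonunit_mem {O : ValuationSubring F} {a : F} (ha : a ∈ O.nonunits) : a ∈ O := by
  rw [ValuationSubring.mem_nonunits_iff] at ha
  exact (O.valuation_le_one_iff a).1 ha.le

theorem ZIN_zero {O : ValuationSubring F} : (0 : F) ∈ O.nonunits := by
  rw [ValuationSubring.mem_nonunits_iff, map_zero]
  exact zero_lt_one

theorem ZIN_res {O : ValuationSubring F} (a : F) (ha : a ∈ O) :
    IsLocalRing.residue O ⟨a, ha⟩ = 0 ↔ a ∈ O.nonunits := by
  rw [IsLocalRing.residue_eq_zero_iff, ValuationSubring.mem_nonunits_iff_exists_mem_maximalIdeal]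
  constructor
  · intro h
    exact ⟨ha, h⟩
  · rintro ⟨_, h⟩
    exact h

/-- The rescaled polynomial. -/
noncomputable def ZIN_sc (δ : F) (m : ℕ) (f : F[X]) : F[X] :=
  C (δ ^ m)⁻¹ * (Polynomial.aeval (R := F) (C δ * X : F[X]) f)

theorem ZIN_sc_coeff (δ : F) (m : ℕ) (f : F[X]) (l : ℕ) :
    (ZIN_sc δ m f).coeff l = (δ ^ m)⁻¹ * (f.coeff l * δ ^ l) := by
  unfold ZIN_sc
  rw [coeff_C_mul, ← Polynomial.comp_eq_aeval, Polynomial.comp_C_mul_X_coeff]

theorem ZIN_sc_lt {δ : F} (hδ : δ ≠ 0) {m l : ℕ} (h : l < m) (f : F[X]) :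
    (ZIN_sc δ m f).coeff l = f.coeff l / δ ^ (m - l) := by
  rw [ZIN_sc_coeff]
  have h2 : δ ^ m = δ ^ l * δ ^ (m - l) := by
    rw [← pow_add]
    congr 1
    omega
  have h3 : δ ^ l ≠ 0 := pow_ne_zero _ hδ
  have h4 : δ ^ (m - l) ≠ 0 := pow_ne_zero _ hδ
  rw [h2]
  field_simp

theorem ZIN_sc_ge {δ : F} (hδ : δ ≠ 0) {m l : ℕ} (h : m ≤ l) (f : F[X]) :
    (ZIN_sc δ m f).coeff l = f.coeff l * δ ^ (l - m) := by
  rw [ZIN_sc_coeff]
  have h2 : δ ^ l = δ ^ m * δ ^ (l - m) := by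
    rw [← pow_add]
    congr 1
    omega
  have h3 : δ ^ m ≠ 0 := pow_ne_zero _ hδ
  rw [h2]
  field_simp

theorem ZIN_eq (δ : F) (m : ℕ) {N d : ℕ} (H : MvPolynomial (Fin N) F) (hH : H.IsHomogeneous d)
    (φ : Fin N → F[X]) (h : MvPolynomial.aeval φ H = 0) :
    MvPolynomial.aeval (fun i => ZIN_sc δ m (φ i)) H = 0 := by
  have h1 := IX1.p_HOM F F[X] N (fun _ => 1) d H hH (C (δ ^ m)⁻¹)
    (fun i => Polynomial.aeval (R := F) (C δ * X : F[X]) (φ i))
  have h2 : (fun i => ZIN_sc δ m (φ i)) =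
      fun i => (C (δ ^ m)⁻¹ : F[X]) ^ 1 * Polynomial.aeval (R := F) (C δ * X : F[X]) (φ i) := by
    funext i
    rw [pow_one]
    rfl
  rw [h2, h1]
  have h3 : MvPolynomial.aeval (fun i => Polynomial.aeval (R := F) (C δ * X : F[X]) (φ i)) H =
      Polynomial.aeval (R := F) (C δ * X : F[X]) (MvPolynomial.aeval φ H) :=
    (MvPolynomial.comp_aeval_apply φ (Polynomial.aeval (R := F) (C δ * X : F[X])) H).symm
  rw [h3, h, map_zero, mul_zero]

end

theorem p_ZIN (hR : Stmt_REF.{u}) : Stmt_ZIN.{u} := by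
  intro F _ _ O N c H d hH m
  induction m using Nat.strong_induction_on with
  | _ m ih =>
    intro φ h1 h2 h3 h4 h5 h6 h7
    have hm : 0 < m := by
      rcases Nat.eq_zero_or_pos m with h | h
      · exfalso
        apply h4
        rw [h, h2]
        exact ZIN_zero
      · exact h
    obtain ⟨i₀, hi₀, hne₀⟩ := h6
    obtain ⟨δ, hδ, hdO, ⟨x, hx⟩⟩ := IX1.p_NRM F O (Fin (N + 1) × Fin m)
      (fun x => (φ x.1).coeff x.2) (fun x => m - x.2) (fun x => Nat.sub_pos_of_lt x.2.2)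
      ⟨(i₀, ⟨0, hm⟩), hne₀⟩
    -- the family is in the maximal ideal
    have hnon : ∀ i, ∀ l < m, (φ i).coeff l ∈ O.nonunits := by
      intro i l hl
      by_cases hi : i = 0
      · rw [hi]
        exact h3 l hl
      · exact h5 i hi l
    have hδn : δ ∈ O.nonunits := by
      by_contra hcon
      apply hx
      have hv : 1 ≤ O.valuation δ := by
        rw [ValuationSubring.mem_nonunits_iff, not_lt] at hcon
        exact hcon
      have hv2 : (1 : _) ≤ O.valuation δ ^ (m - x.2) := one_le_pow₀ hv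
      have hv3 : O.valuation ((φ x.1).coeff x.2) < 1 :=
        (ValuationSubring.mem_nonunits_iff O).1 (hnon x.1 x.2 x.2.2)
      rw [ValuationSubring.mem_nonunits_iff, map_div₀, map_pow]
      have hpos : 0 < O.valuation δ ^ (m - x.2) := lt_of_lt_of_le zero_lt_one hv2
      rw [div_lt_iff₀ hpos, one_mul]
      exact lt_of_lt_of_le hv3 hv2
    have hδO : δ ∈ O := ZIN_nonunit_mem hδn
    have hc1 : ∀ i l, (ZIN_sc δ m (φ i)).coeff l ∈ O := by
      intro i l
      rcases lt_or_ge l m with hl | hl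
      · rw [ZIN_sc_lt hδ hl]
        exact hdO (i, ⟨l, hl⟩)
      · rw [ZIN_sc_ge hδ hl]
        exact O.mul_mem _ _ (h1 i l) (pow_mem hδO _)
    have hc2 : ∀ i l, m < l → (ZIN_sc δ m (φ i)).coeff l ∈ O.nonunits := by
      intro i l hl
      rw [ZIN_sc_ge hδ hl.le, mul_comm]
      refine ZIN_nonunit_mul ?_ (h1 i l)
      obtain ⟨k, hk⟩ : ∃ k, l - m = k + 1 := ⟨l - m - 1, by omega⟩
      rw [hk, pow_succ, mul_comm]
      exact ZIN_nonunit_mul hδn (pow_mem hδO _)
    have hc3 : ∀ i, i ≠ 0 → ∀ l, m ≤ l → (ZIN_sc δ m (φ i)).coeff l ∈ O.nonunits := by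
      intro i hi l hl
      rw [ZIN_sc_ge hδ hl]
      exact ZIN_nonunit_mul (h5 i hi l) (pow_mem hδO _)
    have hc4 : (ZIN_sc δ m (φ 0)).coeff m = (φ 0).coeff m := by
      rw [ZIN_sc_ge hδ le_rfl, Nat.sub_self, pow_zero, mul_one]
    have heq : ∀ j, MvPolynomial.aeval (fun i => ZIN_sc δ m (φ i))
        (MvPolynomial.map (algebraMap O F) (H j)) = 0 := by
      intro j
      exact ZIN_eq δ m _ ((hH j).map _) φ (h7 j)
    by_cases hcase : ∃ i, i ≠ 0 ∧ ∃ l < m, (ZIN_sc δ m (φ i)).coeff l ∉ O.nonunits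
    · -- case (a)
      obtain ⟨i₁, hi₁, l₁, hl₁, hun⟩ := hcase
      obtain ⟨G, hG, hGe⟩ := IX1.p_RDU F O (N + 1) (fun i => ZIN_sc δ m (φ i)) hc1
      have hG0 : ∀ i l, (G i).coeff l = 0 ↔ (ZIN_sc δ m (φ i)).coeff l ∈ O.nonunits := by
        intro i l
        rw [hG i l]
        exact ZIN_res _ _
      have hGd : ∀ i, (G i).natDegree ≤ m := by
        intro i
        rw [Polynomial.natDegree_le_iff_coeff_eq_zero]
        intro l hl
        exact (hG0 i l).2 (hc2 i l hl)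
      have hb : (G 0).coeff m ≠ 0 := by
        intro h
        rw [hG0, hc4] at h
        exact h4 h
      have hrc : ∀ i l, l ≤ m → ((G i).reflect m).coeff l = (G i).coeff (m - l) := by
        intro i l hl
        rw [Polynomial.coeff_reflect, Polynomial.revAt_le hl]
      refine ⟨fun i => C ((G 0).coeff m)⁻¹ * (G i).reflect m, ?_, ?_, ?_, ?_, ?_⟩
      · intro i
        refine (Polynomial.natDegree_C_mul_le _ _).trans ?_
        rw [Polynomial.natDegree_le_iff_coeff_eq_zero]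
        intro l hl
        rw [Polynomial.coeff_reflect, Polynomial.revAt_eq_self_of_lt hl]
        exact (hG0 i l).2 (hc2 i l hl)
      · rw [coeff_C_mul, hrc 0 0 (Nat.zero_le _), Nat.sub_zero, inv_mul_cancel₀ hb]
      · intro i hi
        rw [coeff_C_mul, hrc i 0 (Nat.zero_le _), Nat.sub_zero, (hG0 i m).2 (hc3 i hi m le_rfl),
          mul_zero]
      · refine ⟨i₁, hi₁, ?_⟩
        intro h
        have h8 := congrArg (fun q => q.coeff (m - l₁)) h
        simp only [coeff_C_mul, coeff_zero] at h8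
        rw [hrc i₁ (m - l₁) (Nat.sub_le _ _), Nat.sub_sub_self hl₁.le] at h8
        rcases mul_eq_zero.1 h8 with h9 | h9
        · exact inv_ne_zero hb h9
        · exact hun ((hG0 i₁ l₁).1 h9)
      · intro j
        exact hR _ (N + 1) (d j) m _ G _ ((hH j).map _) hGd (hGe (H j) (heq j))
    · -- case (b)
      push Not at hcase
      have hx0 : x.1 = 0 := by
        by_contra hcon
        apply hx
        have h8 := hcase x.1 hcon x.2 x.2.2
        rw [ZIN_sc_lt hδ x.2.2] at h8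
        exact h8
      have hex : ∃ l, (ZIN_sc δ m (φ 0)).coeff l ∉ O.nonunits := by
        refine ⟨x.2, ?_⟩
        rw [ZIN_sc_lt hδ x.2.2, ← hx0]
        exact hx
      classical
      have hlt : Nat.find hex < m := by
        refine lt_of_le_of_lt (Nat.find_min' hex (m := (x.2 : ℕ)) ?_) x.2.2
        rw [ZIN_sc_lt hδ x.2.2, ← hx0]
        exact hx
      have e2 : (ZIN_sc δ m (φ 0)).coeff 0 = 0 := by
        rw [ZIN_sc_coeff, h2, zero_mul, mul_zero]
      have e3 : ∀ l < Nat.find hex, (ZIN_sc δ m (φ 0)).coeff l ∈ O.nonunits := by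
        intro l hl
        have h8 := Nat.find_min hex hl
        rw [not_not] at h8
        exact h8
      have e5 : ∀ i, i ≠ 0 → ∀ l, (ZIN_sc δ m (φ i)).coeff l ∈ O.nonunits := by
        intro i hi l
        rcases lt_or_ge l m with hl | hl
        · exact hcase i hi l hl
        · exact hc3 i hi l hl
      have e6 : ∃ i, i ≠ 0 ∧ (ZIN_sc δ m (φ i)).coeff 0 ≠ 0 := by
        refine ⟨i₀, hi₀, ?_⟩
        rw [ZIN_sc_coeff, pow_zero, mul_one]
        exact mul_ne_zero (inv_ne_zero (pow_ne_zero _ hδ)) hne₀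
      obtain ⟨g, hg1, hg2⟩ := ih (Nat.find hex) hlt (fun i => ZIN_sc δ m (φ i)) hc1 e2 e3
        (Nat.find_spec hex) e5 e6 heq
      exact ⟨g, fun i => (hg1 i).trans hlt.le, hg2⟩

end GC1
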