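import Mathlib
import Pool.Agent.Work.MP_501976_gc.B_MOB
import Pool.Agent.Work.MP_501976_gc.B_MOH
import Pool.Agent.Work.MP_501976_gc.B_SHP
import Pool.Agent.Work.MP_501976_gc.B_IDP
import Pool.Agent.Work.MP_501976_gc.B_SLI
import Pool.Agent.Work.MP_501976_gc.B_REF
import Pool.Agent.Work.MP_501976_gc.B_ZIN
import Pool.Agent.Work.MP_501976_gc.B_ROO
import Pool.Agent.Work.MP_501976_gc.B_UNS
import Pool.Agent.Work.MP_501976_gc.B_GR1
import Pool.Agent.Work.MP_501976_gc.B_GRD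
import Pool.Agent.Work.MP_501976_gc.B_TRD
import Pool.Agent.Work.MP_501976_gc.B_VAD
import Pool.Agent.Work.MP_501976_gc.B_EQH
import Pool.Agent.Work.MP_501976_gc.B_EQR
import Pool.Agent.Work.MP_501976_gc.B_UNI
import Pool.Agent.Work.MP_501976_gc.B_SCL
import Pool.Agent.Work.MP_501976_gc.B_RED
import Pool.Agent.Work.MP_501976_gc.B_RES
import Pool.Agent.Work.MP_501976_gc.B_COR
import Pool.Agent.Work.MP_501976_gc.B_TRL
import Pool.Agent.Work.MP_501976_gc.B_PA2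
import Pool.Agent.Work.MP_501976_gc.B_FIN

/-!
# Assembly of THEOREM GC (covers of arbitrary projective varieties)
-/

universe u v

namespace GC1

theorem final : Stmt_FIN.{u, v} := by
  have hMOB : Stmt_MOB.{u} := p_MOB
  have hMOH : Stmt_MOH.{u} := p_MOH
  have hSHP : Stmt_SHP.{u} := p_SHP hMOB hMOH
  have hIDP : Stmt_IDP.{u} := p_IDP
  have hSLI : Stmt_SLI.{u} := p_SLI hMOB hMOH hIDP
  have hREF : Stmt_REF.{u} := p_REF
  have hZIN : Stmt_ZIN.{u} := p_ZIN hREF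
  have hROO : Stmt_ROO.{u} := p_ROO
  have hUNS : Stmt_UNS.{u} := p_UNS hZIN hROO
  have hGR1 : Stmt_GR1.{u} := p_GR1
  have hGRD : Stmt_GRD.{u} := p_GRD hGR1
  have hTRD : Stmt_TRD.{u} := p_TRD
  have hVAD : Stmt_VAD.{u} := p_VAD
  have hEQH : Stmt_EQH.{u} := p_EQH
  have hEQR : Stmt_EQR.{u} := p_EQR
  have hUNI : Stmt_UNI.{u} := p_UNI
  have hSCL : Stmt_SCL.{u} := p_SCL
  have hRED : Stmt_RED.{u} := p_RED
  have hRES : Stmt_RES.{u} := p_RES hEQR hUNI hUNS hSCL hRED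
  have hCOR : Stmt_COR.{u} := p_COR hMOB hSHP hSLI hGRD hTRD hVAD hEQH hRES
  have hTRL : Stmt_TRL.{u} := p_TRL hCOR hIDP
  exact p_FIN hTRL p_PA2

end GC1
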