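import Pool.Agent.Work.MP_501976_gc.Interface

/-!
# Block GRD: the graded lemma
-/

set_option autoImplicit false

universe u v

open Polynomial

namespace GC1

theorem GRD_rank (K₀ F : Type u) [Field K₀] [Field F] [Algebra K₀ F] (T : Set F) (m : ℕ)
    (a : Fin m → F) (ha : AlgebraicIndependent K₀ a)
    (h : ∀ i, IsAlgebraic (Algebra.adjoin K₀ T) (a i)) : (m : ℕ∞) ≤ T.encard := by
  have h1 : (AlgebraicIndependent.matroid K₀ F).Indep (Set.range a) := by
    rw [AlgebraicIndependent.matroid_indep_iff]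
    exact ha.coe_range
  have h2 : Set.range a ⊆ (AlgebraicIndependent.matroid K₀ F).closure T := by
    rintro _ ⟨i, rfl⟩
    rw [AlgebraicIndependent.matroid_closure_eq]
    exact (Subalgebra.mem_algebraicClosure _ _).2 (h i)
  have h3 : (m : ℕ∞) = (Set.range a).encard := by
    rw [← Set.image_univ, ha.injective.encard_image, Set.encard_univ, ENat.card_eq_coe_fintype_card,
      Fintype.card_fin]
  calc (m : ℕ∞) = (Set.range a).encard := h3
    _ = (AlgebraicIndependent.matroid K₀ F).eRk (Set.range a) := h1.eRk_eq_encard.symm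
    _ ≤ (AlgebraicIndependent.matroid K₀ F).eRk ((AlgebraicIndependent.matroid K₀ F).closure T) :=
      (AlgebraicIndependent.matroid K₀ F).eRk_mono h2
    _ = (AlgebraicIndependent.matroid K₀ F).eRk T :=
      (AlgebraicIndependent.matroid K₀ F).eRk_closure_eq T
    _ ≤ T.encard := (AlgebraicIndependent.matroid K₀ F).eRk_le_encard T

section

variable {K₀ F : Type u} [Field K₀] [Field F] [Algebra K₀ F] {σ : Type}

theorem GRD_eval (wt : σ → ℕ) (v : σ → F) (G : MvPolynomial σ K₀) :
    (MvPolynomial.aeval (fun τ => (C (v τ) * X ^ wt τ : F[X])) G).eval 1 =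
      MvPolynomial.aeval v G := by
  induction G using MvPolynomial.induction_on with
  | C a => simp
  | add p q hp hq => simp [hp, hq]
  | mul_X p i hp => simp [hp]

theorem GRD_mon (wt : σ → ℕ) (v : σ → F) (d : σ →₀ ℕ) :
    (d.prod fun i k => (C (v i) * X ^ wt i : F[X]) ^ k) =
      C (d.prod fun i k => v i ^ k) * X ^ (Finsupp.weight wt d) := by
  rw [Finsupp.weight_apply]
  simp only [Finsupp.prod, Finsupp.sum, smul_eq_mul, mul_pow, Finset.prod_mul_distrib, map_prod,
    map_pow, ← Finset.prod_pow_eq_pow_sum]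
  congr 1
  refine Finset.prod_congr rfl fun i _ => ?_
  rw [← pow_mul, mul_comm]

theorem GRD_coeff (wt : σ → ℕ) (v : σ → F) (G : MvPolynomial σ K₀) (m : ℕ) :
    (MvPolynomial.aeval (fun τ => (C (v τ) * X ^ wt τ : F[X])) G).coeff m =
      MvPolynomial.aeval v (MvPolynomial.weightedHomogeneousComponent wt m G) := by
  induction G using MvPolynomial.induction_on' with
  | monomial d a =>
    rw [MvPolynomial.weightedHomogeneousComponent_of_mem
      (MvPolynomial.isWeightedHomogeneous_monomial wt d a rfl), MvPolynomial.aeval_monomial, GRD_mon,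
      Polynomial.algebraMap_apply, ← mul_assoc, ← C_mul, coeff_C_mul_X_pow]
    split_ifs with h
    · rw [MvPolynomial.aeval_monomial]
    · rw [map_zero]
  | add p q hp hq =>
    rw [map_add, map_add, map_add, coeff_add, hp, hq]

theorem GRD_comp (wt : σ → ℕ) (v : σ → F) (b : MvPolynomial σ K₀)
    (hb : MvPolynomial.aeval (fun τ => (C (v τ) * X ^ wt τ : F[X])) b = 0) (m : ℕ) :
    MvPolynomial.aeval (fun τ => (C (v τ) * X ^ wt τ : F[X]))
      (MvPolynomial.weightedHomogeneousComponent wt m b) = 0 := by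
  ext k
  rw [GRD_coeff, MvPolynomial.weightedHomogeneousComponent_of_mem
    (MvPolynomial.weightedHomogeneousComponent_isWeightedHomogeneous m b)]
  split_ifs with h
  · rw [← GRD_coeff, hb, coeff_zero, coeff_zero]
  · rw [map_zero, coeff_zero]

end

theorem p_GRD (h1 : Stmt_GR1.{u}) : Stmt_GRD.{u} := by
  intro K₀ F _ _ _ σ ι _ _ wt hwt v E n hE hn hI
  let P : Ideal (MvPolynomial σ K₀) :=
    RingHom.ker (MvPolynomial.aeval (fun τ => (C (v τ) * X ^ wt τ : F[X])) :
      MvPolynomial σ K₀ →ₐ[K₀] F[X])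
  have hP : ∀ G, G ∈ P ↔ MvPolynomial.aeval (fun τ => (C (v τ) * X ^ wt τ : F[X])) G = 0 :=
    fun G => RingHom.mem_ker
  by_contra hcon
  push Not at hcon
  have hrad : ∀ τ, (MvPolynomial.X τ : MvPolynomial σ K₀) ∈
      (P ⊔ Ideal.span (Set.range E)).radical := by
    intro τ
    rw [Ideal.radical_eq_sInf, Submodule.mem_sInf]
    rintro q ⟨hle, hq⟩
    exact hcon q hq (fun G hG => hle (Ideal.mem_sup_left ((hP G).2 hG)))
      (fun j => hle (Ideal.mem_sup_right (Ideal.subset_span ⟨j, rfl⟩))) τ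
  have hcomp : ∀ b ∈ P, ∀ m, MvPolynomial.weightedHomogeneousComponent wt m b ∈ P :=
    fun b hb m => (hP _).2 (GRD_comp wt v b ((hP b).1 hb) m)
  have hint := h1 K₀ σ ι wt hwt P hcomp E n hE hn hrad
  have hg : ∀ a ∈ P, MvPolynomial.aeval v a = 0 := by
    intro a ha
    rw [← GRD_eval wt v a, (hP a).1 ha, eval_zero]
  let g : (MvPolynomial σ K₀ ⧸ P) →ₐ[K₀] F := Ideal.Quotient.liftₐ P (MvPolynomial.aeval v) hg
  have hgm : ∀ a, g (Ideal.Quotient.mk P a) = MvPolynomial.aeval v a := fun a => rfl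
  have hal : ∀ τ, IsAlgebraic (Algebra.adjoin K₀ (Set.range fun j => MvPolynomial.aeval v (E j)))
      (v τ) := by
    intro τ
    obtain ⟨p, hp, hp0⟩ := hint (Ideal.Quotient.mk P (MvPolynomial.X τ))
    have hmap : (Algebra.adjoin K₀ (Set.range fun j => Ideal.Quotient.mk P (E j))).map g =
        Algebra.adjoin K₀ (Set.range fun j => MvPolynomial.aeval v (E j)) := by
      rw [AlgHom.map_adjoin, ← Set.range_comp]
      rfl
    let f : Algebra.adjoin K₀ (Set.range fun j => Ideal.Quotient.mk P (E j)) →+*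
        Algebra.adjoin K₀ (Set.range fun j => MvPolynomial.aeval v (E j)) :=
      RingHom.codRestrict ((g : (MvPolynomial σ K₀ ⧸ P) →+* F).comp
        (Subalgebra.val _ : _ →ₐ[K₀] (MvPolynomial σ K₀ ⧸ P)).toRingHom) _ (by
          intro x
          rw [← hmap]
          exact ⟨x, x.2, rfl⟩)
    have hi : IsIntegral (Algebra.adjoin K₀ (Set.range fun j => MvPolynomial.aeval v (E j)))
        (v τ) := by
      refine ⟨p.map f, hp.map f, ?_⟩
      rw [Polynomial.eval₂_map]
      have h2 := congrArg g hp0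
      rw [map_zero] at h2
      rw [← h2]
      have h3 := Polynomial.hom_eval₂ p (algebraMap (Algebra.adjoin K₀
        (Set.range fun j => Ideal.Quotient.mk P (E j))) (MvPolynomial σ K₀ ⧸ P))
        (g : (MvPolynomial σ K₀ ⧸ P) →+* F) (Ideal.Quotient.mk P (MvPolynomial.X τ))
      have h4 : (g : (MvPolynomial σ K₀ ⧸ P) →+* F) (Ideal.Quotient.mk P (MvPolynomial.X τ)) =
          v τ := by
        change g _ = _
        rw [hgm, MvPolynomial.aeval_X]
      rw [h4] at h3
      exact h3.symm
    exact hi.isAlgebraic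
  obtain ⟨a, haS, ha⟩ := hI
  have h5 := GRD_rank K₀ F (Set.range fun j => MvPolynomial.aeval v (E j)) _ a ha (fun i => by
    obtain ⟨τ, hτ⟩ := haS i
    rw [← hτ]
    exact hal τ)
  have h6 : (Set.range fun j => MvPolynomial.aeval v (E j)).encard ≤ (Fintype.card ι : ℕ∞) := by
    rw [← Set.image_univ]
    refine (Set.encard_image_le _ _).trans ?_
    rw [Set.encard_univ, ENat.card_eq_coe_fintype_card]
  have h7 := h5.trans h6
  rw [Nat.cast_le] at h7
  omega

end GC1
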