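import Pool.Agent.Work.MP_501976_gc.Interface

/-! # Block PA2: from a good curve through the generic point to an elliptic curve -/

set_option autoImplicit false

universe u v

open Polynomial

namespace GC1

theorem p_PA2 : Stmt_PA2.{u, v} := by
  intro L _ _ k _ _ _ _ _ N c s r G x hmin D hD e he w q hq n hw hn hgen o μ d₁ d₂ htype' hoμ
    Ω _ _ _ f hf1 hf3 hg hp
  obtain ⟨g, h₁, h₂, h₁0, h₂0, h₁d, h₂d, hFg⟩ := hg
  choose p hp using hp
  classical
  let _ : Algebra ℂ Ω := ((algebraMap L Ω).comp (algebraMap ℂ L)).toAlgebra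
  have hST : IsScalarTower ℂ L Ω := IsScalarTower.of_algebraMap_eq fun z => rfl
  have hc0 : CharZero Ω := charZero_of_injective_algebraMap (algebraMap ℂ Ω).injective
  let f0 : k →ₐ[ℂ] Ω := (IsScalarTower.toAlgHom ℂ L Ω).comp (IsScalarTower.toAlgHom ℂ k L)
  have hf0 : ∀ a, f0 a = algebraMap L Ω (algebraMap k L a) := fun a => rfl
  have hf0' : (algebraMap L Ω).comp (algebraMap k L) = (f0 : k →+* Ω) := by
    ext a
    rfl
  rw [hf0'] at hf3 hFg
  simp only [hf0'] at hp
  have hev : ∀ A : MvPolynomial (Fin N) k,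
      MvPolynomial.eval (fun i => algebraMap L Ω (x i)) (MvPolynomial.map (f0 : k →+* Ω) A) =
        algebraMap L Ω (MvPolynomial.aeval x A) := fun A =>
    MP501976.eval_map_hom x (f0 : k →+* Ω) hf0 A
  have hLΩ : Function.Injective (algebraMap L Ω) := (algebraMap L Ω).injective
  obtain ⟨s₁, hs₁, rfl⟩ := MP501976.exists_factors h₁ d₁ h₁0 h₁d
  obtain ⟨s₂, hs₂, rfl⟩ := MP501976.exists_factors h₂ d₂ h₂0 h₂d
  -- roots of the values of the branch polynomials
  have hα : ∀ b, ∃ α : Ω, α ^ e b = algebraMap L Ω (MvPolynomial.aeval x (D b)) := fun b =>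
    IsAlgClosed.exists_pow_nat_eq _ (he b)
  choose α hα using hα
  -- the finitely generated field
  obtain ⟨t, ht⟩ := IntermediateField.fg_top ℂ k
  let cf : Polynomial Ω → Finset Ω := fun P => (Finset.range (P.natDegree + 1)).image P.coeff
  let S : Finset Ω := t.image f0 ∪ (Finset.univ.biUnion fun i => cf (f i)) ∪
    (Finset.univ.image α) ∪ cf g ∪
    s₁.toFinset ∪ s₂.toFinset ∪ (Finset.univ.biUnion fun i => cf (p i))
  let K : IntermediateField ℂ Ω := IntermediateField.adjoin ℂ (S : Set Ω)
  have hSK : ∀ a ∈ S, a ∈ K := fun a ha => IntermediateField.subset_adjoin ℂ _ ha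
  have hcf : ∀ P : Polynomial Ω, cf P ⊆ S → ∀ n, P.coeff n ∈ Set.range (algebraMap K Ω) := by
    intro P hP n
    by_cases hn : n < P.natDegree + 1
    · exact ⟨⟨P.coeff n, hSK _ (hP (Finset.mem_image_of_mem _ (Finset.mem_range.mpr hn)))⟩, rfl⟩
    · refine ⟨0, ?_⟩
      rw [map_zero, coeff_eq_zero_of_natDegree_lt (by omega)]
  have hKΩ : Function.Injective (algebraMap K Ω) := (algebraMap K Ω).injective
  have hcK : CharZero K := charZero_of_injective_algebraMap (algebraMap ℂ K).injective
  have hmapinj : Function.Injective (Polynomial.map (algebraMap K Ω)) :=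
    Polynomial.map_injective _ hKΩ
  have hf' : ∀ i, ∃ Q : K[X], Q.map (algebraMap K Ω) = f i := by
    intro i
    refine MP501976.exists_descent _ (hcf _ ?_)
    intro a ha
    simp only [S, Finset.mem_union, Finset.mem_biUnion, Finset.mem_univ, true_and]
    exact Or.inl (Or.inl (Or.inl (Or.inl (Or.inl (Or.inr ⟨i, ha⟩)))))
  choose f' hf' using hf'
  have hp' : ∀ i, ∃ Q : K[X], Q.map (algebraMap K Ω) = p i := by
    intro i
    refine MP501976.exists_descent _ (hcf _ ?_)
    intro a ha
    simp only [S, Finset.mem_union, Finset.mem_biUnion, Finset.mem_univ, true_and]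
    exact Or.inr ⟨i, ha⟩
  choose p' hp' using hp'
  obtain ⟨g', hg'⟩ := MP501976.exists_descent (K := K) g (hcf _ (by
    intro a ha
    simp only [S, Finset.mem_union]
    exact Or.inl (Or.inl (Or.inl (Or.inr ha)))))
  obtain ⟨s₁', hs₁'⟩ := MP501976.exists_descent_multiset K s₁ (by
    intro a ha
    apply hSK
    simp only [S, Finset.mem_union, Multiset.mem_toFinset]
    exact Or.inl (Or.inl (Or.inr ha)))
  obtain ⟨s₂', hs₂'⟩ := MP501976.exists_descent_multiset K s₂ (by
    intro a ha
    apply hSK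
    simp only [S, Finset.mem_union, Multiset.mem_toFinset]
    exact Or.inl (Or.inr ha))
  have hαK : ∀ b, α b ∈ K := by
    intro b
    apply hSK
    simp only [S, Finset.mem_union, Finset.mem_image, Finset.mem_univ, true_and]
    exact Or.inl (Or.inl (Or.inl (Or.inl (Or.inr ⟨b, rfl⟩))))
  have hkK : ∀ a : k, f0 a ∈ K := by
    intro a
    have ha : a ∈ IntermediateField.adjoin ℂ (t : Set k) := by rw [ht]; trivial
    refine IntermediateField.adjoin_induction ℂ (p := fun a _ => f0 a ∈ K) ?_ ?_ ?_ ?_ ?_ ha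
    · intro b hb
      apply hSK
      simp only [S, Finset.mem_union, Finset.mem_image]
      exact Or.inl (Or.inl (Or.inl (Or.inl (Or.inl (Or.inl ⟨b, hb, rfl⟩)))))
    · intro z
      rw [f0.commutes]
      exact K.algebraMap_mem z
    · intro b b' _ _ hb hb'
      rw [map_add]
      exact add_mem hb hb'
    · intro b _ hb
      rw [map_inv₀]
      exact inv_mem hb
    · intro b b' _ _ hb hb'
      rw [map_mul]
      exact mul_mem hb hb'
  let ι : k →ₐ[ℂ] K := f0.codRestrict K.toSubalgebra hkK
  have hι : ∀ a, algebraMap K Ω (ι a) = f0 a := fun a => rfl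
  have hιcomp : (algebraMap K Ω).comp (ι : k →+* K) = (f0 : k →+* Ω) := by
    ext a
    exact hι a
  have hθ : ∀ A : MvPolynomial (Fin N) k,
      (MvPolynomial.aeval f' (MvPolynomial.map (ι : k →+* K) A)).map (algebraMap K Ω) =
        MvPolynomial.aeval f (MvPolynomial.map (f0 : k →+* Ω) A) := by
    intro A
    rw [MP501976.aeval_map, MvPolynomial.map_map, hιcomp]
    simp only [hf']
  have hθ0 : ∀ A : MvPolynomial (Fin N) k,
      algebraMap K Ω ((MvPolynomial.aeval f' (MvPolynomial.map (ι : k →+* K) A)).coeff 0) =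
        algebraMap L Ω (MvPolynomial.aeval x A) := by
    intro A
    rw [← coeff_map, hθ, MP501976.aeval_eval_zero]
    simp only [hf1]
    exact hev A
  have hh1 : ∀ A : MvPolynomial (Fin N) k, MvPolynomial.aeval x A ≠ 0 →
      MvPolynomial.aeval f' (MvPolynomial.map (ι : k →+* K) A) ≠ 0 := by
    intro A hA hA0
    have := hθ0 A
    rw [hA0, coeff_zero, map_zero] at this
    exact hA ((map_eq_zero_iff _ hLΩ).mp this.symm)
  let θ : MvPolynomial (Fin N) k →+* K[X] :=
    (MvPolynomial.aeval f' : MvPolynomial (Fin N) K →ₐ[K] K[X]).toRingHom.comp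
      (MvPolynomial.map (ι : k →+* K))
  have hθdef : ∀ A, θ A = MvPolynomial.aeval f' (MvPolynomial.map (ι : k →+* K) A) :=
    fun A => rfl
  have hh0 : ∀ A : MvPolynomial (Fin N) k, MvPolynomial.aeval x A = 0 →
      MvPolynomial.aeval f' (MvPolynomial.map (ι : k →+* K) A) = 0 := by
    intro A hA
    obtain ⟨s, hs, n, hsn⟩ := MP501976.exists_mul_pow_mem hmin (a := A) hA
    have hθI : Ideal.span (Set.range G) ≤ RingHom.ker θ := by
      rw [Ideal.span_le]
      rintro _ ⟨j, rfl⟩
      refine hmapinj ?_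
      rw [Polynomial.map_zero]
      exact (hθ (G j)).trans (hf3 j)
    have h2 : θ (s * A ^ n) = 0 := hθI hsn
    rw [map_mul, map_pow, mul_eq_zero] at h2
    rcases h2 with h2 | h2
    · exact absurd h2 (hh1 s hs)
    · refine (pow_eq_zero_iff (n := n) ?_).mp h2
      rintro rfl
      rw [pow_zero] at h2
      exact one_ne_zero h2
  -- the elliptic curve
  obtain ⟨E, hE, T, W, hT, hW⟩ := MP501976.exists_kummer (K := K) htype' s₁' s₂'
    (by rw [← hs₁, ← hs₁', Multiset.card_map]) (by rw [← hs₂, ← hs₂', Multiset.card_map])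
  have hprod : ∀ s : Multiset K,
      ((s.map fun r => (1 - C r * X : K[X])).prod).map (algebraMap K Ω) =
        ((s.map (algebraMap K Ω)).map fun r => (1 - C r * X : Polynomial Ω)).prod := by
    intro s
    rw [Polynomial.map_multiset_prod, Multiset.map_map, Multiset.map_map]
    congr 1
    refine Multiset.map_congr rfl fun r _ => ?_
    simp
  have hprodT : ∀ s : Multiset K,
      Polynomial.aeval T ((s.map fun r => (1 - C r * X : K[X])).prod) =
        (s.map fun r => 1 - algebraMap K E.FunctionField r * T).prod := by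
    intro s
    rw [map_multiset_prod, Multiset.map_map]
    congr 1
    refine Multiset.map_congr rfl fun r _ => ?_
    simp
  have hβ₀ : θ (D 0) = C ((⟨α 0, hαK 0⟩ : K) ^ e 0) * (g' ^ e 0 *
        ((s₁'.map fun r => (1 - C r * X : K[X])).prod *
          (s₂'.map fun r => (1 - C r * X : K[X])).prod ^ 2) ^ μ) := by
    refine hmapinj ?_
    rw [hθdef, hθ, hFg, ← hα]
    simp only [Polynomial.map_mul, Polynomial.map_pow, hprod, hs₁', hs₂', hg', map_C, map_pow]
    rfl
  have hβi : ∀ i : Fin s, θ (D i.succ) =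
      C ((⟨α i.succ, hαK i.succ⟩ : K) ^ e i.succ) * p' i ^ e i.succ := by
    intro i
    refine hmapinj ?_
    rw [hθdef, hθ, hp, ← hα]
    simp only [Polynomial.map_mul, Polynomial.map_pow, hp', map_C, map_pow]
    rfl
  -- roots of the branch polynomials in the function field
  have hB : ∀ b, ∃ B : E.FunctionField, B ^ e b = Polynomial.aeval T (θ (D b)) := by
    intro b
    refine Fin.cases ?_ (fun i => ?_) b
    · refine ⟨algebraMap K E.FunctionField ⟨α 0, hαK 0⟩ * Polynomial.aeval T g' * W, ?_⟩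
      rw [hβ₀]
      simp only [map_mul, map_pow, hprodT, aeval_C]
      rw [← hW, ← pow_mul, ← hoμ]
      ring
    · refine ⟨algebraMap K E.FunctionField ⟨α i.succ, hαK i.succ⟩ *
        Polynomial.aeval T (p' i), ?_⟩
      rw [hβi]
      simp only [map_mul, map_pow, aeval_C]
      rw [mul_pow]
  choose B hB using hB
  choose ν hν using hn
  obtain ⟨φ, hφ1, hφ2⟩ := MP501976.exists_embedding (k := k) (L := L) (K := K)
    (M := E.FunctionField) x w q hq
    (by
      intro a
      exact ⟨_, (Complex.isPrimitiveRoot_exp _ (hq a).ne').map_of_injective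
        (f := (algebraMap K E.FunctionField).comp (algebraMap ℂ K)) (RingHom.injective _)⟩)
    (fun a => ∏ b, D b ^ n a b)
    (by
      intro a
      rw [hw, map_prod]
      simp only [map_pow])
    hgen (ι : k →+* K) f' hh0 hh1 T hT
    (fun a => ∏ b, B b ^ ν a b)
    (by
      intro a
      change (∏ b, B b ^ ν a b) ^ q a = Polynomial.aeval T (θ (∏ b, D b ^ n a b))
      rw [map_prod, map_prod, ← Finset.prod_pow]
      refine Finset.prod_congr rfl fun b _ => ?_
      rw [map_pow, map_pow, ← hB, ← pow_mul, ← pow_mul, hν, mul_comm])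
  have hess : Algebra.EssFiniteType ℂ K := IntermediateField.essFiniteType_iff.mpr ⟨S, rfl⟩
  refine ⟨K, inferInstance, inferInstance, hess, E, hE, φ, T, f', algebraMap K Ω, ?_, hT, hφ2,
    hf'⟩
  intro z
  rw [IsScalarTower.algebraMap_apply ℂ k L, hφ1]
  congr 1
  exact ι.commutes z

end GC1
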